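import Pool.Agent.Y564.NV.Clif
import Pool.Agent.Q90.WR.Rep

/-!
# Characters of defect zero over a normal subgroup of prime index `q ≠ p`
-/

set_option autoImplicit false
set_option linter.unusedSectionVars false

open scoped BigOperators Classical

noncomputable section

namespace Pool.Agent.K1H2.KR

open Representation Pool.Agent.Helper884.IC Pool.Agent.Y63.AWC
open Pool.Agent.Y564.NV (st_cases)

variable {X : Type} [Group X]

/-- products with linear characters -/
theorem lin_irr {χ : X → ℂ} (h : IsIrrChar χ) (lam : X →* ℂ) :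
    IsIrrChar (fun x => lam x * χ x) := by
  obtain ⟨V, i1, i2, i3, ρ, hr, rfl⟩ := h
  have hne : ∀ g, lam g ≠ 0 := by
    intro g h0
    have h1 : lam (g * g⁻¹) = 1 := by rw [mul_inv_cancel, map_one]
    rw [map_mul, h0, zero_mul] at h1
    exact zero_ne_one h1
  let ρ' : Representation ℂ X V :=
    { toFun := fun g => lam g • ρ g
      map_one' := by rw [map_one, map_one, one_smul]
      map_mul' := fun g g' => by
        rw [map_mul, map_mul]
        ext v
        change (lam g * lam g') • (ρ g) ((ρ g') v) = lam g • (ρ g) (lam g' • (ρ g') v)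
        rw [map_smul, mul_smul] }
  refine ⟨V, i1, i2, i3, ρ', ?_, ?_⟩
  · let Fo : Subrepresentation ρ' ≃o Subrepresentation ρ :=
      { toFun := fun S => ⟨S.toSubmodule, fun g v hv => by
          have h1 := S.apply_mem_toSubmodule g hv
          have h2 : (lam g)⁻¹ • ρ' g v = ρ g v := by
            change (lam g)⁻¹ • (lam g • ρ g) v = ρ g v
            rw [LinearMap.smul_apply, smul_smul, inv_mul_cancel₀ (hne g), one_smul]
          rw [← h2]
          exact S.toSubmodule.smul_mem _ h1⟩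
        invFun := fun S => ⟨S.toSubmodule, fun g v hv => by
          change (lam g • ρ g) v ∈ S.toSubmodule
          rw [LinearMap.smul_apply]
          exact S.toSubmodule.smul_mem _ (S.apply_mem_toSubmodule g hv)⟩
        left_inv := fun S => rfl
        right_inv := fun S => rfl
        map_rel_iff' := Iff.rfl }
    exact Fo.isSimpleOrder_iff.mpr hr
  · funext x
    change lam x * LinearMap.trace ℂ V (ρ x) = LinearMap.trace ℂ V (lam x • ρ x)
    rw [map_smul, smul_eq_mul]

variable [Fintype X] (M : Subgroup X)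

theorem mult_congr {χ χ' : X → ℂ} (h : res M χ = res M χ') (θ : M → ℂ) :
    mult M χ θ = mult M χ' θ := by
  unfold mult
  rw [h]

variable [hM : M.Normal] {q : ℕ} [hq : Fact q.Prime]

/-- the characters over an invariant character -/
theorem inv_over (hr : Nat.card X = q * Nat.card M) {θ : M → ℂ} (h : IsIrrChar θ)
    (hst : Nat.card (St M θ) = Nat.card X) (lam : X →* ℂ) (h1 : ∀ m ∈ M, lam m = 1)
    (h2 : ∀ x, x ∉ M → IsPrimitiveRoot (lam x) q) :
    ((Irr X).filter fun χ => mult M χ θ ≠ 0).card = q ∧ ∀ χ ∈ Irr X, mult M χ θ ≤ 1 := by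
  have hMpos : 0 < Nat.card M := Nat.card_pos
  have hq1 := hq.out.one_lt
  obtain ⟨hO, hS, -⟩ : (Orb M θ).card = 1 ∧ (∑ χ ∈ Irr X, mult M χ θ ^ 2) = q ∧
      Nat.card (St M θ) = Nat.card X := by
    rcases st_cases M hr h with h3 | h3
    · exfalso
      rw [hst, hr] at h3
      have := h3.2.2
      nlinarith
    · exact h3
  obtain ⟨χ, hχ, hne⟩ : ∃ χ ∈ Irr X, mult M χ θ ≠ 0 := by
    by_contra hc
    push Not at hc
    rw [Finset.sum_eq_zero fun χ hχ => by rw [hc χ hχ]; rfl] at hS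
    omega
  have hχ' := mem_Irr.mp hχ
  have hθO : θ ∈ Orb M θ := Finset.mem_image.mpr ⟨1, Finset.mem_univ _, cj_one M θ⟩
  obtain ⟨θ', hθ'⟩ := Finset.card_eq_one.mp hO
  rw [hθ', Finset.mem_singleton] at hθO
  subst hθO
  have hres : res M χ = (mult M χ θ : ℂ) • θ := by
    rw [res_eq M hχ', ← Finset.sum_filter_of_ne (p := fun t => mult M χ t ≠ 0),
      support_eq M hχ' h hne, hθ', Finset.sum_singleton]
    intro t _ ht hz
    apply ht
    simp [hz]
  set e := mult M χ θ with he
  have hsq : e * e ≠ q := by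
    intro h3
    rcases (Nat.dvd_prime hq.out).mp (Dvd.intro _ h3) with h4 | h4
    · rw [h4] at h3; omega
    · rw [h4] at h3; nlinarith
  let f : ℕ → X → ℂ := fun j x => (lam ^ j) x * χ x
  have hf : ∀ j, IsIrrChar (f j) := fun j => lin_irr hχ' (lam ^ j)
  have hfm : ∀ j, mult M (f j) θ = e := by
    intro j
    apply mult_congr
    funext m
    change (lam ^ j) (m : X) * χ m = χ m
    rw [MonoidHom.pow_apply, h1 _ m.2, one_pow, one_mul]
  have hinj : Set.InjOn f (Finset.range q : Set ℕ) := by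
    intro j hj k hk hjk
    rw [Finset.coe_range, Set.mem_Iio] at hj hk
    by_contra hne'
    have hv : ∀ x, x ∉ M → χ x = 0 := by
      intro x hx
      have h3 := congrFun hjk x
      change (lam ^ j) x * χ x = (lam ^ k) x * χ x at h3
      rw [MonoidHom.pow_apply, MonoidHom.pow_apply] at h3
      by_contra h4
      exact hne' ((h2 x hx).pow_inj hj hk (mul_right_cancel₀ h4 h3))
    have h3 := B_irr hχ' hχ'
    rw [if_pos rfl] at h3
    unfold B at h3
    rw [sum_M M (fun g => χ g * χ g⁻¹) (fun g hg => by rw [hv g hg, zero_mul])] at h3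
    have h4 : B (res M χ) (res M χ) = ((e : ℂ)) * e := by
      rw [hres, B_smul_left, B_comm, B_smul_left, B_irr h h, if_pos rfl, mul_one]
    unfold B at h4
    have h5 : ∑ m : M, res M χ m * res M χ m⁻¹ = ∑ m : M, χ m * χ (m : X)⁻¹ := rfl
    rw [h5] at h4
    have hX := cardG_ne (G := X)
    have hMc := cardG_ne (G := M)
    rw [inv_mul_eq_iff_eq_mul₀ hX, mul_one] at h3
    rw [h3, inv_mul_eq_iff_eq_mul₀ hMc, hr] at h4
    have h6 : q * Nat.card M = Nat.card M * (e * e) := by exact_mod_cast h4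
    apply hsq
    have h7 : Nat.card M * (e * e) = Nat.card M * q := by rw [← h6, mul_comm]
    exact Nat.eq_of_mul_eq_mul_left hMpos h7
  have hsub : (Finset.range q).image f ⊆ Irr X := by
    intro ψ hψ
    obtain ⟨j, -, rfl⟩ := Finset.mem_image.mp hψ
    exact mem_Irr.mpr (hf j)
  have hcard : ((Finset.range q).image f).card = q := by
    rw [Finset.card_image_of_injOn hinj, Finset.card_range]
  have hsum : ∑ ψ ∈ (Finset.range q).image f, mult M ψ θ ^ 2 = q * e ^ 2 := by
    rw [Finset.sum_image hinj, Finset.sum_congr rfl fun j _ => by rw [hfm j], Finset.sum_const,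
      Finset.card_range, smul_eq_mul]
  have hle : q * e ^ 2 ≤ q := by
    rw [← hsum]
    conv_rhs => rw [← hS]
    exact Finset.sum_le_sum_of_subset hsub
  have he0 : 0 < e := Nat.pos_of_ne_zero hne
  have he1 : e = 1 := by
    have h3 : e ^ 2 ≤ 1 := by
      by_contra h4
      push Not at h4
      nlinarith
    nlinarith
  have hsplit := Finset.sum_sdiff (f := fun ψ => mult M ψ θ ^ 2) hsub
  rw [hsum, hS, he1] at hsplit
  have hz : ∑ ψ ∈ Irr X \ (Finset.range q).image f, mult M ψ θ ^ 2 = 0 := by omega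
  rw [Finset.sum_eq_zero_iff] at hz
  have hfil : (Irr X).filter (fun χ => mult M χ θ ≠ 0) = (Finset.range q).image f := by
    ext ψ
    rw [Finset.mem_filter]
    constructor
    · rintro ⟨h3, h4⟩
      by_contra h5
      have := hz ψ (Finset.mem_sdiff.mpr ⟨h3, h5⟩)
      exact h4 (pow_eq_zero_iff (two_ne_zero) |>.mp this)
    · intro h3
      refine ⟨hsub h3, ?_⟩
      obtain ⟨j, -, rfl⟩ := Finset.mem_image.mp h3
      rw [hfm j]
      exact hne
  refine ⟨by rw [hfil, hcard], ?_⟩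
  intro ψ hψ
  by_cases h3 : ψ ∈ (Finset.range q).image f
  · obtain ⟨j, -, rfl⟩ := Finset.mem_image.mp h3
    rw [hfm j, he1]
  · have := hz ψ (Finset.mem_sdiff.mpr ⟨hψ, h3⟩)
    have h4 : mult M ψ θ = 0 := pow_eq_zero_iff (two_ne_zero) |>.mp this
    omega

variable {p : ℕ} [hp : Fact p.Prime]

/-- degrees -/
theorem dz_iff (hpq : q ≠ p) (hr : Nat.card X = q * Nat.card M) (lam : X →* ℂ)
    (h1 : ∀ m ∈ M, lam m = 1) (h2 : ∀ x, x ∉ M → IsPrimitiveRoot (lam x) q) {χ : X → ℂ}
    {θ : M → ℂ} (hc : IsIrrChar χ) (h : IsIrrChar θ) (hm : mult M χ θ ≠ 0) :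
    DZ p χ ↔ DZ p θ := by
  have hnp : ¬ p ∣ q := fun hd => hpq ((Nat.prime_dvd_prime_iff_eq hp.out hq.out).mp hd).symm
  have hq0 := hq.out.ne_zero
  have hfq : q.factorization p = 0 := Nat.factorization_eq_zero_of_not_dvd hnp
  have hfX : (Nat.card X).factorization p = (Nat.card M).factorization p := by
    rw [hr, Nat.factorization_mul hq0 Nat.card_pos.ne', Finsupp.add_apply, hfq, zero_add]
  have hO : (Orb M θ).card.factorization p = 0 ∧ mult M χ θ = 1 ∧ (Orb M θ).card ≠ 0 := by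
    rcases st_cases M hr h with ⟨h3, h4, h5⟩ | ⟨h3, h4, h5⟩
    · rw [h3]
      have := (unique_over M h h5).2 χ (mem_Irr.mpr hc)
      exact ⟨hfq, by omega, hq0⟩
    · rw [h3]
      have := (inv_over M hr h h5 lam h1 h2).2 χ (mem_Irr.mpr hc)
      exact ⟨Nat.factorization_one ▸ rfl, by omega, one_ne_zero⟩
  obtain ⟨hO1, hO2, hO3⟩ := hO
  obtain ⟨n, hn0, hn⟩ := deg_nat hc
  obtain ⟨d, hd0, hd⟩ := deg_nat h
  have hdeg := deg_eq M hc h hm hn hd
  rw [hO2, mul_one] at hdeg
  have hfn : n.factorization p = d.factorization p := by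
    rw [hdeg, Nat.factorization_mul hO3 hd0.ne', Finsupp.add_apply, hO1, zero_add]
  constructor
  · rintro ⟨n', hn', hf⟩
    have : n' = n := by
      rw [hn] at hn'
      exact_mod_cast hn'.symm
    subst this
    exact ⟨d, hd, by rw [← hfn, hf, hfX]⟩
  · rintro ⟨d', hd', hf⟩
    have : d' = d := by
      rw [hd] at hd'
      exact_mod_cast hd'.symm
    subst this
    exact ⟨n, hn, by rw [hfn, hf, hfX]⟩

/-- **Count of the characters of defect zero.** -/
theorem count_q (hpq : q ≠ p) (hr : Nat.card X = q * Nat.card M) (lam : X →* ℂ)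
    (h1 : ∀ m ∈ M, lam m = 1) (h2 : ∀ x, x ∉ M → IsPrimitiveRoot (lam x) q) :
    (q : ℤ) * (((Irr X).filter fun χ => DZ p χ).card : ℤ) =
      (((Irr M).filter fun θ => DZ p θ).card : ℤ) + ((q : ℤ) ^ 2 - 1) *
        (((Irr M).filter fun θ => DZ p θ ∧ Nat.card (St M θ) = Nat.card X).card : ℤ) := by
  have hq0 : (q : ℚ) ≠ 0 := by exact_mod_cast hq.out.ne_zero
  have hq1 := hq.out.one_lt
  have hMpos : 0 < Nat.card M := Nat.card_pos
  have key : (((Irr X).filter fun χ => DZ p χ).card : ℚ) =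
      ∑ θ ∈ (Irr M).filter (fun θ => DZ p θ),
        (((Irr X).filter fun χ => mult M χ θ ≠ 0).card : ℚ) * ((Orb M θ).card : ℚ)⁻¹ := by
    have e1 : ∀ χ ∈ (Irr X).filter (fun χ => DZ p χ), (1 : ℚ) =
        ∑ θ ∈ (Irr M).filter (fun θ => DZ p θ), if mult M χ θ ≠ 0 then
          ((Orb M θ).card : ℚ)⁻¹ else 0 := by
      intro χ hχ
      obtain ⟨hc, hz⟩ := Finset.mem_filter.mp hχ
      have hc := mem_Irr.mp hc
      obtain ⟨θ₀, ht, hm⟩ := mult_exists M hc
      rw [← Finset.sum_filter]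
      have e2 : ((Irr M).filter (fun θ => DZ p θ)).filter (fun θ => mult M χ θ ≠ 0) =
          Orb M θ₀ := by
        rw [← support_eq M hc ht hm]
        ext θ
        simp only [Finset.mem_filter]
        constructor
        · rintro ⟨⟨h3, -⟩, h4⟩
          exact ⟨h3, h4⟩
        · rintro ⟨h3, h4⟩
          exact ⟨⟨h3, (dz_iff M hpq hr lam h1 h2 hc (mem_Irr.mp h3) h4).mp hz⟩, h4⟩
      rw [e2]
      have e3 : ∀ θ ∈ Orb M θ₀, ((Orb M θ).card : ℚ)⁻¹ = ((Orb M θ₀).card : ℚ)⁻¹ := by
        intro θ hθ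
        rw [← support_eq M hc ht hm, Finset.mem_filter] at hθ
        have h5 := support_eq M hc (mem_Irr.mp hθ.1) hθ.2
        rw [← h5, support_eq M hc ht hm]
      rw [Finset.sum_congr rfl e3, Finset.sum_const, nsmul_eq_mul, mul_inv_cancel₀]
      have : θ₀ ∈ Orb M θ₀ := Finset.mem_image.mpr ⟨1, Finset.mem_univ _, cj_one M θ₀⟩
      exact_mod_cast (Finset.card_pos.mpr ⟨_, this⟩).ne'
    rw [Finset.card_eq_sum_ones, Nat.cast_sum]
    push_cast
    rw [Finset.sum_congr rfl e1, Finset.sum_comm]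
    refine Finset.sum_congr rfl fun θ hθ => ?_
    obtain ⟨h3, h4⟩ := Finset.mem_filter.mp hθ
    rw [← Finset.sum_filter, Finset.sum_const, nsmul_eq_mul]
    congr 3
    ext χ
    simp only [Finset.mem_filter]
    constructor
    · rintro ⟨⟨h5, -⟩, h6⟩
      exact ⟨h5, h6⟩
    · rintro ⟨h5, h6⟩
      exact ⟨⟨h5, (dz_iff M hpq hr lam h1 h2 (mem_Irr.mp h5) (mem_Irr.mp h3) h6).mpr h4⟩, h6⟩
  have e4 : ∀ θ ∈ (Irr M).filter (fun θ => DZ p θ),
      (((Irr X).filter fun χ => mult M χ θ ≠ 0).card : ℚ) * ((Orb M θ).card : ℚ)⁻¹ =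
      (q : ℚ)⁻¹ + (if Nat.card (St M θ) = Nat.card X then (q : ℚ) - (q : ℚ)⁻¹ else 0) := by
    intro θ hθ
    obtain ⟨h3, h4⟩ := Finset.mem_filter.mp hθ
    have h3' := mem_Irr.mp h3
    rcases st_cases M hr h3' with ⟨h5, h6, h7⟩ | ⟨h5, h6, h7⟩
    · rw [(unique_over M h3' h7).1, h5, if_neg, add_zero, Nat.cast_one, one_mul]
      rw [h7, hr]
      intro h8
      nlinarith
    · rw [(inv_over M hr h3' h7 lam h1 h2).1, h5, if_pos h7, Nat.cast_one, inv_one, mul_one]
      ring
  rw [Finset.sum_congr rfl e4, Finset.sum_add_distrib, Finset.sum_const, nsmul_eq_mul,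
    ← Finset.sum_filter, Finset.filter_filter, Finset.sum_const, nsmul_eq_mul] at key
  have h5 : (q : ℚ) * (((Irr X).filter fun χ => DZ p χ).card : ℚ) =
      (((Irr M).filter fun θ => DZ p θ).card : ℚ) + ((q : ℚ) ^ 2 - 1) *
        (((Irr M).filter fun θ => DZ p θ ∧ Nat.card (St M θ) = Nat.card X).card : ℚ) := by
    rw [key]
    field_simp
  exact_mod_cast h5

end Pool.Agent.K1H2.KR
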