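import Pool.Agent.K1H2.KR.Rec

/-!
# The conjecture up to factors `|G|^o(1)`
-/

set_option autoImplicit false
set_option linter.unusedSectionVars false

open scoped BigOperators Classical

noncomputable section

namespace Pool.Agent.K1H2.KR

open Pool.Agent.Y63.KR
open Pool.Agent.Y63.AWC (numDefectZero numDefectZero_congr)
open Pool.Agent.Q90.WR (kap altK card_mul_altK krc_altK)
open Pool.Agent.R674.Ce (krDiff)

variable {G : Type} [Group G] {p : ℕ} [hp : Fact p.Prime]

/-- the Knörr–Robinson sum of a power -/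
theorem altK_pi [Finite G] (n : ℕ) : altK p (Fin n → G) = altK p G ^ n := by
  have := Fintype.ofFinite G
  have h4 := kap_pi (p := p) (G := G) (ι := Fin n)
  rw [Fintype.card_fin] at h4
  have h5 : (Nat.card (Fin n → G) : ℤ) * altK p (Fin n → G) = kap p G ^ n :=
    (card_mul_altK (p := p) (G := Fin n → G)).trans ((kap_inst _ _).trans h4)
  rw [← card_mul_altK, mul_pow, Nat.card_fun, Nat.card_fin] at h5
  push_cast at h5
  have h0 : ((Nat.card G : ℤ)) ^ n ≠ 0 :=
    pow_ne_zero n (by exact_mod_cast Nat.card_pos.ne')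
  exact mul_left_cancel₀ h0 h5

/-- the tensor power trick -/
theorem power_trick {a b s : ℝ} (_ : 0 ≤ a) (hb : 0 ≤ b) (hs : 1 ≤ s)
    (h : ∀ ε : ℝ, 0 < ε → ∃ C : ℝ, ∀ n : ℕ, a ^ n ≤ C * (s ^ n) ^ ε * (1 + b ^ n)) :
    a ≤ max 1 b := by
  by_contra hc
  push Not at hc
  set m := max 1 b with hm
  have hm1 : 1 ≤ m := le_max_left _ _
  have hbm : b ≤ m := le_max_right _ _
  have ha0 : 0 < a := by linarith
  -- choose `ε` with `m * s ^ ε < a`
  obtain ⟨ε, hε, hlt⟩ : ∃ ε : ℝ, 0 < ε ∧ m * s ^ ε < a := by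
    have h1 : Filter.Tendsto (fun ε : ℝ => m * s ^ ε) (nhdsWithin 0 (Set.Ioi 0)) (nhds (m * s ^ (0 : ℝ))) := by
      have h2 : ContinuousAt (fun ε : ℝ => m * s ^ ε) 0 := by
        refine continuousAt_const.mul ?_
        exact Real.continuousAt_const_rpow (by linarith)
      exact h2.tendsto.mono_left nhdsWithin_le_nhds
    rw [Real.rpow_zero, mul_one] at h1
    have h2 := (h1.eventually (gt_mem_nhds hc)).and self_mem_nhdsWithin
    obtain ⟨ε, h3, h4⟩ := h2.exists
    exact ⟨ε, h4, h3⟩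
  obtain ⟨C, hC⟩ := h ε hε
  set r := m * s ^ ε with hr
  have hr0 : 0 < r := mul_pos (by linarith) (Real.rpow_pos_of_pos (by linarith) _)
  have h1 : 1 < a / r := by rw [one_lt_div hr0]; exact hlt
  obtain ⟨n, hn⟩ := pow_unbounded_of_one_lt (2 * |C|) h1
  have h2 := hC n
  have h3 : (s ^ n) ^ ε = (s ^ ε) ^ n := by
    rw [← Real.rpow_natCast, ← Real.rpow_mul (by linarith), mul_comm, Real.rpow_mul (by linarith),
      Real.rpow_natCast]
  rw [h3] at h2
  have hsn : 0 < (s ^ ε) ^ n := pow_pos (Real.rpow_pos_of_pos (by linarith) _) n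
  have h4 : 1 + b ^ n ≤ 2 * m ^ n := by
    have h5 : (1 : ℝ) ≤ m ^ n := one_le_pow₀ hm1
    have h6 : b ^ n ≤ m ^ n := pow_le_pow_left₀ hb hbm n
    linarith
  have h5 : C * (s ^ ε) ^ n * (1 + b ^ n) ≤ |C| * (s ^ ε) ^ n * (2 * m ^ n) := by
    have h6 : C * (s ^ ε) ^ n ≤ |C| * (s ^ ε) ^ n := mul_le_mul_of_nonneg_right (le_abs_self C) hsn.le
    have h7 : 0 ≤ 1 + b ^ n := by have := pow_nonneg hb n; linarith
    calc C * (s ^ ε) ^ n * (1 + b ^ n) ≤ |C| * (s ^ ε) ^ n * (1 + b ^ n) :=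
          mul_le_mul_of_nonneg_right h6 h7
      _ ≤ _ := mul_le_mul_of_nonneg_left h4 (mul_nonneg (abs_nonneg _) hsn.le)
  have h6 : |C| * (s ^ ε) ^ n * (2 * m ^ n) = 2 * |C| * r ^ n := by
    rw [hr, mul_pow]
    ring
  rw [div_pow, lt_div_iff₀ (pow_pos hr0 n)] at hn
  linarith

/-- A class `X` of groups which contains, with `H`, the powers `H^n` and the wreath products
`H ≀ C_2` and `H ≀ C_q`. -/
structure PowClosed (q : ℕ) (X : ∀ (H : Type) [Group H], Prop) : Prop where
  pow : ∀ (n : ℕ) (H : Type) [Group H], X H → X (Fin n → H)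
  two : ∀ (H : Type) [Group H], X H → X (WrC 2 H)
  odd : ∀ (H : Type) [Group H], X H → X (WrC q H)

/-- `-χ̃₂(S, G) = k(G) - χ₂(S, G)` and `z_p(G)` have the same size up to factors `|G|^o(1)`, for the
finite groups `G` in `X`. -/
def Coarse (p : ℕ) (X : ∀ (H : Type) [Group H], Prop) : Prop :=
  ∀ ε : ℝ, 0 < ε → ∃ C : ℝ, ∀ (G : Type) [Group G] [Finite G], X G →
    |((Nat.card (ConjClasses G) : ℝ) - (chi2 p G : ℝ))| ≤
      C * (Nat.card G : ℝ) ^ ε * (1 + (numDefectZero p G : ℝ)) ∧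
    (numDefectZero p G : ℝ) ≤ C * (Nat.card G : ℝ) ^ ε *
      (1 + |((Nat.card (ConjClasses G) : ℝ) - (chi2 p G : ℝ))|)

/-- The difference of the two sides is `|G|^o(1)`, for the finite groups `G` in `X`. -/
def CoarseDiff (p : ℕ) (X : ∀ (H : Type) [Group H], Prop) : Prop :=
  ∀ ε : ℝ, 0 < ε → ∃ C : ℝ, ∀ (G : Type) [Group G] [Finite G], X G →
    |(krDiff p G : ℝ)| ≤ C * (Nat.card G : ℝ) ^ ε

theorem sum_real [Finite G] :
    ((Nat.card (ConjClasses G) : ℝ) - (chi2 p G : ℝ)) = (altK p G : ℝ) := by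
  have h := altSum_classes (p := p) (G := G)
  have h2 := congrArg (Rat.cast : ℚ → ℝ) h
  push_cast at h2
  unfold altK
  rw [← h2]

variable {X : ∀ (H : Type) [Group H], Prop}

theorem coarse_alt : Coarse p X ↔ ∀ ε : ℝ, 0 < ε → ∃ C : ℝ, ∀ (G : Type) [Group G] [Finite G],
    X G → |(altK p G : ℝ)| ≤ C * (Nat.card G : ℝ) ^ ε * (1 + (numDefectZero p G : ℝ)) ∧
    (numDefectZero p G : ℝ) ≤ C * (Nat.card G : ℝ) ^ ε * (1 + |(altK p G : ℝ)|) := by
  unfold Coarse
  refine forall₂_congr fun ε _ => exists_congr fun C => forall₃_congr fun G _ _ => ?_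
  rw [sum_real]

theorem coarse_of_diff (h : CoarseDiff p X) : Coarse p X := by
  rw [coarse_alt]
  intro ε hε
  obtain ⟨C, hC⟩ := h ε hε
  refine ⟨|C| + 1, fun G _ _ hG => ?_⟩
  have h1 := hC G hG
  rw [krDiff_int] at h1
  push_cast at h1
  set f : ℝ := (altK p G : ℝ)
  set z : ℝ := (numDefectZero p G : ℝ)
  have hz : 0 ≤ z := Nat.cast_nonneg _
  set s : ℝ := (Nat.card G : ℝ) ^ ε
  have hs : 1 ≤ s := Real.one_le_rpow (by exact_mod_cast Nat.card_pos) hε.le
  have h2 : C * s ≤ |C| * s := mul_le_mul_of_nonneg_right (le_abs_self C) (by linarith)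
  have h3 := abs_le.mp h1
  have hC0 : 0 ≤ |C| := abs_nonneg C
  have h4 : z ≤ |f| + |C| * s := by
    have := le_abs_self f
    linarith [h3.1]
  have h5 : |f| ≤ z + |C| * s := by
    rw [abs_le]
    constructor <;> linarith [h3.1, h3.2]
  have h6 : 0 ≤ (|C| * s) * z := by positivity
  have h7 : 0 ≤ (|C| * s) * |f| := by positivity
  have h8 : 0 ≤ (s - 1) * z := mul_nonneg (by linarith) hz
  have h9 : 0 ≤ (s - 1) * |f| := mul_nonneg (by linarith) (abs_nonneg f)
  constructor <;> nlinarith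

/-- first consequence -/
theorem coarse_le {q : ℕ} (hX : PowClosed q X) (h : Coarse p X) (G : Type) [Group G] [Finite G]
    (hG : X G) :
    |altK p G| ≤ max 1 (numDefectZero p G : ℤ) ∧ (numDefectZero p G : ℤ) ≤ max 1 |altK p G| := by
  rw [coarse_alt] at h
  have hs : (1 : ℝ) ≤ Nat.card G := by exact_mod_cast Nat.card_pos
  constructor
  · have h1 := power_trick (a := |(altK p G : ℝ)|) (b := (numDefectZero p G : ℝ))
      (s := (Nat.card G : ℝ)) (abs_nonneg _) (Nat.cast_nonneg _) hs (by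
        intro ε hε
        obtain ⟨C, hC⟩ := h ε hε
        refine ⟨C, fun n => ?_⟩
        have h2 := (hC (Fin n → G) (hX.pow n G hG)).1
        rw [altK_pi, numDefectZero_pi, Nat.card_fun, Nat.card_fin, Fintype.card_fin] at h2
        push_cast at h2
        rwa [abs_pow] at h2)
    exact_mod_cast h1
  · have h1 := power_trick (a := (numDefectZero p G : ℝ)) (b := |(altK p G : ℝ)|)
      (s := (Nat.card G : ℝ)) (Nat.cast_nonneg _) (abs_nonneg _) hs (by
        intro ε hε
        obtain ⟨C, hC⟩ := h ε hε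
        refine ⟨C, fun n => ?_⟩
        have h2 := (hC (Fin n → G) (hX.pow n G hG)).2
        rw [altK_pi, numDefectZero_pi, Nat.card_fun, Nat.card_fin, Fintype.card_fin] at h2
        push_cast at h2
        rwa [abs_pow] at h2)
    exact_mod_cast h1

/-- second consequence: the absolute values agree -/
theorem coarse_abs {q : ℕ} [hq : Fact q.Prime] (hq2 : q ≠ 2) (hqp : q ≠ p)
    (hX : PowClosed q X) (h : Coarse p X) (G : Type) [Group G] [Finite G] (hG : X G) :
    |altK p G| = (numDefectZero p G : ℤ) := by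
  obtain ⟨h1, h2⟩ := coarse_le hX h G hG
  have hq3 : 3 ≤ q := by have := hq.out.two_le; omega
  have hqodd : Odd q := hq.out.odd_of_ne_two hq2
  obtain ⟨h3, h4⟩ := coarse_le hX h (WrC q G) (hX.odd G hG)
  have h5 := f_wr (G := G) hqp
  have h6 := z_wr (G := G) hqp
  set f := altK p G with hf
  set z := (numDefectZero p G : ℤ) with hz
  set f' := altK p (WrC q G) with hf'
  set z' := (numDefectZero p (WrC q G) : ℤ) with hz'
  have hz0 : 0 ≤ z := Nat.cast_nonneg _
  have hz0' : 0 ≤ z' := Nat.cast_nonneg _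
  have hq0 : (q : ℤ) ≠ 0 := by exact_mod_cast hq.out.ne_zero
  have hq3' : (3 : ℤ) ≤ q := by exact_mod_cast hq3
  by_contra hne
  have hf1 : |f| ≤ 1 := by
    by_contra hc
    push Not at hc
    rcases le_max_iff.mp h1 with h7 | h7
    · omega
    · rcases le_max_iff.mp h2 with h8 | h8
      · omega
      · exact hne (le_antisymm h7 h8)
  have hz1 : z ≤ 1 := by
    rcases le_max_iff.mp h2 with h8 | h8
    · exact h8
    · exact h8.trans hf1
  have hzc : z = 0 ∨ z = 1 := by omega
  have hfc : f = 0 ∨ f = 1 ∨ f = -1 := by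
    rw [abs_le] at hf1
    omega
  rcases hzc with hz2 | hz2
  · have hz3 : z' = 0 := by
      rw [hz2, zero_pow hq.out.ne_zero, mul_zero, add_zero] at h6
      exact (mul_eq_zero.mp h6).resolve_left hq0
    rcases hfc with hf2 | hf2 | hf2
    · apply hne
      rw [hf2, hz2, abs_zero]
    · rw [hf2, one_pow, mul_one] at h5
      have hf3 : f' = q := mul_left_cancel₀ hq0 (by rw [h5]; ring)
      rw [hf3, hz3, abs_of_pos (by omega)] at h3
      rcases le_max_iff.mp h3 with h7 | h7 <;> omega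
    · rw [hf2, hqodd.neg_one_pow] at h5
      have hf3 : f' = -q := mul_left_cancel₀ hq0 (by rw [h5]; ring)
      rw [hf3, hz3, abs_neg, abs_of_pos (by omega)] at h3
      rcases le_max_iff.mp h3 with h7 | h7 <;> omega
  · have hz3 : z' = q := by
      rw [hz2, one_pow, mul_one] at h6
      exact mul_left_cancel₀ hq0 (by rw [h6]; ring)
    rcases hfc with hf2 | hf2 | hf2
    · rw [hf2, zero_pow hq.out.ne_zero, mul_zero, add_zero] at h5
      have hf3 : f' = 0 := (mul_eq_zero.mp h5).resolve_left hq0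
      rw [hf3, hz3, abs_zero] at h4
      rcases le_max_iff.mp h4 with h7 | h7 <;> omega
    · apply hne
      rw [hf2, hz2, abs_one]
    · apply hne
      rw [hf2, hz2, abs_neg, abs_one]

/-- **coarse agreement implies equality** -/
theorem krc_of_coarse {q : ℕ} [hq : Fact q.Prime] (hq2 : q ≠ 2) (hqp : q ≠ p)
    (hX : PowClosed q X) (h : Coarse p X) (G : Type) [Group G] [Finite G] (hG : X G) :
    KRC p G := by
  rw [krc_altK]
  have h1 := coarse_abs hq2 hqp hX h G hG
  have : Fact (Nat.Prime 2) := ⟨Nat.prime_two⟩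
  have h2 := coarse_abs hq2 hqp hX h (WrC 2 G) (hX.two G hG)
  have h5 := rec_f (G := G) (q := 2) (p := p)
  have h6 := rec_z (G := G) (q := 2) (p := p)
  set f := altK p G with hf
  set z := (numDefectZero p G : ℤ) with hz
  set f' := altK p (WrC 2 G) with hf'
  set z' := (numDefectZero p (WrC 2 G) : ℤ) with hz'
  have hz0 : 0 ≤ z := Nat.cast_nonneg _
  rcases abs_eq hz0 |>.mp h1 with h7 | h7
  · exact h7
  · rw [h7] at h5
    by_cases hz1 : z = 0
    · rw [h7, hz1, neg_zero]
    · exfalso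
      have hz2 : 0 < z := by omega
      push_cast at h5 h6
      unfold cf at h5 h6
      rcases abs_eq (show (0 : ℤ) ≤ z' from Nat.cast_nonneg _) |>.mp h2 with h8 | h8
      · by_cases hp2 : 2 = p
        · rw [if_pos hp2] at h5 h6
          rw [h8] at h5
          nlinarith
        · rw [if_neg hp2] at h5 h6
          rw [h8] at h5
          push_cast at h5 h6
          nlinarith
      · by_cases hp2 : 2 = p
        · rw [if_pos hp2] at h5 h6
          rw [h8] at h5
          nlinarith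
        · rw [if_neg hp2] at h5 h6
          rw [h8] at h5
          push_cast at h5 h6
          nlinarith

theorem diff_of_krc (h : ∀ (G : Type) [Group G] [Finite G], X G → KRC p G) : CoarseDiff p X := by
  intro ε hε
  refine ⟨1, fun G _ _ hG => ?_⟩
  have h3 : (1 : ℝ) ≤ (Nat.card G : ℝ) ^ ε :=
    Real.one_le_rpow (by exact_mod_cast Nat.card_pos) hε.le
  rw [krDiff_int, (krc_altK G).mp (h G hG), sub_self]
  simp
  linarith

end Pool.Agent.K1H2.KR
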