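import Pool.Agent.K1H2.KR.Kap
import Pool.Agent.R674.Ce.Fin

/-!
# The complements of the base group in the wreath product with a group of order `p`
-/

set_option autoImplicit false
set_option linter.unusedSectionVars false

open scoped BigOperators Classical

noncomputable section

namespace Pool.Agent.K1H2.KR

open Pool.Agent.Y63.KR

variable {p : ℕ} [hp : Fact p.Prime] {G : Type} [Group G]

/-- the complements of the base group -/
def IsCpl (R : Subgroup (WrC p G)) : Prop :=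
  IsPGroup p R ∧ WrC.bs p G ⊔ R = ⊤ ∧ WrC.bs p G ⊓ R = ⊥

theorem s_pow (Y : WrC p G) (k : ℕ) : (Y ^ k).s = (k : ZMod p) * Y.s := by
  induction k with
  | zero => simp
  | succ k ih =>
    rw [pow_succ, WrC.mul_s, ih]
    push_cast
    ring

theorem v_pow (b : ZMod p → G) (k : ℕ) : ((⟨b, 1⟩ : WrC p G) ^ k).v 0 = pp 1 b k := by
  induction k with
  | zero => simp [pp]
  | succ k ih =>
    rw [pow_succ, WrC.mul_v, ih, s_pow]
    change pp 1 b k * b (0 + (k : ZMod p) * 1) = pp 1 b k * b ((k : ZMod p) * 1)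
    rw [zero_add]

/-- the conjugate with trivial components -/
theorem conj_cje (b : ZMod p → G) (h : pp 1 b p = 1) :
    inc (cje 1 b) * ⟨b, 1⟩ * (inc (cje 1 b))⁻¹ = (⟨fun _ => 1, 1⟩ : WrC p G) := by
  ext i
  · change cje 1 b i * b (i + 0) * (cje 1 b (i + (0 + 1) - 0))⁻¹ = 1
    rw [add_zero, zero_add, sub_zero, cje_spec one_ne_zero, h]
    unfold nf
    split_ifs <;> rfl
  · change 0 + 1 + -0 = (1 : ZMod p)
    simp

theorem pow_p (b : ZMod p → G) (h : pp 1 b p = 1) : (⟨b, 1⟩ : WrC p G) ^ p = 1 := by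
  have h1 : ∀ k : ℕ, (⟨fun _ => 1, 1⟩ : WrC p G) ^ k = ⟨fun _ => 1, (k : ZMod p)⟩ := by
    intro k
    induction k with
    | zero => rw [pow_zero, WrC.one_def]; simp
    | succ k ih =>
      rw [pow_succ, ih, WrC.mul_def]
      simp
  have h2 := h1 p
  rw [← conj_cje b h, conj_pow, ZMod.natCast_self, ← WrC.one_def] at h2
  have h3 : (⟨b, 1⟩ : WrC p G) ^ p = (inc (cje 1 b))⁻¹ *
      (inc (cje 1 b) * (⟨b, 1⟩ : WrC p G) ^ p * (inc (cje 1 b))⁻¹) * inc (cje 1 b) := by group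
  rw [h3, h2]
  group

/-- the complement given by a tuple -/
theorem cpl_of (b : ZMod p → G) (h : pp 1 b p = 1) :
    IsCpl (Subgroup.zpowers (⟨b, 1⟩ : WrC p G)) := by
  have hY := pow_p b h
  refine ⟨?_, ?_, ?_⟩
  · rintro ⟨x, k, rfl⟩
    refine ⟨1, Subtype.ext ?_⟩
    change ((⟨b, 1⟩ : WrC p G) ^ k) ^ p ^ 1 = 1
    rw [pow_one, ← zpow_natCast, ← zpow_mul, mul_comm, zpow_mul, zpow_natCast, hY, one_zpow]
  · rw [eq_top_iff]
    intro x _
    have h1 : x = (x * ((⟨b, 1⟩ : WrC p G) ^ x.s.val)⁻¹) * (⟨b, 1⟩ : WrC p G) ^ x.s.val := by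
      group
    rw [h1]
    refine Subgroup.mul_mem_sup ?_ (Subgroup.pow_mem _ (Subgroup.mem_zpowers _) _)
    rw [WrC.mem_bs, WrC.mul_s, WrC.inv_s, s_pow, ZMod.natCast_zmod_val]
    change x.s + -(x.s * 1) = 0
    rw [mul_one, add_neg_cancel]
  · rw [eq_bot_iff]
    rintro x ⟨h1, k, rfl⟩
    have h2 : ∃ m : ℕ, (⟨b, 1⟩ : WrC p G) ^ k = (⟨b, 1⟩ : WrC p G) ^ m := by
      have hfin : IsOfFinOrder (⟨b, 1⟩ : WrC p G) := isOfFinOrder_iff_pow_eq_one.mpr
        ⟨p, hp.out.pos, hY⟩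
      obtain ⟨m, hm⟩ := hfin.mem_powers_iff_mem_zpowers.mpr ⟨k, rfl⟩
      exact ⟨m, hm.symm⟩
    obtain ⟨m, hm⟩ := h2
    rw [Subgroup.mem_bot]
    change (⟨b, 1⟩ : WrC p G) ^ k = 1
    have h1 : (⟨b, 1⟩ : WrC p G) ^ k ∈ WrC.bs p G := h1
    rw [hm, WrC.mem_bs, s_pow] at h1
    change (m : ZMod p) * 1 = 0 at h1
    rw [mul_one, ZMod.natCast_eq_zero_iff] at h1
    obtain ⟨c, rfl⟩ := h1
    rw [hm, pow_mul, hY, one_pow]

/-- the complements are given by tuples -/
theorem of_cpl {R : Subgroup (WrC p G)} (h : IsCpl R) :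
    ∃ b : ZMod p → G, pp 1 b p = 1 ∧ R = Subgroup.zpowers (⟨b, 1⟩ : WrC p G) := by
  obtain ⟨h1, h2, h3⟩ := h
  have h4 : (⟨fun _ => 1, 1⟩ : WrC p G) ∈ WrC.bs p G ⊔ R := by rw [h2]; trivial
  obtain ⟨n, hn, r, hr, hnr⟩ := Subgroup.mem_sup_of_normal_left.mp h4
  have hs : r.s = 1 := by
    have := congrArg WrC.s hnr
    rw [WrC.mul_s, WrC.mem_bs.mp hn, zero_add] at this
    exact this
  obtain ⟨b, s⟩ := r
  change s = 1 at hs
  subst hs
  have hbot : ∀ x : WrC p G, x.s = 0 → x ∈ R → x = 1 := by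
    intro x hx hxR
    have : x ∈ WrC.bs p G ⊓ R := ⟨WrC.mem_bs.mpr hx, hxR⟩
    rwa [h3, Subgroup.mem_bot] at this
  refine ⟨b, ?_, ?_⟩
  · have h5 : (⟨b, 1⟩ : WrC p G) ^ p = 1 := by
      apply hbot
      · rw [s_pow]
        simp
      · exact Subgroup.pow_mem _ hr _
    rw [← v_pow, h5]
    rfl
  · apply le_antisymm
    · intro x hx
      have h6 : x * ((⟨b, 1⟩ : WrC p G) ^ x.s.val)⁻¹ = 1 := by
        apply hbot
        · rw [WrC.mul_s, WrC.inv_s, s_pow, ZMod.natCast_zmod_val]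
          change x.s + -(x.s * 1) = 0
          rw [mul_one, add_neg_cancel]
        · exact Subgroup.mul_mem _ hx (Subgroup.inv_mem _ (Subgroup.pow_mem _ hr _))
      rw [mul_inv_eq_one] at h6
      rw [h6]
      exact Subgroup.pow_mem _ (Subgroup.mem_zpowers _) _
    · rw [Subgroup.zpowers_le]
      exact hr

/-- the centraliser of a complement in the base group -/
def cenHom (b : ZMod p → G) : G →* WrC p G where
  toFun g := (inc (cje 1 b))⁻¹ * inc (fun _ => g) * inc (cje 1 b)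
  map_one' := by
    have : inc (q := p) (fun _ => (1 : G)) = 1 := rfl
    rw [this]
    group
  map_mul' g g' := by
    have : inc (q := p) (fun _ => g * g') = inc (fun _ => g) * inc (fun _ => g') := by
      rw [← map_mul]
      rfl
    rw [this]
    group

theorem cenHom_inj (b : ZMod p → G) : Function.Injective (cenHom b) := by
  intro g g' h
  change (inc (cje 1 b))⁻¹ * inc (fun _ => g) * inc (cje 1 b) =
    (inc (cje 1 b))⁻¹ * inc (fun _ => g') * inc (cje 1 b) at h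
  rw [mul_left_inj, mul_right_inj] at h
  exact congrFun (inc_inj h) 0

theorem cenHom_range (b : ZMod p → G) (h : pp 1 b p = 1) : (cenHom b).range =
    WrC.bs p G ⊓ Subgroup.centralizer (Subgroup.zpowers (⟨b, 1⟩ : WrC p G) : Set (WrC p G)) := by
  have hc := conj_cje b h
  set D : WrC p G := inc (cje 1 b) with hD
  set Y : WrC p G := ⟨b, 1⟩ with hY
  set τ : WrC p G := ⟨fun _ => 1, 1⟩ with hτ
  have hYc : Y = D⁻¹ * τ * D := by rw [← hc]; group
  ext X
  have hcen : X ∈ Subgroup.centralizer (Subgroup.zpowers Y : Set (WrC p G)) ↔ Y * X = X * Y := by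
    rw [Subgroup.mem_centralizer_iff]
    constructor
    · intro h1
      exact h1 Y (Subgroup.mem_zpowers Y)
    · rintro h1 _ ⟨k, rfl⟩
      exact (show Commute Y X from h1).zpow_left k
  rw [MonoidHom.mem_range, Subgroup.mem_inf, hcen]
  constructor
  · rintro ⟨g, rfl⟩
    change D⁻¹ * inc (fun _ => g) * D ∈ WrC.bs p G ∧ Y * (D⁻¹ * inc (fun _ => g) * D) =
      (D⁻¹ * inc (fun _ => g) * D) * Y
    constructor
    · rw [WrC.mem_bs]
      change -0 + 0 + 0 = (0 : ZMod p)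
      simp
    · have h1 : τ * inc (fun _ => g) = inc (fun _ => g) * τ := by
        ext i
        · change (1 : G) * g = g * 1
          rw [one_mul, mul_one]
        · change (1 : ZMod p) + 0 = 0 + 1
          rw [add_zero, zero_add]
      rw [hYc]
      have e1 : D⁻¹ * τ * D * (D⁻¹ * inc (fun _ => g) * D) = D⁻¹ * (τ * inc (fun _ => g)) * D := by
        group
      have e2 : D⁻¹ * inc (fun _ => g) * D * (D⁻¹ * τ * D) = D⁻¹ * (inc (fun _ => g) * τ) * D := by
        group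
      rw [e1, e2, h1]
  · rintro ⟨h1, h2⟩
    set X' : WrC p G := D * X * D⁻¹ with hX'
    have h3 : τ * X' = X' * τ := by
      rw [← hc, hX']
      have e1 : D * Y * D⁻¹ * (D * X * D⁻¹) = D * (Y * X) * D⁻¹ := by group
      have e2 : D * X * D⁻¹ * (D * Y * D⁻¹) = D * (X * Y) * D⁻¹ := by group
      rw [e1, e2, h2]
    have hs : X'.s = 0 := by
      have := WrC.mem_bs.mp h1
      change 0 + X.s + -0 = (0 : ZMod p)
      rw [this]
      simp
    have h4 : ∀ i, X'.v i = X'.v 0 := by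
      apply all_eq (one_ne_zero (α := ZMod p))
      intro i _
      have h5 := congrFun (congrArg WrC.v h3) i
      change 1 * X'.v (i + 1) = X'.v i * 1 at h5
      rw [one_mul, mul_one] at h5
      exact h5.symm
    refine ⟨X'.v 0, ?_⟩
    change D⁻¹ * inc (fun _ => X'.v 0) * D = X
    have h6 : inc (fun _ => X'.v 0) = X' := by
      ext i
      · exact (h4 i).symm
      · exact hs.symm
    rw [h6, hX']
    group

/-- the centraliser of a complement in the base group is isomorphic to `G` -/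
theorem cen_equiv {R : Subgroup (WrC p G)} (h : IsCpl R) :
    Nonempty (G ≃* ↥(WrC.bs p G ⊓ Subgroup.centralizer (R : Set (WrC p G)))) := by
  obtain ⟨b, hb, rfl⟩ := of_cpl h
  exact ⟨(MonoidHom.ofInjective (cenHom_inj b)).trans
    (MulEquiv.subgroupCongr (cenHom_range b hb))⟩

/-- the number of complements -/
theorem card_cpl [Finite G] :
    (Nat.card {R : Subgroup (WrC p G) // IsCpl R} : ℤ) = (Nat.card G : ℤ) ^ (p - 1) := by
  have := Fintype.ofFinite G
  have h1 := sum_pp (G := G) (q := p) one_ne_zero (fun c => if c = 1 then (1 : ℤ) else 0)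
  rw [Finset.sum_ite_eq' Finset.univ (1 : G) (fun _ => (1 : ℤ)), if_pos (Finset.mem_univ _),
    mul_one, Finset.sum_boole] at h1
  rw [← h1]
  norm_cast
  rw [← Fintype.card_subtype, ← Nat.card_eq_fintype_card]
  symm
  refine Nat.card_congr (Equiv.ofBijective
    (fun b : {b : ZMod p → G // pp 1 b p = 1} =>
      (⟨Subgroup.zpowers (⟨b.1, 1⟩ : WrC p G), cpl_of b.1 b.2⟩ :
        {R : Subgroup (WrC p G) // IsCpl R})) ⟨?_, ?_⟩)
  · rintro ⟨b, hb⟩ ⟨b', hb'⟩ h
    have h2 : Subgroup.zpowers (⟨b, 1⟩ : WrC p G) = Subgroup.zpowers (⟨b', 1⟩ : WrC p G) :=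
      congrArg Subtype.val h
    have h3 : (⟨b, 1⟩ : WrC p G) * (⟨b', 1⟩ : WrC p G)⁻¹ ∈
        WrC.bs p G ⊓ Subgroup.zpowers (⟨b', 1⟩ : WrC p G) := by
      refine ⟨?_, ?_⟩
      · change _ ∈ WrC.bs p G
        rw [WrC.mem_bs, WrC.mul_s, WrC.inv_s]
        exact add_neg_cancel _
      · refine Subgroup.mul_mem _ ?_ (Subgroup.inv_mem _ (Subgroup.mem_zpowers _))
        rw [← h2]
        exact Subgroup.mem_zpowers _
    rw [(cpl_of b' hb').2.2, Subgroup.mem_bot, mul_inv_eq_one] at h3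
    exact Subtype.ext (congrArg WrC.v h3)
  · rintro ⟨R, hR⟩
    obtain ⟨b, hb, h2⟩ := of_cpl hR
    exact ⟨⟨b, hb⟩, Subtype.ext h2.symm⟩

/-- the sum over the complements -/
theorem sum_cpl [Finite G] (Φ : ∀ (H : Type) [Group H], ℤ)
    (hΦ : ∀ (H K : Type) [Group H] [Finite H] [Group K] [Finite K], (H ≃* K) → Φ H = Φ K) :
    (∑ᶠ R : Subgroup (WrC p G), if IsPGroup p R ∧ WrC.bs p G ⊔ R = ⊤ ∧ WrC.bs p G ⊓ R = ⊥ then
      Φ ↥(WrC.bs p G ⊓ Subgroup.centralizer (R : Set (WrC p G))) else 0) =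
      (Nat.card G : ℤ) ^ (p - 1) * Φ G := by
  have : Fintype (Subgroup (WrC p G)) := Fintype.ofFinite _
  rw [← card_cpl, finsum_eq_sum_of_fintype, ← Finset.sum_filter]
  have h1 : ∀ R ∈ Finset.univ.filter (fun R : Subgroup (WrC p G) =>
      IsPGroup p R ∧ WrC.bs p G ⊔ R = ⊤ ∧ WrC.bs p G ⊓ R = ⊥),
      Φ ↥(WrC.bs p G ⊓ Subgroup.centralizer (R : Set (WrC p G))) = Φ G := by
    intro R hR
    obtain ⟨e⟩ := cen_equiv (Finset.mem_filter.mp hR).2
    exact (hΦ _ _ e).symm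
  have h2 : Finset.univ.filter (fun R : Subgroup (WrC p G) =>
      IsPGroup p R ∧ WrC.bs p G ⊔ R = ⊤ ∧ WrC.bs p G ⊓ R = ⊥) =
      Finset.univ.filter (fun R : Subgroup (WrC p G) => IsCpl R) := by
    ext R
    simp only [Finset.mem_filter, Finset.mem_univ, true_and]
    rfl
  rw [Finset.sum_congr rfl h1, Finset.sum_const, nsmul_eq_mul, Nat.card_eq_fintype_card,
    Fintype.card_subtype, h2]

end Pool.Agent.K1H2.KR
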