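import Pool.Agent.K1H2.KR.Rec
import Pool.Agent.Y63.NV.Krc

/-!
# Consequences: groups without normal `p`-subgroups, weights, surface groups, parity
-/

set_option autoImplicit false
set_option linter.unusedSectionVars false

open scoped BigOperators Classical

noncomputable section

namespace Pool.Agent.K1H2.KR

open Pool.Agent.Y63.KR
open Pool.Agent.Y63.AWC (numDefectZero numDefectZero_congr numRegularClasses numWeights)
open Pool.Agent.Q90.WR (altK krc_altK)
open Pool.Agent.R674.Ce (krDiff)
open Pool.Agent.Y63.NV (Reduced Closed krc_strong altSum_weights pgroup_top)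

variable {p : ℕ} [hp : Fact p.Prime]

/-! ### Reduced groups -/

theorem reduced_wr {q : ℕ} [hq : Fact q.Prime] (hpq : q ≠ p) {G : Type} [Group G] [Finite G]
    (h : Reduced p G) : Reduced p (WrC q G) := by
  constructor
  · intro N hN hi
    have h1 : ∀ (i : ZMod q) (g : G), Pi.mulSingle i g ∈ N.comap (inc (q := q) (G := G)) := by
      intro i g
      set f : G →* WrC q G := inc.comp (MonoidHom.mulSingle (fun _ : ZMod q => G) i) with hf
      have h2 : (N.comap f).index ∣ p := by
        rw [Subgroup.index_comap, ← hi]
        exact Subgroup.relIndex_dvd_index_of_normal _ _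
      rcases (Nat.dvd_prime hp.out).mp h2 with h3 | h3
      · rw [Subgroup.index_eq_one] at h3
        have h4 : g ∈ N.comap f := by rw [h3]; trivial
        exact h4
      · exact absurd h3 (h.perfect (N.comap f) inferInstance)
    have h2 : WrC.bs q G ≤ N := by
      intro x hx
      have h3 : x.v ∈ N.comap (inc (q := q) (G := G)) :=
        Subgroup.pi_mem_of_mulSingle_mem x.v fun i => h1 i _
      have h4 : inc x.v = x := by
        ext i
        · rfl
        · exact (WrC.mem_bs.mp hx).symm
      have h5 : inc x.v ∈ N := h3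
      rwa [h4] at h5
    have h3 := Subgroup.index_dvd_of_le h2
    rw [hi, WrC.index_bs] at h3
    exact hpq ((Nat.prime_dvd_prime_iff_eq hp.out hq.out).mp h3).symm
  · intro M hM hMp
    have h1 : ∀ i, pr inc M i = ⊥ := by
      intro i
      refine h.radical _ ?_ (isPGroup_pr inc_inj hMp i)
      rw [← Subgroup.normalizer_eq_top_iff, eq_top_iff]
      intro g _
      rw [← conjSub_eq_iff, ← pr_conj (fun _ => g) M i]
      congr 1
      rw [conjSub_eq_iff, Subgroup.normalizer_eq_top_iff.mpr hM]
      trivial
    have h2 : M ≤ prd inc (fun _ => (⊥ : Subgroup G)) :=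
      (le_prd inc_inj (inc_range hpq hMp)).mpr fun i => (h1 i).le
    rw [prd_bot] at h2
    exact le_bot_iff.mp h2

theorem reduced_it {q : ℕ} [hq : Fact q.Prime] (hpq : q ≠ p) : ∀ (j : ℕ) (G : Type) [Group G]
    [Finite G], Reduced p G → Reduced p (It q j G) := by
  intro j
  induction j with
  | zero => exact fun G _ _ h => h
  | succ j ih => exact fun G _ _ h => ih (WrC q G) (reduced_wr hpq h)

theorem closed_all : Closed p (fun _ _ => True) := by
  constructor
  · intros; trivial
  · intros; trivial
  · intros; trivial

/-- **groups without normal `p`-subgroups and without normal subgroups of index `p`** -/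
theorem krc_reduced (q : ℕ) [Fact q.Prime] (hpq : q ≠ p) :
    (∀ (G : Type) [Group G] [Finite G], KRC p G) ↔
    ∀ (G : Type) [Group G] [Finite G], Reduced p G → ∃ c : ℤ, krDiff p G = q * c := by
  constructor
  · intro h G _ _ _
    exact (krc_it q p G).mp (h G) 0
  · intro h G _ _
    refine (krc_strong p (fun _ _ => True) closed_all).1 ?_ G ⊤ trivial (pgroup_top p G)
    intro H _ _ _ hH
    rw [krc_it q p H]
    exact fun j => h (It q j H) (reduced_it hpq j H hH)

/-! ### Weights -/

theorem altK_regular (G : Type) [Group G] [Finite G] :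
    altK p G = alternatingSum p G (fun H => (numRegularClasses p H : ℤ)) := by
  have e1 : (fun H : Subgroup G => (Nat.card (ConjClasses H) : ℤ)) =
      fun H : Subgroup G => (numFixed 1 H : ℤ) := funext fun H => by rw [numFixed_one]
  have e2 : (fun H : Subgroup G => (numFixedRegular p 1 H : ℤ)) =
      fun H : Subgroup G => (numRegularClasses p H : ℤ) := funext fun H => by
    have : numFixedRegular p 1 H = numRegularClasses p H := by
      unfold numFixedRegular numRegularClasses
      refine Nat.card_congr (Equiv.subtypeEquivRight fun C => ?_)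
      refine exists_congr fun x => and_congr_right fun _ => ?_
      rw [pow_one]
      exact ⟨fun h => h.2, fun h => ⟨IsConj.refl x, h⟩⟩
    rw [this]
  unfold altK
  rw [e1, galois 1, e2]

/-- the difference as an alternating sum -/
theorem diff_lw (G : Type) [Group G] [Finite G] : altK p G - numDefectZero p G =
    alternatingSum p G (fun H => (numRegularClasses p H : ℤ) - numWeights p H) := by
  rw [alternatingSum_sub (fun H : Subgroup G => (numRegularClasses p H : ℤ))
    (fun H : Subgroup G => (numWeights p H : ℤ)), altSum_weights, altK_regular]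

/-- the conjecture for all groups implies the weight conjecture for all groups -/
theorem awc_of_krc (h : ∀ (G : Type) [Group G] [Finite G], KRC p G) :
    ∀ (G : Type) [Group G] [Finite G], numRegularClasses p G = numWeights p G := by
  intro G _ _
  refine Pool.Agent.Y63.NV.reduction' p (fun _ _ => True) closed_all ?_ (Nat.card G) G le_rfl
    ⟨⊤, inferInstance, trivial, pgroup_top p G⟩
  intro H _ _ _ hR hsmall
  have h1 := Pool.Agent.Y63.NV.krc_lw.1 (h H)
  rw [alternatingSum_single] at h1
  · have h2 := Pool.Agent.Y63.AWC.numRegularClasses_congr (p := p)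
      (Subgroup.topEquiv (G := H))
    have h3 := Pool.Agent.Y63.AWC.numWeights_congr (p := p) (Subgroup.topEquiv (G := H))
    rw [h2, h3] at h1
    have := sub_eq_zero.1 h1
    exact_mod_cast this
  · intro σ hσ hne
    change (numRegularClasses p (chainStabilizer σ) : ℤ) -
      numWeights p (chainStabilizer σ) = 0
    rw [hsmall (chainStabilizer σ) ⟨⊤, inferInstance, trivial, pgroup_top p _⟩
      (Pool.Agent.Y63.NV.stab_lt hR.radical hσ hne), sub_self]

/-- **the weight conjecture modulo `N`** -/
theorem krc_awc_mod (N : ℕ) (hN : 2 ≤ N) :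
    (∀ (G : Type) [Group G] [Finite G], KRC p G) ↔
    ∀ (G : Type) [Group G] [Finite G], numRegularClasses p G ≡ numWeights p G [MOD N] := by
  constructor
  · intro h G _ _
    rw [awc_of_krc h G]
  · intro h
    rw [krc_mod N hN p]
    intro G _ _
    have h1 : (N : ℤ) ∣ altK p G - numDefectZero p G := by
      rw [diff_lw]
      unfold alternatingSum
      have : Fintype (Quotient (chainSetoid p G)) := Fintype.ofFinite _
      rw [finsum_eq_sum_of_fintype]
      refine Finset.dvd_sum fun c _ => Dvd.dvd.mul_left ?_ _
      exact (Nat.modEq_iff_dvd.mp (h (chainStabilizer c.out.1)).symm)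
    obtain ⟨c, hc⟩ := h1
    exact ⟨c, by rw [krDiff_int, hc]; push_cast; ring⟩

/-! ### Surface groups -/

/-- **one congruence modulo `p`** -/
theorem krc_surface :
    (∀ (G : Type) [Group G] [Finite G], KRC p G) ↔
    ∀ (G : Type) [Group G] [Finite G], ∃ c : ℤ,
      ((Nat.card (ConjClasses G) : ℚ) - chi2 p G) - (numHom p G : ℚ) / (Nat.card G : ℚ) =
        p * c := by
  rw [krc_mod p hp.out.two_le p]
  have hp1 : p - 1 + 1 = p := Nat.sub_add_cancel hp.out.one_lt.le
  have key : ∀ (G : Type) [Group G] [Finite G], ∃ c : ℤ,
      (numHom p G : ℚ) / (Nat.card G : ℚ) - numDefectZero p G = p * c := by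
    intro G _ _
    have h1 := surfaceCount_mod (p := p) (G := G) (N := 0) (n := p - 1)
      (by have := hp.out.one_lt; omega) (by simp)
    rw [hp1, zero_add, pow_one] at h1
    obtain ⟨c, hc⟩ := h1
    refine ⟨c, ?_⟩
    have h2 := card_mul_surfaceCount (G := G) (p - 1)
    rw [hp1] at h2
    have h3 : (numHom p G : ℚ) / (Nat.card G : ℚ) = surfaceCount p G := by
      have h0 : (Nat.card G : ℚ) ≠ 0 := by exact_mod_cast Nat.card_pos.ne'
      rw [div_eq_iff h0, ← h2]
      push_cast
      ring
    rw [h3]
    have h4 := congrArg (Int.cast : ℤ → ℚ) hc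
    push_cast at h4
    exact h4
  constructor
  · intro h G _ _
    obtain ⟨c, hc⟩ := h G
    obtain ⟨d, hd⟩ := key G
    refine ⟨c - d, ?_⟩
    unfold krDiff at hc
    push_cast
    linear_combination hc - hd
  · intro h G _ _
    obtain ⟨c, hc⟩ := h G
    obtain ⟨d, hd⟩ := key G
    refine ⟨c + d, ?_⟩
    unfold krDiff
    push_cast
    linear_combination hc + hd

/-- **parity** -/
theorem krc_parity :
    (∀ (G : Type) [Group G] [Finite G], KRC p G) ↔
    ∀ (G : Type) [Group G] [Finite G],
      Pool.Agent.Q90.WR.realChainClasses p G ≡ Pool.Agent.Q90.WR.numRealDefectZero p G [MOD 2] := by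
  rw [krc_mod 2 le_rfl p]
  have key : ∀ (G : Type) [Group G] [Finite G], (∃ c : ℤ, krDiff p G = (2 : ℕ) * c) ↔
      Pool.Agent.Q90.WR.realChainClasses p G ≡ Pool.Agent.Q90.WR.numRealDefectZero p G [MOD 2] := by
    intro G _ _
    rw [Pool.Agent.Q90.WR.parity_iff, krDiff_int]
    constructor
    · rintro ⟨c, hc⟩
      exact ⟨c, by exact_mod_cast hc⟩
    · rintro ⟨c, hc⟩
      exact ⟨c, by rw [hc]; push_cast; ring⟩
  constructor
  · intro h G _ _
    exact (key G).mp (h G)
  · intro h G _ _
    exact (key G).mpr (h G)

end Pool.Agent.K1H2.KR
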