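import Pool.Agent.K1H2.KR.Dfz
import Pool.Agent.K1H2.KR.Fin

/-!
# The Knörr-Robinson conjecture and the classes of `p`-defect zero of the chain stabilisers
-/

set_option autoImplicit false
set_option linter.unusedSectionVars false

open scoped BigOperators Classical

noncomputable section

namespace Pool.Agent.K1H2.KR

open Pool.Agent.Y63.KR
open Pool.Agent.Y63.AWC (numDefectZero)
open Pool.Agent.Q90.WR (altK)

variable {p : ℕ} [hp : Fact p.Prime] {G : Type} [Group G]

/-- the number of the conjugacy classes of `p`-defect zero, that is of the classes of the elements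
whose centralisers have order prime to `p` -/
def numClassZero (p : ℕ) (H : Type) [Group H] : ℕ :=
  Nat.card {c : ConjClasses H // ∃ x : H, ConjClasses.mk x = c ∧
    ¬ p ∣ Nat.card (Subgroup.centralizer ({x} : Set H))}

theorem dvd_iff_syl [Finite G] (C : Subgroup G) :
    p ∣ Nat.card C ↔ ∃ T ∈ {T : Subgroup G | T ≠ ⊥}, IsSyl p T C := by
  constructor
  · intro h
    obtain ⟨P⟩ : Nonempty (Sylow p C) := inferInstance
    refine ⟨_, ?_, isSyl_of_sylow P⟩
    have h1 := P.ne_bot_of_dvd_card h
    intro h2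
    apply h1
    rw [Subgroup.map_eq_bot_iff_of_injective _ C.subtype_injective] at h2
    exact h2
  · rintro ⟨T, hT, hs⟩
    have h1 : p ∣ Nat.card T := by
      have hnt : Nontrivial T := (Subgroup.nontrivial_iff_ne_bot T).mpr hT
      obtain ⟨n, hn, hc⟩ := (IsPGroup.nontrivial_iff_card hs.2.1).mp hnt
      exact hc ▸ dvd_pow_self p hn.ne'
    exact h1.trans (Subgroup.card_dvd_of_le hs.1)

theorem stableQ_dvd : StableQ (fun C : Subgroup G => ¬ p ∣ Nat.card C) := by
  intro C h x
  have : Nat.card (conjSub x C) = Nat.card C :=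
    Nat.card_congr (Subgroup.equivMapOfInjective _ _ (MulAut.conj x).injective).toEquiv.symm
  rwa [this]

theorem stableQ_true : StableQ (fun _ : Subgroup G => True) := fun _ _ _ => trivial

theorem stableQ_syl [Finite G] {F : Set (Subgroup G)} (hF : ∀ T ∈ F, ∀ x : G, conjSub x T ∈ F) :
    StableQ (fun C : Subgroup G => ∃ T ∈ F, IsSyl p T C) := by
  rintro C ⟨T, hT, h⟩ x
  refine ⟨conjSub x T, hF T hT x, conjSub_le h.1, h.2.1.map _, ?_⟩
  intro T' a1 a2 a3
  have b1 := conjSub_le (g := x⁻¹) a1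
  have b2 := conjSub_le (g := x⁻¹) a2
  rw [conjSub_inv_conjSub] at b1 b2
  have b3 := h.2.2 _ b1 b2 (a3.map _)
  have b4 := conjSub_le (g := x) b3
  rwa [conjSub_conjSub_inv] at b4

theorem numTup_split {ι : Type} [Finite G] [Finite ι] {S : Set (ι → G)} (hS : Stable S)
    (H : Subgroup G) :
    numTup S (fun _ => True) H = numTup S (fun C => ¬ p ∣ Nat.card C) H +
      numTup S (fun C => ∃ T ∈ {T : Subgroup G | T ≠ ⊥}, IsSyl p T C) H := by
  have : Fintype (ι → G) := Fintype.ofFinite _
  have h1 := card_mul_numTup hS (stableQ_true (G := G)) H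
  have h2 := card_mul_numTup hS (stableQ_dvd (p := p) (G := G)) H
  have h3 := card_mul_numTup hS (stableQ_syl (p := p) (G := G) (F := {T : Subgroup G | T ≠ ⊥})
    (fun T hT x => conjSub_ne_bot hT)) H
  apply Nat.eq_of_mul_eq_mul_left (Nat.card_pos (α := H))
  rw [mul_add, h1, h2, h3, ← Finset.sum_add_distrib]
  refine Finset.sum_congr rfl fun g _ => ?_
  by_cases hg : g ∈ S ∧ ∀ i, g i ∈ H
  · by_cases hd : p ∣ Nat.card (cen H g)
    · rw [if_pos ⟨hg.1, hg.2, trivial⟩, if_neg (fun h => h.2.2 hd),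
        if_pos ⟨hg.1, hg.2, (dvd_iff_syl _).mp hd⟩, zero_add]
    · rw [if_pos ⟨hg.1, hg.2, trivial⟩, if_pos ⟨hg.1, hg.2, hd⟩,
        if_neg (fun h => hd ((dvd_iff_syl _).mpr h.2.2)), add_zero]
  · rw [if_neg (fun h => hg ⟨h.1, h.2.1⟩), if_neg (fun h => hg ⟨h.1, h.2.1⟩),
      if_neg (fun h => hg ⟨h.1, h.2.1⟩)]

/-- only the tuples whose centraliser has order prime to `p` contribute -/
theorem alt_split {ι : Type} [Finite G] [Finite ι] {S : Set (ι → G)} (hS : Stable S) :
    alternatingSum p G (fun H => (numTup S (fun _ => True) H : ℤ)) =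
      alternatingSum p G (fun H => (numTup S (fun C => ¬ p ∣ Nat.card C) H : ℤ)) := by
  have h1 := alt_zero (p := p) hS {T : Subgroup G | T ≠ ⊥} (fun T hT x => conjSub_ne_bot hT)
    (by simp)
  have h2 := alternatingSum_sub (p := p) (G := G)
    (fun H => (numTup S (fun _ => True) H : ℤ))
    (fun H => (numTup S (fun C => ∃ T ∈ {T : Subgroup G | T ≠ ⊥}, IsSyl p T C) H : ℤ))
  rw [h1, sub_zero] at h2
  rw [← h2]
  congr 1
  funext H
  rw [numTup_split (p := p) hS H]
  push_cast
  ring

/-! ### Single elements -/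

/-- one element -/
theorem numTup_one [Finite G] (H : Subgroup G) (Q : Subgroup G → Prop) (hQ : StableQ Q)
    (R : H → Prop) (hR : ∀ x : H, R x ↔ Q (cen H (fun _ : Unit => (x : G)))) :
    numTup (ι := Unit) Set.univ Q H = numR 1 H R := by
  have hG : Fintype G := Fintype.ofFinite _
  have : Fintype (Unit → G) := Fintype.ofFinite _
  have : Fintype H := Fintype.ofFinite _
  have hS : Stable (Set.univ : Set (Unit → G)) := fun _ _ _ => trivial
  have hRc : ∀ x y : H, IsConj x y → (R x ↔ R y) := by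
    have key : ∀ x y : H, IsConj x y → R x → R y := by
      intro x y hxy hx
      obtain ⟨c, rfl⟩ := isConj_iff.mp hxy
      rw [hR] at hx ⊢
      have h1 := hQ _ hx (c : G)
      rw [← cen_cj, conjSub_self c.2] at h1
      exact h1
    exact fun x y h => ⟨key x y h, key y x h.symm⟩
  have h1 := card_mul_numTup hS hQ H
  have h2 := card_mul_numR 1 H R hRc
  apply Nat.eq_of_mul_eq_mul_left (Nat.card_pos (α := H))
  rw [h1, h2]
  have e : {q : H × H // q.2 * q.1 * q.2⁻¹ = q.1 ^ 1 ∧ R q.1} ≃
      (Σ x : H, {y : H // y * x * y⁻¹ = x ^ 1 ∧ R x}) :=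
    { toFun := fun q => ⟨q.1.1, ⟨q.1.2, q.2⟩⟩
      invFun := fun t => ⟨(t.1, t.2.1), t.2.2⟩
      left_inv := fun q => rfl
      right_inv := fun t => rfl }
  rw [Nat.card_congr e, Nat.card_sigma]
  rw [← Equiv.sum_comp (Equiv.funUnique Unit G).symm]
  have h3 : ∀ x : G, (if (Equiv.funUnique Unit G).symm x ∈ Tup Set.univ Q H then
      Nat.card (cen H ((Equiv.funUnique Unit G).symm x)) else 0) =
      if x ∈ H then (if Q (cen H (fun _ : Unit => x)) then
        Nat.card (cen H (fun _ : Unit => x)) else 0) else 0 := by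
    intro x
    have hx : (Equiv.funUnique Unit G).symm x = fun _ : Unit => x := rfl
    rw [hx]
    by_cases h4 : x ∈ H
    · rw [if_pos h4]
      by_cases h5 : Q (cen H (fun _ : Unit => x))
      · rw [if_pos h5, if_pos ⟨trivial, fun _ => h4, h5⟩]
      · rw [if_neg h5, if_neg (fun h => h5 h.2.2)]
    · rw [if_neg h4, if_neg (fun h => h4 (h.2.1 ()))]
  simp only [h3]
  rw [← Finset.sum_filter, Finset.sum_subtype (p := fun x => x ∈ H) (F := ‹Fintype H›) _ (by simp)]
  refine Finset.sum_congr rfl fun x _ => ?_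
  by_cases h5 : R x
  · rw [if_pos ((hR x).mp h5)]
    refine Nat.card_congr ⟨fun y => ⟨⟨y.1, (mem_cen.mp y.2).1⟩, ?_, h5⟩,
      fun y => ⟨y.1, mem_cen.mpr ⟨y.1.2, ?_⟩⟩, fun _ => rfl, fun _ => rfl⟩
    · apply Subtype.ext
      have h6 := (mem_cen.mp y.2).2 ()
      change y.1 * (x : G) * y.1⁻¹ = (x : G) ^ 1
      rw [pow_one, ← h6]
      group
    · intro _
      have h7 : (y.1 : G) * (x : G) * (y.1 : G)⁻¹ = (x : G) :=
        (congrArg Subtype.val y.2.1).trans (pow_one (x : G))
      rw [mul_inv_eq_iff_eq_mul] at h7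
      exact h7.symm
  · rw [if_neg (fun h => h5 ((hR x).mpr h))]
    symm
    rw [Nat.card_eq_zero]
    left
    exact ⟨fun y => h5 y.2.2⟩

theorem card_cen_eq [Finite G] {H : Subgroup G} (x : H) :
    Nat.card (cen H (fun _ : Unit => (x : G))) =
      Nat.card (Subgroup.centralizer ({x} : Set H)) := by
  refine Nat.card_congr ⟨fun y => ⟨⟨y.1, (mem_cen.mp y.2).1⟩, ?_⟩,
    fun y => ⟨y.1, mem_cen.mpr ⟨y.1.2, ?_⟩⟩, fun _ => rfl, fun _ => rfl⟩
  · rw [Subgroup.mem_centralizer_singleton_iff]
    apply Subtype.ext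
    exact ((mem_cen.mp y.2).2 ()).symm
  · intro _
    have h6 := congrArg Subtype.val (Subgroup.mem_centralizer_singleton_iff.mp y.2)
    exact h6.symm

theorem numTup_all [Finite G] (H : Subgroup G) :
    numTup (ι := Unit) Set.univ (fun _ => True) H = Nat.card (ConjClasses H) := by
  rw [numTup_one H _ stableQ_true (fun _ => True) (fun _ => Iff.rfl), ← numFixed_eq, numFixed_one]

theorem numTup_zero [Finite G] (H : Subgroup G) :
    numTup (ι := Unit) Set.univ (fun C => ¬ p ∣ Nat.card C) H = numClassZero p H := by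
  rw [numTup_one H _ stableQ_dvd (fun x => ¬ p ∣ Nat.card (Subgroup.centralizer ({x} : Set H)))
    (fun x => by rw [card_cen_eq])]
  unfold numR numClassZero
  refine Nat.card_congr (Equiv.subtypeEquivRight fun c => ?_)
  constructor
  · rintro ⟨x, h1, _, h3⟩
    exact ⟨x, h1, h3⟩
  · rintro ⟨x, h1, h3⟩
    exact ⟨x, h1, by rw [pow_one], h3⟩

/-- **the alternating sum of the class numbers is that of the numbers of classes of defect zero** -/
theorem altK_zero [Finite G] :
    altK p G = alternatingSum p G (fun H => (numClassZero p H : ℤ)) := by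
  have h := alt_split (p := p) (G := G) (ι := Unit) (S := Set.univ) (fun _ _ _ => trivial)
  unfold altK
  simp only [numTup_all, numTup_zero] at h
  exact h

theorem krc_zero [Finite G] :
    KRC p G ↔ alternatingSum p G (fun H => (numClassZero p H : ℤ)) = (numDefectZero p G : ℤ) := by
  rw [← altK_zero]
  have h := altSum_classes (p := p) (G := G)
  unfold KRC altK
  constructor
  · intro h1
    rw [h1] at h
    have : ((alternatingSum p G (fun H => (Nat.card (ConjClasses H) : ℤ)) : ℤ) : ℚ) =
      ((Pool.Agent.Y63.AWC.numDefectZero p G : ℤ) : ℚ) := by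
      rw [h]; push_cast; ring
    exact_mod_cast this
  · intro h1
    rw [h1] at h
    push_cast at h
    linarith

theorem numR_zero (H : Type) [Group H] :
    numR 1 H (fun x => ¬ p ∣ Nat.card (Subgroup.centralizer ({x} : Set H))) = numClassZero p H := by
  unfold numR numClassZero
  refine Nat.card_congr (Equiv.subtypeEquivRight fun c => ?_)
  constructor
  · rintro ⟨x, h1, _, h3⟩
    exact ⟨x, h1, h3⟩
  · rintro ⟨x, h1, h3⟩
    exact ⟨x, h1, by rw [pow_one], h3⟩

theorem card_centralizer_map {H K : Type} [Group H] [Group K] (e : H ≃* K) (x : H) :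
    Nat.card (Subgroup.centralizer ({x} : Set H)) =
      Nat.card (Subgroup.centralizer ({e x} : Set K)) := by
  refine Nat.card_congr (Equiv.subtypeEquiv e.toEquiv fun z => ?_)
  change _ ↔ e z ∈ _
  rw [Subgroup.mem_centralizer_singleton_iff, Subgroup.mem_centralizer_singleton_iff, ← map_mul,
    ← map_mul, e.injective.eq_iff]

theorem numClassZero_congr {H K : Type} [Group H] [Group K] [Finite H] [Finite K] (e : H ≃* K) :
    numClassZero p H = numClassZero p K := by
  rw [← numR_zero, ← numR_zero]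
  refine numR_congr 1 e _ _ ?_ ?_
  · intro x y h
    obtain ⟨c, rfl⟩ := isConj_iff.mp h
    rw [card_centralizer_map (MulAut.conj c) x]
    rfl
  · intro x
    rw [card_centralizer_map e x]

/-- groups without fixed point free actions on `p`-subgroups -/
theorem krc_fpf [Finite G]
    (h : ∀ P : Subgroup G, IsPGroup p P → P ≠ ⊥ → ∀ x ∈ Subgroup.normalizer (P : Set G),
      ∃ y ∈ P, y ≠ 1 ∧ x * y = y * x) :
    KRC p G ↔ numClassZero p G = numDefectZero p G := by
  rw [krc_zero, alternatingSum_single (fun H : Subgroup G => (numClassZero p H : ℤ)),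
    numClassZero_congr (Subgroup.topEquiv : (⊤ : Subgroup G) ≃* G)]
  · norm_cast
  · intro σ hσ hne
    norm_cast
    unfold numClassZero
    rw [Nat.card_eq_zero]
    left
    constructor
    rintro ⟨c, x, rfl, hx⟩
    apply hx
    obtain ⟨P, hP, hle⟩ := exists_least hσ.chain hne
    have hxP : (x : G) ∈ Subgroup.normalizer (P : Set G) :=
      conjSub_eq_iff.mp (mem_chainStabilizer.mp x.2 P hP)
    obtain ⟨y, hy, hy1, hxy⟩ := h P (hσ.isPGroup P hP) (hσ.ne_bot P hP) x hxP
    have hyσ : y ∈ chainStabilizer σ :=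
      mem_chainStabilizer.mpr fun Q hQ => conjSub_eq_of_le (hle Q hQ hy)
    obtain ⟨k, hk⟩ := hσ.isPGroup P hP ⟨y, hy⟩
    have h1 : orderOf (⟨⟨y, hyσ⟩, by
        rw [Subgroup.mem_centralizer_singleton_iff]
        exact Subtype.ext hxy.symm⟩ : Subgroup.centralizer ({x} : Set (chainStabilizer σ))) =
        orderOf y := by
      rw [← Subgroup.orderOf_coe, ← Subgroup.orderOf_coe]
    have h2 : p ∣ orderOf y := by
      have h3 : orderOf y ∣ p ^ k := orderOf_dvd_of_pow_eq_one (congrArg Subtype.val hk)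
      obtain ⟨j, _, hj⟩ := (Nat.dvd_prime_pow hp.out).mp h3
      have hj0 : j ≠ 0 := by
        rintro rfl
        rw [pow_zero, orderOf_eq_one_iff] at hj
        exact hy1 hj
      rw [hj]
      exact dvd_pow_self p hj0
    rw [← h1] at h2
    exact h2.trans (orderOf_dvd_natCard _)

end Pool.Agent.K1H2.KR
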