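import Pool.Agent.K1H2.KR.Syl
import Pool.Agent.Q90.WR.Krq

/-!
# Cancellation in the alternating sums of the numbers of classes of tuples
-/

set_option autoImplicit false
set_option linter.unusedSectionVars false

open scoped BigOperators Classical

noncomputable section

namespace Pool.Agent.K1H2.KR

open Pool.Agent.Y63.KR

variable {p : ℕ} {G : Type} [Group G] {ι : Type}

/-- the tuple conjugated with `x` -/
def cj (x : G) (g : ι → G) : ι → G := fun i => x * g i * x⁻¹

theorem cj_one (g : ι → G) : cj 1 g = g := by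
  funext i; simp [cj]

theorem cj_mul (x y : G) (g : ι → G) : cj (x * y) g = cj x (cj y g) := by
  funext i; simp only [cj]; group

theorem cj_inj (x : G) : Function.Injective (cj x : (ι → G) → ι → G) := by
  intro g g' h
  have := congrArg (cj x⁻¹) h
  rwa [← cj_mul, ← cj_mul, inv_mul_cancel, cj_one, cj_one] at this

/-- the tuples of elements of `H` which belong to `S` and whose centraliser in `H` has the
property `Q` -/
def Tup (S : Set (ι → G)) (Q : Subgroup G → Prop) (H : Subgroup G) : Set (ι → G) :=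
  {g | g ∈ S ∧ (∀ i, g i ∈ H) ∧ Q (cen H g)}

/-- conjugacy in `H` -/
def tupSetoid (S : Set (ι → G)) (Q : Subgroup G → Prop) (H : Subgroup G) :
    Setoid (Tup S Q H) where
  r g g' := ∃ h ∈ H, g'.1 = cj h g.1
  iseqv :=
    { refl := fun g => ⟨1, one_mem _, (cj_one _).symm⟩
      symm := by
        rintro g g' ⟨h, hh, e⟩
        exact ⟨h⁻¹, inv_mem hh, by rw [e, ← cj_mul, inv_mul_cancel, cj_one]⟩
      trans := by
        rintro g g' g'' ⟨h, hh, e⟩ ⟨h', hh', e'⟩
        exact ⟨h' * h, mul_mem hh' hh, by rw [e', e, cj_mul]⟩ }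

/-- the number of `H`-classes of the tuples of elements of `H` which belong to `S` and whose
centraliser in `H` has the property `Q` -/
def numTup (S : Set (ι → G)) (Q : Subgroup G → Prop) (H : Subgroup G) : ℕ :=
  Nat.card (Quotient (tupSetoid S Q H))

/-- `S` is stable under conjugation -/
def Stable (S : Set (ι → G)) : Prop := ∀ g ∈ S, ∀ x : G, cj x g ∈ S

/-- the property `Q` of subgroups is invariant under conjugation -/
def StableQ (Q : Subgroup G → Prop) : Prop := ∀ C, Q C → ∀ x : G, Q (conjSub x C)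

theorem cen_cj (H : Subgroup G) (g : ι → G) (x : G) :
    cen (conjSub x H) (cj x g) = conjSub x (cen H g) := by
  ext y
  rw [mem_cen, mem_conjSub, mem_conjSub, mem_cen]
  refine and_congr_right fun _ => forall_congr' fun i => ?_
  constructor
  · intro h
    have e1 : g i * (x⁻¹ * y * x) = x⁻¹ * (cj x g i * y) * x := by simp only [cj]; group
    have e2 : x⁻¹ * y * x * g i = x⁻¹ * (y * cj x g i) * x := by simp only [cj]; group
    rw [e1, e2, h]
  · intro h
    have e1 : cj x g i * y = x * (g i * (x⁻¹ * y * x)) * x⁻¹ := by simp only [cj]; group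
    have e2 : y * cj x g i = x * (x⁻¹ * y * x * g i) * x⁻¹ := by simp only [cj]; group
    rw [e1, e2, h]

theorem conjSub_self {H : Subgroup G} {x : G} (hx : x ∈ H) : conjSub x H = H :=
  conjSub_eq_of_le hx

theorem tup_cj {S : Set (ι → G)} {Q : Subgroup G → Prop} (hS : Stable S) (hQ : StableQ Q)
    {H : Subgroup G} {g : ι → G} (hg : g ∈ Tup S Q H) (x : G) : cj x g ∈ Tup S Q (conjSub x H) := by
  refine ⟨hS g hg.1 x, fun i => conj_mem_conjSub (hg.2.1 i), ?_⟩
  rw [cen_cj]
  exact hQ _ hg.2.2 x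

theorem card_mul_numTup [Finite G] [Finite ι] [Fintype (ι → G)] {S : Set (ι → G)}
    {Q : Subgroup G → Prop} (hS : Stable S) (hQ : StableQ Q) (H : Subgroup G) :
    Nat.card H * numTup S Q H =
      ∑ g : ι → G, if g ∈ Tup S Q H then Nat.card (cen H g) else 0 := by
  let _ : MulAction H (Tup S Q H) :=
    { smul := fun h g => ⟨cj (h : G) g.1, by
        have := tup_cj hS hQ g.2 (h : G)
        rwa [conjSub_self h.2] at this⟩
      one_smul := fun g => Subtype.ext (cj_one g.1)
      mul_smul := fun h h' g => Subtype.ext (cj_mul (h : G) (h' : G) g.1) }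
  have hsm : ∀ (h : H) (g : Tup S Q H), (h • g).1 = cj (h : G) g.1 := fun _ _ => rfl
  have hfin : Fintype (Tup S Q H) := Fintype.ofFinite _
  have h := orbit_sum (G := H) (tupSetoid S Q H) (by
    intro g g'
    change (∃ h ∈ H, g'.1 = cj h g.1) ↔ _
    constructor
    · rintro ⟨h, hh, e⟩
      exact ⟨⟨h, hh⟩, Subtype.ext (by rw [hsm, e])⟩
    · rintro ⟨h, e⟩
      exact ⟨h, h.2, by rw [← e, hsm]⟩) (fun _ => 1) (fun _ _ _ => rfl)
  have hq : ∑ᶠ _c : Quotient (tupSetoid S Q H), (1 : ℤ) = numTup S Q H := by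
    have : Fintype (Quotient (tupSetoid S Q H)) := Fintype.ofFinite _
    rw [finsum_eq_sum_of_fintype, Finset.sum_const, Finset.card_univ, nsmul_eq_mul, mul_one]
    unfold numTup
    rw [Nat.card_eq_fintype_card]
  rw [hq] at h
  have hst : ∀ g : Tup S Q H, Nat.card (MulAction.stabilizer H g) = Nat.card (cen H g.1) := by
    intro g
    refine Nat.card_congr ⟨fun x => ⟨(x.1 : G), ?_⟩, fun y => ⟨⟨y.1, (mem_cen.mp y.2).1⟩, ?_⟩,
      fun _ => rfl, fun _ => rfl⟩
    · have h1 := congrArg Subtype.val (MulAction.mem_stabilizer_iff.mp x.2)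
      rw [hsm] at h1
      refine mem_cen.mpr ⟨x.1.2, fun i => ?_⟩
      have h2 : (x.1 : G) * g.1 i * (x.1 : G)⁻¹ = g.1 i := congrFun h1 i
      conv_lhs => rw [← h2]
      group
    · rw [MulAction.mem_stabilizer_iff]
      apply Subtype.ext
      rw [hsm]
      funext i
      have h2 := (mem_cen.mp y.2).2 i
      change y.1 * g.1 i * y.1⁻¹ = g.1 i
      rw [← h2]
      group
  have h3 : ((Nat.card H * numTup S Q H : ℕ) : ℤ) =
      ((∑ g : ι → G, if g ∈ Tup S Q H then Nat.card (cen H g) else 0 : ℕ) : ℤ) := by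
    have hfin' : Fintype {g // g ∈ Tup S Q H} := hfin
    rw [← Finset.sum_filter, Finset.sum_subtype (p := fun g => g ∈ Tup S Q H) (F := hfin') _ (by simp)]
    push_cast
    rw [h]
    refine Finset.sum_congr ?_ fun g _ => ?_
    · ext; simp
    · rw [hst, mul_one]
  exact_mod_cast h3

theorem numTup_conj [Finite G] [Finite ι] {S : Set (ι → G)} {Q : Subgroup G → Prop}
    (hS : Stable S) (hQ : StableQ Q) (x : G) (H : Subgroup G) :
    numTup S Q (conjSub x H) = numTup S Q H := by
  have : Fintype (ι → G) := Fintype.ofFinite _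
  have h1 := card_mul_numTup hS hQ H
  have h2 := card_mul_numTup hS hQ (conjSub x H)
  have hc : ∀ K : Subgroup G, Nat.card (conjSub x K) = Nat.card K := fun K =>
    Nat.card_congr (Subgroup.equivMapOfInjective _ _ (MulAut.conj x).injective).toEquiv.symm
  have e : ∑ g : ι → G, (if g ∈ Tup S Q (conjSub x H) then Nat.card (cen (conjSub x H) g) else 0) =
      ∑ g : ι → G, if g ∈ Tup S Q H then Nat.card (cen H g) else 0 := by
    have hb : Function.Bijective (cj x : (ι → G) → ι → G) :=
      Finite.injective_iff_bijective.mp (cj_inj x)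
    rw [← Equiv.sum_comp (Equiv.ofBijective _ hb)]
    refine Finset.sum_congr rfl fun g _ => ?_
    change (if cj x g ∈ Tup S Q (conjSub x H) then Nat.card (cen (conjSub x H) (cj x g)) else 0) = _
    have hiff : cj x g ∈ Tup S Q (conjSub x H) ↔ g ∈ Tup S Q H := by
      constructor
      · intro h
        have h3 := tup_cj hS hQ h x⁻¹
        rwa [← cj_mul, inv_mul_cancel, cj_one, conjSub_inv_conjSub] at h3
      · intro h
        exact tup_cj hS hQ h x
    rw [cen_cj, hc]
    by_cases hg : g ∈ Tup S Q H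
    · rw [if_pos hg, if_pos (hiff.mpr hg)]
    · rw [if_neg hg, if_neg (fun h => hg (hiff.mp h))]
  rw [e, ← h1, hc] at h2
  exact Nat.eq_of_mul_eq_mul_left Nat.card_pos h2

/-- sums over the classes of chains of a function of subgroups invariant under conjugation -/
theorem card_mul_alt [Finite G] (f : Subgroup G → ℤ) (hf : ∀ x H, f (conjSub x H) = f H)
    [Fintype {σ : Set (Subgroup G) // IsPChain p σ}] :
    (Nat.card G : ℤ) * alternatingSum p G f =
      ∑ σ : {σ : Set (Subgroup G) // IsPChain p σ},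
        (-1) ^ σ.1.ncard * ((Nat.card (chainStabilizer σ.1) : ℤ) * f (chainStabilizer σ.1)) := by
  let _ : MulAction G {σ : Set (Subgroup G) // IsPChain p σ} :=
    { smul := fun g σ => ⟨conjSub g '' σ.1, σ.2.conj g⟩
      one_smul := fun σ => by
        apply Subtype.ext
        change conjSub (1 : G) '' σ.1 = σ.1
        have : (conjSub (1 : G)) = id := funext conjSub_one
        rw [this, Set.image_id]
      mul_smul := fun g h σ => by
        apply Subtype.ext
        change conjSub (g * h) '' σ.1 = conjSub g '' (conjSub h '' σ.1)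
        rw [← Set.image_comp]
        congr 1
        exact funext fun P => conjSub_mul g h P }
  have hsm : ∀ (g : G) (σ : {σ : Set (Subgroup G) // IsPChain p σ}),
      (g • σ).1 = conjSub g '' σ.1 := fun _ _ => rfl
  have h := orbit_sum (G := G) (chainSetoid p G) (by
    intro σ τ
    change (∃ g : G, τ.1 = conjSub g '' σ.1) ↔ _
    constructor
    · rintro ⟨g, hg⟩
      exact ⟨g, Subtype.ext (by rw [hsm, hg])⟩
    · rintro ⟨g, hg⟩
      exact ⟨g, by rw [← hg, hsm]⟩)
    (fun σ => (-1) ^ σ.1.ncard * f (chainStabilizer σ.1)) (by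
      rintro σ τ ⟨g, hg⟩
      change (-1) ^ σ.1.ncard * f (chainStabilizer σ.1) =
        (-1) ^ τ.1.ncard * f (chainStabilizer τ.1)
      rw [hg, ncard_conj, chainStabilizer_conj]
      congr 1
      exact (hf g _).symm)
  unfold alternatingSum
  rw [h]
  refine Finset.sum_congr rfl fun σ _ => ?_
  have hst : Nat.card (MulAction.stabilizer G σ) = Nat.card (chainStabilizer σ.1) := by
    refine Nat.card_congr (Equiv.subtypeEquivRight fun g => ?_)
    rw [MulAction.mem_stabilizer_iff, Subtype.ext_iff, hsm, mem_chainStabilizer]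
    constructor
    · intro h3 P hP
      have hgP : conjSub g P ∈ σ.1 := by
        rw [← h3]
        exact ⟨P, hP, rfl⟩
      have hcard : Nat.card (conjSub g P) = Nat.card P :=
        Nat.card_congr (Subgroup.equivMapOfInjective _ _ (MulAut.conj g).injective).toEquiv.symm
      rcases σ.2.chain.total hgP hP with h4 | h4
      · exact Subgroup.eq_of_le_of_card_ge h4 hcard.ge
      · exact (Subgroup.eq_of_le_of_card_ge h4 hcard.le).symm
    · intro h3
      ext P
      constructor
      · rintro ⟨Q, hQ, rfl⟩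
        rw [h3 Q hQ]
        exact hQ
      · intro hP
        exact ⟨P, hP, h3 P hP⟩
  rw [hst]
  ring

/-- the Sylow subgroups of `C` are conjugate -/
theorem syl_conj [Fact p.Prime] [Finite G] {T T' C : Subgroup G} (h : IsSyl p T C)
    (h' : IsSyl p T' C) : ∃ x ∈ C, T' = conjSub x T := by
  obtain ⟨P, hP⟩ := exists_sylow h
  obtain ⟨P', hP'⟩ := exists_sylow h'
  obtain ⟨c, hc⟩ := MulAction.exists_smul_eq C P P'
  refine ⟨c, c.2, ?_⟩
  have key : ∀ y : C, y ∈ (P' : Subgroup C) ↔ c⁻¹ * y * c ∈ (P : Subgroup C) := by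
    intro y
    rw [← hc]
    constructor
    · intro hy
      obtain ⟨z, hz, hzy⟩ := hy
      have : c⁻¹ * y * c = z := by
        rw [← hzy]
        change c⁻¹ * (c * z * c⁻¹) * c = z
        group
      rw [this]
      exact hz
    · intro hy
      refine ⟨c⁻¹ * y * c, hy, ?_⟩
      change c * (c⁻¹ * y * c) * c⁻¹ = y
      group
  rw [hP, hP'] at key
  ext y
  rw [mem_conjSub]
  constructor
  · intro hy
    have := (key ⟨y, h'.1 hy⟩).mp hy
    exact this
  · intro hy
    have hyC : y ∈ C := by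
      have e : y = c * ((c : G)⁻¹ * y * c) * (c : G)⁻¹ := by group
      rw [e]
      exact C.mul_mem (C.mul_mem c.2 (h.1 hy)) (C.inv_mem c.2)
    exact (key ⟨y, hyC⟩).mpr hy

/-- **Cancellation.** The alternating sum of the numbers of classes of tuples for which the Sylow
`p`-subgroups of the centraliser belong to a family of nontrivial subgroups vanishes. -/
theorem alt_zero [Fact p.Prime] [Finite G] [Finite ι] {S : Set (ι → G)} (hS : Stable S)
    (F : Set (Subgroup G)) (hF : ∀ T ∈ F, ∀ x : G, conjSub x T ∈ F) (h1 : ⊥ ∉ F) :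
    alternatingSum p G (fun H => (numTup S (fun C => ∃ T ∈ F, IsSyl p T C) H : ℤ)) = 0 := by
  have : Fintype (ι → G) := Fintype.ofFinite _
  have : Fintype (Subgroup G) := Fintype.ofFinite _
  have : Fintype {σ : Set (Subgroup G) // IsPChain p σ} := Fintype.ofFinite _
  have hsyl : ∀ (T C : Subgroup G) (x : G), IsSyl p T C → IsSyl p (conjSub x T) (conjSub x C) := by
    intro T C x h
    refine ⟨conjSub_le h.1, h.2.1.map _, ?_⟩
    intro T' a1 a2 a3
    have b1 := conjSub_le (g := x⁻¹) a1
    have b2 := conjSub_le (g := x⁻¹) a2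
    rw [conjSub_inv_conjSub] at b1 b2
    have b3 := h.2.2 _ b1 b2 (a3.map _)
    have b4 := conjSub_le (g := x) b3
    rwa [conjSub_conjSub_inv] at b4
  have hQ : StableQ (fun C : Subgroup G => ∃ T ∈ F, IsSyl p T C) := by
    rintro C ⟨T, hT, hTC⟩ x
    exact ⟨conjSub x T, hF T hT x, hsyl T C x hTC⟩
  have hmain := card_mul_alt (p := p) (fun H : Subgroup G =>
    (numTup S (fun C => ∃ T ∈ F, IsSyl p T C) H : ℤ)) (fun x H => by
      rw [numTup_conj hS hQ])
  have h2 : ∀ H : Subgroup G, (Nat.card H : ℤ) * (numTup S (fun C => ∃ T ∈ F, IsSyl p T C) H : ℤ) =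
      ∑ g : ι → G, ∑ T : Subgroup G, if g ∈ S ∧ T ∈ F ∧ ((∀ i, g i ∈ H) ∧ IsSyl p T (cen H g)) then
        (Nat.card ↥(cen H g ⊓ Subgroup.normalizer (T : Set G)) : ℤ) else 0 := by
    intro H
    have h3 := card_mul_numTup hS hQ H
    have h4 : ((Nat.card H * numTup S (fun C => ∃ T ∈ F, IsSyl p T C) H : ℕ) : ℤ) =
      ((∑ g : ι → G, ∑ T : Subgroup G, if g ∈ S ∧ T ∈ F ∧ ((∀ i, g i ∈ H) ∧ IsSyl p T (cen H g)) then
        (Nat.card ↥(cen H g ⊓ Subgroup.normalizer (T : Set G))) else 0 : ℕ) : ℤ) := by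
      congr 1
      rw [h3]
      refine Finset.sum_congr rfl fun g _ => ?_
      by_cases hg : g ∈ Tup S (fun C => ∃ T ∈ F, IsSyl p T C) H
      · rw [if_pos hg, ← sum_syl (p := p) (cen H g)]
        refine Finset.sum_congr rfl fun T _ => ?_
        obtain ⟨T₀, hT₀, hs₀⟩ := hg.2.2
        by_cases hT : IsSyl p T (cen H g)
        · obtain ⟨x, _, hx⟩ := syl_conj hs₀ hT
          have hTF : T ∈ F := by
            rw [hx]
            exact hF T₀ hT₀ x
          rw [if_pos hT, if_pos ⟨hg.1, hTF, hg.2.1, hT⟩]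
        · rw [if_neg hT, if_neg (fun h => hT h.2.2.2)]
      · rw [if_neg hg]
        symm
        apply Finset.sum_eq_zero
        intro T _
        rw [if_neg]
        rintro ⟨a1, a2, a3, a4⟩
        exact hg ⟨a1, a3, T, a2, a4⟩
    exact_mod_cast h4
  have h5 : (Nat.card G : ℤ) *
      alternatingSum p G (fun H => (numTup S (fun C => ∃ T ∈ F, IsSyl p T C) H : ℤ)) = 0 := by
    rw [hmain]
    simp only [h2, Finset.mul_sum]
    rw [Finset.sum_comm]
    apply Finset.sum_eq_zero
    intro g _
    rw [Finset.sum_comm]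
    apply Finset.sum_eq_zero
    intro T _
    by_cases hc : g ∈ S ∧ T ∈ F
    · have hT1 : T ≠ ⊥ := fun h => h1 (h ▸ hc.2)
      refine Eq.trans (Finset.sum_congr rfl fun σ _ => ?_) (sum_toggle (p := p) hT1 g)
      by_cases hd : (∀ i, g i ∈ chainStabilizer σ.1) ∧ IsSyl p T (cen (chainStabilizer σ.1) g)
      · rw [if_pos hd, if_pos ⟨hc.1, hc.2, hd⟩]
      · rw [if_neg hd, if_neg (fun h => hd h.2.2), mul_zero]
    · apply Finset.sum_eq_zero
      intro σ _
      rw [if_neg (fun h => hc ⟨h.1, h.2.1⟩), mul_zero]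
  have h0 : (Nat.card G : ℤ) ≠ 0 := by exact_mod_cast Nat.card_pos.ne'
  exact (mul_eq_zero.mp h5).resolve_left h0

end Pool.Agent.K1H2.KR
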