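import Pool.Agent.K1H2.KR.Dfc

/-!
# The homomorphisms from the product of the integers and a free group
-/

set_option autoImplicit false
set_option linter.unusedSectionVars false

open scoped BigOperators Classical

noncomputable section

namespace Pool.Agent.K1H2.KR

open Pool.Agent.Y63.KR
open Pool.Agent.Y63.AWC (numDefectZero)
open Pool.Agent.Q90.WR (altK krc_altK)
open Pool.Agent.R674.Ce (krDiff)

variable {p : ℕ} {G : Type} [Group G]

/-- The homomorphisms from `ℤ × F_m` to `G`, `F_m` the free group on `m` generators: the tuples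
`(x, y_1, …, y_m)` such that `x` commutes with all `y_i`. -/
def FibHom (m : ℕ) (G : Type) [Group G] : Type :=
  {q : G × (Fin m → G) // ∀ i, q.1 * q.2 i = q.2 i * q.1}

instance (m : ℕ) [Finite G] : Finite (FibHom m G) := by
  unfold FibHom
  infer_instance

/-- the image of the generators -/
def fibSet {m : ℕ} (q : FibHom m G) : Set G := insert q.1.1 (Set.range q.1.2)

/-- The reduced equivariant Euler characteristic of the poset of nontrivial `p`-subgroups of `G` for
the group `ℤ × F_m`: `|G|⁻¹ ∑_φ (χ(X^φ) - 1)`, `φ` running over the homomorphisms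
`ℤ × F_m → G`. -/
def fibChi (p m : ℕ) (G : Type) [Group G] : ℚ :=
  (∑ᶠ q : FibHom m G, ((eulerChar (fixedPoset p (fibSet q)) : ℚ) - 1)) / (Nat.card G : ℚ)

/-- the sum of the `n`-th powers of the orders of the centralisers, over the classes -/
def zc (n : ℕ) (H : Type) [Group H] : ℤ :=
  ∑ᶠ c : Quotient (IsConj.setoid H), (Nat.card (Subgroup.centralizer ({c.out} : Set H)) : ℤ) ^ n

theorem card_centralizer_conj {H : Type} [Group H] {x y : H} (h : IsConj x y) :
    Nat.card (Subgroup.centralizer ({x} : Set H)) =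
      Nat.card (Subgroup.centralizer ({y} : Set H)) := by
  obtain ⟨c, rfl⟩ := isConj_iff.mp h
  refine Nat.card_congr (Equiv.subtypeEquiv (MulAut.conj c).toEquiv fun z => ?_)
  change _ ↔ c * z * c⁻¹ ∈ _
  rw [Subgroup.mem_centralizer_singleton_iff, Subgroup.mem_centralizer_singleton_iff]
  constructor
  · intro h1
    have e1 : c * z * c⁻¹ * (c * x * c⁻¹) = c * (z * x) * c⁻¹ := by group
    have e2 : c * x * c⁻¹ * (c * z * c⁻¹) = c * (x * z) * c⁻¹ := by group
    rw [e1, e2, h1]
  · intro h1
    have e1 : z * x = c⁻¹ * (c * z * c⁻¹ * (c * x * c⁻¹)) * c := by group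
    have e2 : x * z = c⁻¹ * (c * x * c⁻¹ * (c * z * c⁻¹)) * c := by group
    rw [e1, e2, h1]

theorem card_mul_zc (n : ℕ) (H : Type) [Group H] [Finite H] :
    (Nat.card H : ℤ) * zc n H = (Nat.card (FibHom (n + 1) H) : ℤ) := by
  have : Fintype H := Fintype.ofFinite H
  have h := orbit_sum (G := ConjAct H) (IsConj.setoid H) (by
    intro x y
    change IsConj x y ↔ _
    rw [isConj_iff]
    rfl) (fun x : H => (Nat.card (Subgroup.centralizer ({x} : Set H)) : ℤ) ^ n)
    (fun x y hxy => by
      have h1 := card_centralizer_conj (H := H) hxy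
      simp only [h1])
  have hcard : Nat.card (ConjAct H) = Nat.card H := rfl
  rw [hcard] at h
  unfold zc
  rw [h]
  have e : FibHom (n + 1) H ≃ (Σ x : H, (Fin (n + 1) → Subgroup.centralizer ({x} : Set H))) :=
    { toFun := fun q => ⟨q.1.1, fun i => ⟨q.1.2 i, by
        rw [Subgroup.mem_centralizer_singleton_iff]; exact (q.2 i).symm⟩⟩
      invFun := fun t => ⟨(t.1, fun i => (t.2 i : H)), fun i =>
        (Subgroup.mem_centralizer_singleton_iff.mp (t.2 i).2).symm⟩
      left_inv := fun q => rfl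
      right_inv := fun t => rfl }
  rw [Nat.card_congr e, Nat.card_sigma]
  push_cast
  refine Finset.sum_congr rfl fun x _ => ?_
  have h5 : Nat.card (MulAction.stabilizer (ConjAct H) x) =
      Nat.card (Subgroup.centralizer ({x} : Set H)) := by
    refine Nat.card_congr (Equiv.subtypeEquiv (ConjAct.ofConjAct (G := H)).toEquiv fun y => ?_)
    rw [MulAction.mem_stabilizer_iff, ConjAct.smul_def]
    change _ ↔ ConjAct.ofConjAct y ∈ _
    rw [Subgroup.mem_centralizer_singleton_iff, mul_inv_eq_iff_eq_mul]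
  rw [h5, Nat.card_fun, Nat.card_eq_fintype_card (α := Fin (n + 1)), Fintype.card_fin]
  push_cast
  ring

theorem zc_congr (n : ℕ) {H K : Type} [Group H] [Group K] [Finite H] [Finite K] (e : H ≃* K) :
    zc n H = zc n K := by
  have h1 := card_mul_zc n H
  have h2 := card_mul_zc n K
  have h3 : Nat.card (FibHom (n + 1) H) = Nat.card (FibHom (n + 1) K) := by
    refine Nat.card_congr (Equiv.subtypeEquiv
      (Equiv.prodCongr e.toEquiv (Equiv.piCongrRight fun _ => e.toEquiv)) fun q => ?_)
    refine forall_congr' fun i => ?_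
    change _ ↔ e q.1 * e (q.2 i) = e (q.2 i) * e q.1
    rw [← map_mul, ← map_mul, e.injective.eq_iff]
  have h4 : Nat.card H = Nat.card K := Nat.card_congr e.toEquiv
  rw [h3, ← h2, h4] at h1
  have h0 : (Nat.card K : ℤ) ≠ 0 := by exact_mod_cast Nat.card_pos.ne'
  exact mul_left_cancel₀ h0 h1

theorem fib_main [Finite G] (n : ℕ) [Fintype (FibHom (n + 1) G)] :
    (Nat.card G : ℤ) * alternatingSum p G (fun H => zc n H) =
      ∑ q : FibHom (n + 1) G, W p (fibSet q) := by
  refine main_count (fun H => zc n H) ?_ (fun q : FibHom (n + 1) G => fibSet q) ?_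
  · rintro H K ⟨e⟩
    exact zc_congr n e
  · intro H
    rw [card_mul_zc]
    norm_cast
    refine Nat.card_congr
      { toFun := fun q => ⟨⟨((q.1.1 : G), fun i => (q.1.2 i : G)), fun i =>
          congrArg Subtype.val (q.2 i)⟩, ?_⟩
        invFun := fun t => ⟨(⟨t.1.1.1, t.2 (Or.inl rfl)⟩,
          fun i => ⟨t.1.1.2 i, t.2 (Or.inr ⟨i, rfl⟩)⟩), fun i => Subtype.ext (t.1.2 i)⟩
        left_inv := fun q => rfl
        right_inv := fun t => rfl }
    rintro z (rfl | ⟨i, rfl⟩)
    · exact q.1.1.2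
    · exact (q.1.2 i).2

theorem fibChi_eq [Finite G] (n : ℕ) :
    fibChi p (n + 1) G = - ((alternatingSum p G (fun H => zc n H) : ℤ) : ℚ) := by
  have : Fintype (FibHom (n + 1) G) := Fintype.ofFinite _
  have h0 : (Nat.card G : ℚ) ≠ 0 := by exact_mod_cast Nat.card_pos.ne'
  have h1 := congrArg (Int.cast : ℤ → ℚ) (fib_main (p := p) (G := G) n)
  unfold fibChi
  rw [finsum_eq_sum_of_fintype]
  simp only [W_eq] at h1
  push_cast at h1
  rw [div_eq_iff h0]
  have h2 : ∑ q : FibHom (n + 1) G, ((eulerChar (fixedPoset p (fibSet q)) : ℚ) - 1) =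
      - ∑ q : FibHom (n + 1) G, (1 - (eulerChar (fixedPoset p (fibSet q)) : ℚ)) := by
    rw [← Finset.sum_neg_distrib]
    refine Finset.sum_congr rfl fun q _ => ?_
    ring
  rw [h2, ← h1]
  ring

variable [hp : Fact p.Prime]

theorem le_of_dvd {N n : ℕ} (hn0 : n ≠ 0) (hn : p ^ N * (p - 1) ∣ n) : N + 1 ≤ n := by
  have h1 : p ^ N * (p - 1) ≤ n := Nat.le_of_dvd (Nat.pos_of_ne_zero hn0) hn
  have h2 := hp.out.two_le
  have h3 : N + 1 ≤ p ^ N := by
    have := Nat.lt_pow_self (n := N) hp.out.one_lt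
    omega
  have h4 : 1 ≤ p - 1 := by omega
  nlinarith

/-- the sum of the powers of the orders of the centralisers modulo powers of `p` -/
theorem zc_mod (H : Type) [Group H] [Finite H] {N n : ℕ} (hn0 : n ≠ 0)
    (hn : p ^ N * (p - 1) ∣ n) : (p : ℤ) ^ (N + 1) ∣ zc n H - (numClassZero p H : ℤ) := by
  have hfin : Fintype (Quotient (IsConj.setoid H)) := Fintype.ofFinite _
  have h1 : (numClassZero p H : ℤ) = ∑ c : Quotient (IsConj.setoid H),
      bz (¬ p ∣ Nat.card (Subgroup.centralizer ({c.out} : Set H))) := by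
    rw [← finsum_eq_sum_of_fintype, finsum_bz]
    unfold numClassZero
    norm_cast
    refine Nat.card_congr (Equiv.subtypeEquivRight fun c => ?_)
    constructor
    · rintro ⟨x, hx, h2⟩
      have h3 : IsConj x c.out := by
        have : (Quotient.mk (IsConj.setoid H) x) = Quotient.mk (IsConj.setoid H) c.out :=
          hx.trans (Quotient.out_eq c).symm
        exact Quotient.eq.mp this
      rwa [← card_centralizer_conj h3]
    · intro h2
      exact ⟨c.out, Quotient.out_eq c, h2⟩
  unfold zc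
  rw [finsum_eq_sum_of_fintype, h1, ← Finset.sum_sub_distrib]
  refine Finset.dvd_sum fun c _ => ?_
  by_cases hd : p ∣ Nat.card (Subgroup.centralizer ({c.out} : Set H))
  · rw [bz_neg (fun h => h hd), sub_zero]
    have h2 : p ^ (N + 1) ∣ Nat.card (Subgroup.centralizer ({c.out} : Set H)) ^ n :=
      (pow_dvd_pow p (le_of_dvd hn0 hn)).trans (pow_dvd_pow_of_dvd hd n)
    exact_mod_cast h2
  · rw [bz_pos hd]
    have h2 := Nat.modEq_iff_dvd.mp (unit_pow (p := p) hd hn).symm
    push_cast at h2
    exact h2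

/-- **continuity at `m = 1` of the Euler characteristics for the groups `ℤ × F_m`** -/
theorem fib_mod [Finite G] {N n : ℕ} (hn0 : n ≠ 0) (hn : p ^ N * (p - 1) ∣ n) :
    (p : ℤ) ^ (N + 1) ∣ alternatingSum p G (fun H => zc n H) - altK p G := by
  rw [altK_zero]
  exact alternatingSum_dvd _ _ fun σ _ => zc_mod _ hn0 hn

/-- **one congruence modulo `p` between numbers of homomorphisms** -/
theorem krc_fib :
    (∀ (G : Type) [Group G] [Finite G], KRC p G) ↔
    ∀ (G : Type) [Group G] [Finite G], ∃ c : ℤ, fibChi p p G - surfaceChi p p G = p * c := by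
  rw [krc_mod p hp.out.two_le p]
  have hp1 : p - 1 + 1 = p := Nat.sub_add_cancel hp.out.one_lt.le
  have hp0 : p - 1 ≠ 0 := by have := hp.out.one_lt; omega
  have key : ∀ (G : Type) [Group G] [Finite G], ∃ c : ℤ,
      krDiff p G + (fibChi p p G - surfaceChi p p G) = p * c := by
    intro G _ _
    obtain ⟨c, hc⟩ := fib_mod (p := p) (G := G) (N := 0) hp0 (by simp)
    obtain ⟨d, hd⟩ := alternatingSum_mod' (p := p) (G := G) (N := 0) hp0 (by simp)
    have h1 := fibChi_eq (p := p) (G := G) (p - 1)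
    have h2 := surfaceChi_eq (p := p) (G := G) (p - 1)
    have hc' := congrArg (Int.cast : ℤ → ℚ) hc
    have hd' := congrArg (Int.cast : ℤ → ℚ) hd
    rw [hp1] at h1 h2 hd'
    push_cast at hc' hd'
    refine ⟨d - c, ?_⟩
    rw [h1, h2, krDiff_int]
    push_cast
    rw [pow_one] at hc' hd'
    linear_combination hd' - hc'
  constructor
  · intro h G _ _
    obtain ⟨c, hc⟩ := h G
    obtain ⟨d, hd⟩ := key G
    refine ⟨d - c, ?_⟩
    push_cast
    linear_combination hd - hc
  · intro h G _ _
    obtain ⟨c, hc⟩ := h G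
    obtain ⟨d, hd⟩ := key G
    refine ⟨d - c, ?_⟩
    push_cast
    linear_combination hd - hc

/-- the same for one group, modulo all powers of `p` -/
theorem krc_fib_one [Finite G] :
    KRC p G ↔ ∀ N : ℕ, ∃ c : ℤ, fibChi p (p ^ N * (p - 1) + 1) G -
      surfaceChi p (p ^ N * (p - 1) + 1) G = (p : ℚ) ^ (N + 1) * c := by
  have hp0 : ∀ N : ℕ, p ^ N * (p - 1) ≠ 0 := by
    intro N
    have h1 := hp.out.one_lt
    have h2 : 0 < p ^ N := pow_pos hp.out.pos N
    have h3 : 0 < p - 1 := by omega
    positivity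
  have key : ∀ N : ℕ, ∃ c : ℤ, krDiff p G + (fibChi p (p ^ N * (p - 1) + 1) G -
      surfaceChi p (p ^ N * (p - 1) + 1) G) = (p : ℚ) ^ (N + 1) * c := by
    intro N
    obtain ⟨c, hc⟩ := fib_mod (p := p) (G := G) (N := N) (hp0 N) dvd_rfl
    obtain ⟨d, hd⟩ := alternatingSum_mod' (p := p) (G := G) (N := N) (hp0 N) dvd_rfl
    have h1 := fibChi_eq (p := p) (G := G) (p ^ N * (p - 1))
    have h2 := surfaceChi_eq (p := p) (G := G) (p ^ N * (p - 1))
    have hc' := congrArg (Int.cast : ℤ → ℚ) hc
    have hd' := congrArg (Int.cast : ℤ → ℚ) hd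
    push_cast at hc' hd'
    refine ⟨d - c, ?_⟩
    rw [h1, h2, krDiff_int]
    push_cast
    linear_combination hd' - hc'
  have hk : KRC p G ↔ krDiff p G = 0 := by
    rw [krc_altK, krDiff_int]
    constructor
    · intro h
      rw [h]
      simp
    · intro h
      have : altK p G - numDefectZero p G = 0 := by exact_mod_cast h
      omega
  rw [hk]
  constructor
  · intro h N
    obtain ⟨c, hc⟩ := key N
    rw [h, zero_add] at hc
    exact ⟨c, hc⟩
  · intro h
    have h1 : ∀ N : ℕ, (p : ℤ) ^ (N + 1) ∣ altK p G - numDefectZero p G := by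
      intro N
      obtain ⟨c, hc⟩ := key N
      obtain ⟨d, hd⟩ := h N
      refine ⟨c - d, ?_⟩
      have : ((altK p G - numDefectZero p G : ℤ) : ℚ) = (((p : ℤ) ^ (N + 1) * (c - d) : ℤ) : ℚ) := by
        rw [← krDiff_int]
        push_cast
        linear_combination hc - hd
      exact_mod_cast this
    have h2 := zero_of_all (q := p) (d := altK p G - numDefectZero p G) h1
    rw [krDiff_int, h2]
    simp

end Pool.Agent.K1H2.KR
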