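import Pool.Agent.K1H2.KR.Grp
import Pool.Agent.Q90.WR.Krq

/-!
# Invariant `p`-subgroups of powers and of wreath products
-/

set_option autoImplicit false
set_option linter.unusedSectionVars false

open scoped BigOperators Classical

noncomputable section

namespace Pool.Agent.K1H2.KR

open Pool.Agent.Y63.KR
open Pool.Agent.Q90.WR (inv mem_inv W_of_weight exists_weight conjSub_bot bot_mem W_congr kap)

/-- transfer of the alternating sum along a Galois insertion -/
theorem W_galois {p : ℕ} {Γ G ι : Type} [Group Γ] [Finite Γ] [Group G] [Finite G] [Fintype ι]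
    (K : Set Γ) (Ki : ι → Set G) (a : Subgroup Γ → ι → Subgroup G)
    (b : (ι → Subgroup G) → Subgroup Γ)
    (ha : ∀ P ∈ inv p K, ∀ i, a P i ∈ inv p (Ki i))
    (hb : ∀ Q : ι → Subgroup G, (∀ i, Q i ∈ inv p (Ki i)) → b Q ∈ inv p K)
    (hab : ∀ Q : ι → Subgroup G, (∀ i, Q i ∈ inv p (Ki i)) → a (b Q) = Q)
    (hgc : ∀ P ∈ inv p K, ∀ Q : ι → Subgroup G, (∀ i, Q i ∈ inv p (Ki i)) →
      (P ≤ b Q ↔ ∀ i, a P i ≤ Q i))
    (hbot : b (fun _ => ⊥) = ⊥) :
    W p K = ∏ i, W p (Ki i) := by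
  choose f h1 hf using fun i => exists_weight p (Ki i)
  rw [W_of_weight (f := fun P => if P = b (a P) then ∏ i, f i (a P i) else 0)]
  · have h2 : a ⊥ = fun _ => ⊥ := by
      have := hab (fun _ => ⊥) (fun i => bot_mem _)
      rwa [hbot] at this
    simp only [h2, hbot, if_true, h1]
  · intro P hP
    rw [← Finset.sum_filter]
    have e : ∑ Q ∈ ((inv p K).filter (P ≤ ·)).filter (fun Q => Q = b (a Q)), ∏ i, f i (a Q i) =
        ∑ R ∈ Fintype.piFinset (fun i => (inv p (Ki i)).filter (a P i ≤ ·)),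
          ∏ i, f i (R i) := by
      refine Finset.sum_bij' (fun Q _ => a Q) (fun R _ => b R) ?_ ?_ ?_ ?_ ?_
      · intro Q hQ
        rw [Finset.mem_filter, Finset.mem_filter] at hQ
        obtain ⟨⟨a1, a2⟩, a3⟩ := hQ
        rw [a3] at a2
        have a4 := (hgc P hP (a Q) (ha Q a1)).mp a2
        rw [Fintype.mem_piFinset]
        intro i
        rw [Finset.mem_filter]
        exact ⟨ha Q a1 i, a4 i⟩
      · intro R hR
        rw [Fintype.mem_piFinset] at hR
        have h3 : ∀ i, R i ∈ inv p (Ki i) := fun i => (Finset.mem_filter.mp (hR i)).1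
        have h4 : ∀ i, a P i ≤ R i := fun i => (Finset.mem_filter.mp (hR i)).2
        rw [Finset.mem_filter, Finset.mem_filter]
        exact ⟨⟨hb R h3, (hgc P hP R h3).mpr h4⟩, by rw [hab R h3]⟩
      · intro Q hQ
        rw [Finset.mem_filter] at hQ
        exact hQ.2.symm
      · intro R hR
        rw [Fintype.mem_piFinset] at hR
        exact hab R fun i => (Finset.mem_filter.mp (hR i)).1
      · intro Q _
        rfl
    rw [e, ← Finset.prod_univ_sum]
    exact Finset.prod_eq_one fun i _ => hf i _ (ha P hP i)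

section embed

variable {p : ℕ} {Γ G ι : Type} [Group Γ] [Group G]

/-- homomorphisms and conjugation -/
theorem map_conjSub {H : Type} [Group H] (f : G →* H) (w : G) (P : Subgroup G) :
    (conjSub w P).map f = conjSub (f w) (P.map f) := by
  unfold conjSub
  rw [Subgroup.map_map, Subgroup.map_map]
  congr 1
  ext x
  simp

theorem comap_conjSub {H : Type} [Group H] (f : G →* H) (w : G) (P : Subgroup H) :
    (conjSub (f w) P).comap f = conjSub w (P.comap f) := by
  ext x
  rw [Subgroup.mem_comap, mem_conjSub, mem_conjSub, Subgroup.mem_comap, map_mul, map_mul, map_inv]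

/-- the projections of a subgroup -/
def pr (φ : (ι → G) →* Γ) (P : Subgroup Γ) (i : ι) : Subgroup G :=
  (P.comap φ).map (Pi.evalMonoidHom (fun _ => G) i)

/-- the product of a family of subgroups -/
def prd (φ : (ι → G) →* Γ) (Q : ι → Subgroup G) : Subgroup Γ := (Subgroup.pi Set.univ Q).map φ

theorem mem_pr {φ : (ι → G) →* Γ} {P : Subgroup Γ} {i : ι} {g : G} :
    g ∈ pr φ P i ↔ ∃ w : ι → G, φ w ∈ P ∧ w i = g := by
  unfold pr
  rw [Subgroup.mem_map]
  rfl

theorem mem_prd {φ : (ι → G) →* Γ} {Q : ι → Subgroup G} {x : Γ} :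
    x ∈ prd φ Q ↔ ∃ w : ι → G, (∀ i, w i ∈ Q i) ∧ φ w = x := by
  unfold prd
  rw [Subgroup.mem_map]
  constructor
  · rintro ⟨w, h1, h2⟩
    exact ⟨w, fun i => (Subgroup.mem_pi _).mp h1 i (Set.mem_univ i), h2⟩
  · rintro ⟨w, h1, h2⟩
    exact ⟨w, (Subgroup.mem_pi _).mpr fun i _ => h1 i, h2⟩

theorem prd_mem {φ : (ι → G) →* Γ} (hφ : Function.Injective φ) {Q : ι → Subgroup G} {w : ι → G} :
    φ w ∈ prd φ Q ↔ ∀ i, w i ∈ Q i := by
  rw [mem_prd]
  constructor
  · rintro ⟨w', h1, h2⟩
    rw [← hφ h2]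
    exact h1
  · intro h
    exact ⟨w, h, rfl⟩

theorem pr_prd {φ : (ι → G) →* Γ} (hφ : Function.Injective φ) (Q : ι → Subgroup G) (i : ι) :
    pr φ (prd φ Q) i = Q i := by
  ext g
  rw [mem_pr]
  constructor
  · rintro ⟨w, h1, rfl⟩
    exact (prd_mem hφ).mp h1 i
  · intro hg
    refine ⟨Function.update 1 i g, (prd_mem hφ).mpr fun j => ?_, by simp⟩
    by_cases h : j = i
    · subst h
      simpa using hg
    · rw [Function.update_of_ne h]
      exact (Q j).one_mem

theorem le_prd {φ : (ι → G) →* Γ} (hφ : Function.Injective φ) {P : Subgroup Γ}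
    (hP : P ≤ φ.range) {Q : ι → Subgroup G} : P ≤ prd φ Q ↔ ∀ i, pr φ P i ≤ Q i := by
  constructor
  · intro h i g hg
    obtain ⟨w, h1, rfl⟩ := mem_pr.mp hg
    exact (prd_mem hφ).mp (h h1) i
  · intro h x hx
    obtain ⟨w, rfl⟩ := hP hx
    exact (prd_mem hφ).mpr fun i => h i (mem_pr.mpr ⟨w, hx, rfl⟩)

theorem prd_bot {φ : (ι → G) →* Γ} : prd φ (fun _ => (⊥ : Subgroup G)) = ⊥ := by
  rw [eq_bot_iff]
  intro x hx
  obtain ⟨w, h1, rfl⟩ := mem_prd.mp hx
  have : w = 1 := funext fun i => Subgroup.mem_bot.mp (h1 i)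
  rw [this, map_one]
  exact Subgroup.one_mem _

theorem isPGroup_pr {φ : (ι → G) →* Γ} (hφ : Function.Injective φ) {P : Subgroup Γ}
    (h : IsPGroup p P) (i : ι) : IsPGroup p (pr φ P i) :=
  (h.comap_of_injective φ hφ).map _

theorem isPGroup_prd [Fintype ι] {φ : (ι → G) →* Γ} {Q : ι → Subgroup G}
    (h : ∀ i, IsPGroup p (Q i)) : IsPGroup p (prd φ Q) := by
  unfold prd
  apply IsPGroup.map
  rintro ⟨w, hw⟩
  have hw' : ∀ i, w i ∈ Q i := fun i => (Subgroup.mem_pi _).mp hw i (Set.mem_univ i)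
  choose m hm using fun i => h i ⟨w i, hw' i⟩
  refine ⟨∑ i, m i, ?_⟩
  apply Subtype.ext
  change w ^ p ^ (∑ i, m i) = 1
  funext i
  have h1 : w i ^ p ^ m i = 1 := congrArg Subtype.val (hm i)
  obtain ⟨k, hk⟩ := Nat.exists_eq_add_of_le (Finset.single_le_sum (f := m)
    (fun _ _ => Nat.zero_le _) (Finset.mem_univ i))
  rw [Pi.pow_apply, hk, pow_add, pow_mul, h1, one_pow, Pi.one_apply]

theorem pr_conj {φ : (ι → G) →* Γ} (w : ι → G) (P : Subgroup Γ) (i : ι) :
    pr φ (conjSub (φ w) P) i = conjSub (w i) (pr φ P i) := by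
  unfold pr
  rw [comap_conjSub, map_conjSub]
  rfl

theorem prd_conj {φ : (ι → G) →* Γ} (w : ι → G) (Q : ι → Subgroup G) :
    conjSub (φ w) (prd φ Q) = prd φ (fun i => conjSub (w i) (Q i)) := by
  unfold prd
  rw [← map_conjSub]
  congr 1
  ext x
  rw [mem_conjSub, Subgroup.mem_pi, Subgroup.mem_pi]
  refine forall₂_congr fun i _ => ?_
  rw [mem_conjSub]
  rfl

variable [Finite Γ] [Finite G] [Fintype ι]

/-- pairs in `G^ι` -/
theorem W_embed {φ : (ι → G) →* Γ} (hφ : Function.Injective φ)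
    (hr : ∀ P : Subgroup Γ, IsPGroup p P → P ≤ φ.range) (x y : ι → G) :
    W p ({φ x, φ y} : Set Γ) = ∏ i, W p ({x i, y i} : Set G) := by
  refine W_galois _ _ (pr φ) (prd φ) ?_ ?_ ?_ ?_ prd_bot
  · intro P hP i
    rw [mem_inv] at hP ⊢
    refine ⟨isPGroup_pr hφ hP.1 i, ?_⟩
    rintro z (rfl | rfl)
    · rw [← pr_conj, hP.2 _ (by simp)]
    · rw [← pr_conj, hP.2 _ (by simp)]
  · intro Q hQ
    rw [mem_inv]
    refine ⟨isPGroup_prd fun i => (mem_inv.mp (hQ i)).1, ?_⟩
    rintro z (rfl | rfl)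
    · rw [prd_conj]
      congr 1
      funext i
      exact (mem_inv.mp (hQ i)).2 _ (by simp)
    · rw [prd_conj]
      congr 1
      funext i
      exact (mem_inv.mp (hQ i)).2 _ (by simp)
  · intro Q _
    exact funext fun i => pr_prd hφ Q i
  · intro P hP Q _
    exact le_prd hφ (hr P (mem_inv.mp hP).1)

end embed

/-- the sum over the commuting pairs of a power -/
theorem kap_pi {p : ℕ} {G ι : Type} [Group G] [Fintype G] [Fintype ι] :
    kap p (ι → G) = kap p G ^ Fintype.card ι := by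
  unfold kap
  have h1 : ∀ x y : ι → G, (@ite ℤ (x * y = y * x) (Classical.propDecidable _)
      (W p ({x, y} : Set (ι → G))) 0) = ∏ i, (if x i * y i = y i * x i then W p ({x i, y i} : Set G) else 0) := by
    intro x y
    have hW := W_embed (p := p) (φ := MonoidHom.id (ι → G)) Function.injective_id
      (fun P _ => by rw [MonoidHom.range_eq_top.mpr Function.surjective_id]; exact le_top) x y
    simp only [MonoidHom.id_apply] at hW
    by_cases h : x * y = y * x
    · rw [if_pos h, hW]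
      refine Finset.prod_congr rfl fun i _ => ?_
      have hi : x i * y i = y i * x i := congrFun h i
      rw [if_pos hi]
    · rw [if_neg h]
      have : ∃ i, ¬ x i * y i = y i * x i := by
        by_contra hc
        push Not at hc
        exact h (funext hc)
      obtain ⟨i, hi⟩ := this
      exact (Finset.prod_eq_zero (Finset.mem_univ i) (if_neg hi)).symm
  simp_rw [h1]
  rw [← Finset.card_univ, ← Finset.prod_const]
  have h2 : ∀ x : ι → G, ∑ y : ι → G, ∏ i, (if x i * y i = y i * x i then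
      W p ({x i, y i} : Set G) else 0) =
      ∏ i, ∑ b : G, (if x i * b = b * x i then W p ({x i, b} : Set G) else 0) := by
    intro x
    rw [Finset.prod_univ_sum, Fintype.piFinset_univ]
  simp_rw [h2]
  rw [Finset.prod_univ_sum, Fintype.piFinset_univ]

end Pool.Agent.K1H2.KR
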