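import Mathlib

/-!
# Wreath products with cyclic groups of prime order
-/

set_option autoImplicit false

open scoped BigOperators Classical

noncomputable section

namespace Pool.Agent.K1H2.KR

/-- The wreath product of `G` with a cyclic group of order `q`: pairs `(v, s)` with
`v : ZMod q → G` and `s : ZMod q`, and `(v, s) (w, t) = (i ↦ v i * w (i + s), s + t)`. -/
@[ext] structure WrC (q : ℕ) (G : Type) where
  /-- the component in `G^q` -/
  v : ZMod q → G
  /-- the component in the cyclic group -/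
  s : ZMod q

namespace WrC

variable {q : ℕ} {G : Type}

/-- as a set, the wreath product is `G^q × ZMod q` -/
def eqv : WrC q G ≃ (ZMod q → G) × ZMod q where
  toFun x := (x.v, x.s)
  invFun t := ⟨t.1, t.2⟩
  left_inv _ := rfl
  right_inv _ := rfl

instance [Finite G] [NeZero q] : Finite (WrC q G) := Finite.of_equiv _ eqv.symm

instance [Fintype G] [NeZero q] : Fintype (WrC q G) := Fintype.ofEquiv _ eqv.symm

variable [Group G]

instance instMul : Mul (WrC q G) := ⟨fun x y => ⟨fun i => x.v i * y.v (i + x.s), x.s + y.s⟩⟩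

instance instOne : One (WrC q G) := ⟨⟨fun _ => 1, 0⟩⟩

instance instInv : Inv (WrC q G) := ⟨fun x => ⟨fun i => (x.v (i - x.s))⁻¹, -x.s⟩⟩

theorem mul_def (x y : WrC q G) : x * y = ⟨fun i => x.v i * y.v (i + x.s), x.s + y.s⟩ := rfl

theorem one_def : (1 : WrC q G) = ⟨fun _ => 1, 0⟩ := rfl

theorem inv_def (x : WrC q G) : x⁻¹ = ⟨fun i => (x.v (i - x.s))⁻¹, -x.s⟩ := rfl

@[simp] theorem mul_v (x y : WrC q G) (i : ZMod q) : (x * y).v i = x.v i * y.v (i + x.s) := rfl
@[simp] theorem mul_s (x y : WrC q G) : (x * y).s = x.s + y.s := rfl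
@[simp] theorem one_v (i : ZMod q) : (1 : WrC q G).v i = 1 := rfl
@[simp] theorem one_s : (1 : WrC q G).s = 0 := rfl
@[simp] theorem inv_v (x : WrC q G) (i : ZMod q) : (x⁻¹).v i = (x.v (i - x.s))⁻¹ := rfl
@[simp] theorem inv_s (x : WrC q G) : (x⁻¹).s = -x.s := rfl

instance instGroup : Group (WrC q G) where
  mul_assoc x y z := by
    ext i
    · simp only [mul_v, mul_s, mul_assoc, add_assoc]
    · simp only [mul_s, add_assoc]
  one_mul x := by
    ext i
    · simp
    · simp
  mul_one x := by
    ext i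
    · simp
    · simp
  inv_mul_cancel x := by
    ext i
    · simp [sub_eq_add_neg]
    · simp

theorem card [Finite G] [NeZero q] : Nat.card (WrC q G) = q * Nat.card G ^ q := by
  rw [Nat.card_congr eqv, Nat.card_prod, Nat.card_fun, Nat.card_zmod, mul_comm]

/-- the projection to the cyclic group -/
def sh : WrC q G →* Multiplicative (ZMod q) where
  toFun x := Multiplicative.ofAdd x.s
  map_one' := rfl
  map_mul' _ _ := rfl

theorem sh_eq_one {x : WrC q G} : sh x = 1 ↔ x.s = 0 := by
  change Multiplicative.ofAdd x.s = 1 ↔ _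
  rw [ofAdd_eq_one]

/-- the base group -/
def bs (q : ℕ) (G : Type) [Group G] : Subgroup (WrC q G) := (sh (q := q) (G := G)).ker

theorem mem_bs {x : WrC q G} : x ∈ bs q G ↔ x.s = 0 := by
  unfold bs
  rw [MonoidHom.mem_ker, sh_eq_one]

instance : (bs q G).Normal := MonoidHom.normal_ker _

/-- the base group is `G^q` -/
def bsEquiv : (ZMod q → G) ≃* bs q G where
  toFun w := ⟨⟨w, 0⟩, mem_bs.mpr rfl⟩
  invFun x := x.1.v
  left_inv _ := rfl
  right_inv x := by
    apply Subtype.ext
    ext i
    · rfl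
    · exact (mem_bs.mp x.2).symm
  map_mul' w w' := by
    apply Subtype.ext
    ext i
    · change w i * w' i = w i * w' (i + 0)
      rw [add_zero]
    · change (0 : ZMod q) = 0 + 0
      rw [add_zero]

theorem sh_surj : Function.Surjective (sh (q := q) (G := G)) := by
  intro t
  exact ⟨⟨fun _ => 1, Multiplicative.toAdd t⟩, rfl⟩

theorem index_bs : (bs q G).index = q := by
  unfold bs
  rw [Subgroup.index_ker, MonoidHom.range_eq_top.mpr sh_surj, Subgroup.card_top]
  exact Nat.card_zmod q

theorem card_bs [Finite G] [NeZero q] : Nat.card (WrC q G) = q * Nat.card (bs q G) := by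
  have h := (bs q G).card_mul_index
  rw [index_bs] at h
  rw [← h, mul_comm]

/-- a subgroup whose elements have order prime to `q` lies in the base group -/
theorem s_eq [hq : Fact q.Prime] {p : ℕ} [hp : Fact p.Prime] (hpq : q ≠ p) {P : Subgroup (WrC q G)}
    (h : IsPGroup p P) {x : WrC q G} (hx : x ∈ P) : x.s = 0 := by
  obtain ⟨m, hm⟩ := h ⟨x, hx⟩
  have h1 : x ^ p ^ m = 1 := congrArg Subtype.val hm
  have h2 := congrArg sh h1
  rw [map_pow, map_one] at h2
  have h3 : orderOf (sh x) ∣ p ^ m := orderOf_dvd_of_pow_eq_one h2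
  have h4 : orderOf (sh x) ∣ q := by
    have := orderOf_dvd_natCard (sh x)
    rwa [show Nat.card (Multiplicative (ZMod q)) = q from Nat.card_zmod q] at this
  have h5 : Nat.Coprime q (p ^ m) :=
    Nat.Coprime.pow_right m ((Nat.coprime_primes hq.out hp.out).mpr hpq)
  have h6 : orderOf (sh x) = 1 := Nat.eq_one_of_dvd_coprimes h5 h4 h3
  rw [orderOf_eq_one_iff, sh_eq_one] at h6
  exact h6

end WrC

end Pool.Agent.K1H2.KR
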