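import Pool.Agent.K1H2.KR.Tw

/-!
# The Knörr–Robinson sum of the wreath product
-/

set_option autoImplicit false
set_option linter.unusedSectionVars false

open scoped BigOperators Classical

noncomputable section

namespace Pool.Agent.K1H2.KR

open Pool.Agent.Y63.KR
open Pool.Agent.Q90.WR (inv mem_inv W_of_weight exists_weight conjSub_bot bot_mem W_congr kap)

variable {q p : ℕ} {G : Type} [Group G]

/-- the partial products of the coordinates, in the order of the powers of `t` -/
def pp (t : ZMod q) (b : ZMod q → G) : ℕ → G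
  | 0 => 1
  | k + 1 => pp t b k * b ((k : ZMod q) * t)

/-- the conjugating element -/
def cje (t : ZMod q) (b : ZMod q → G) : ZMod q → G := fun i => pp t b (i * t⁻¹).val

theorem cje_spec [hq : Fact q.Prime] {t : ZMod q} (ht : t ≠ 0) (b : ZMod q → G) (i : ZMod q) :
    cje t b i * b i * (cje t b (i + t))⁻¹ = nf t (pp t b q) i := by
  have hi : (((i * t⁻¹).val : ℕ) : ZMod q) * t = i := by
    rw [ZMod.natCast_zmod_val, mul_assoc, inv_mul_cancel₀ ht, mul_one]
  have hlt : (i * t⁻¹).val < q := ZMod.val_lt _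
  have h1 : cje t b i * b i = pp t b ((i * t⁻¹).val + 1) := by
    change pp t b (i * t⁻¹).val * b i = pp t b (i * t⁻¹).val * b (((i * t⁻¹).val : ZMod q) * t)
    rw [hi]
  have h2 : (i + t) * t⁻¹ = i * t⁻¹ + 1 := by
    rw [add_mul, mul_inv_cancel₀ ht]
  rw [h1]
  by_cases hc : i = -t
  · have h3 : (i + t) * t⁻¹ = 0 := by rw [hc]; simp
    have h4 : (i * t⁻¹).val + 1 = q := by
      have h5 : i * t⁻¹ = -1 := by
        rw [hc, neg_mul, mul_inv_cancel₀ ht]
      rw [h5]
      obtain ⟨m, rfl⟩ : ∃ m, q = m + 1 := ⟨q - 1, by have := hq.out.one_lt; omega⟩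
      rw [ZMod.val_neg_one]
    rw [h4, show nf t (pp t b q) i = pp t b q from if_pos hc]
    unfold cje
    rw [h3, ZMod.val_zero]
    simp [pp]
  · rw [show nf t (pp t b q) i = 1 from if_neg hc]
    unfold cje
    rw [h2]
    have h3 : (i * t⁻¹).val + 1 ≠ q := by
      intro h4
      apply hc
      have h5 : (((i * t⁻¹).val + 1 : ℕ) : ZMod q) = 0 := by rw [h4]; simp
      push_cast at h5
      rw [ZMod.natCast_zmod_val] at h5
      have h6 : i * t⁻¹ = -1 := eq_neg_of_add_eq_zero_left h5
      have h7 : i = (i * t⁻¹) * t := by rw [mul_assoc, inv_mul_cancel₀ ht, mul_one]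
      rw [h7, h6]
      ring
    have h4 : (i * t⁻¹ + 1).val = (i * t⁻¹).val + 1 := by
      rw [ZMod.val_add_of_lt]
      · rw [ZMod.val_one]
      · rw [ZMod.val_one]
        omega
    rw [h4, mul_inv_cancel]

theorem pp_update [hq : Fact q.Prime] {t : ZMod q} (ht : t ≠ 0) (b : ZMod q → G) (g : G) :
    ∀ k : ℕ, k < q → pp t (Function.update b 0 (g * b 0)) (k + 1) = g * pp t b (k + 1) := by
  intro k
  induction k with
  | zero =>
    intro _
    simp [pp]
  | succ k ih =>
    intro hk
    have h1 := ih (by omega)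
    change pp t (Function.update b 0 (g * b 0)) (k + 1) *
      (Function.update b 0 (g * b 0)) (((k + 1 : ℕ) : ZMod q) * t) =
      g * (pp t b (k + 1) * b (((k + 1 : ℕ) : ZMod q) * t))
    rw [h1, Function.update_of_ne, mul_assoc]
    intro h2
    have h5 := (mul_eq_zero.mp h2).resolve_right ht
    rw [ZMod.natCast_eq_zero_iff] at h5
    exact absurd (Nat.le_of_dvd (Nat.succ_pos k) h5) (by omega)

variable [Fintype G]

/-- the distribution of the full product -/
theorem sum_pp [hq : Fact q.Prime] {t : ZMod q} (ht : t ≠ 0) (ψ : G → ℤ) :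
    ∑ b : ZMod q → G, ψ (pp t b q) = (Nat.card G : ℤ) ^ (q - 1) * ∑ c : G, ψ c := by
  obtain ⟨m, hm⟩ : ∃ m, q = m + 1 := ⟨q - 1, by have := hq.out.one_lt; omega⟩
  have hG : (Nat.card G : ℤ) ≠ 0 := by exact_mod_cast Nat.card_pos.ne'
  apply mul_left_cancel₀ hG
  have h1 : ∀ g : G, ∑ b : ZMod q → G, ψ (pp t b q) = ∑ b : ZMod q → G, ψ (g * pp t b q) := by
    intro g
    let e : (ZMod q → G) ≃ (ZMod q → G) :=
      { toFun := fun b => Function.update b 0 (g * b 0)
        invFun := fun b => Function.update b 0 (g⁻¹ * b 0)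
        left_inv := fun b => by simp
        right_inv := fun b => by simp }
    rw [← Equiv.sum_comp e]
    refine Finset.sum_congr rfl fun b _ => ?_
    congr 1
    change pp t (Function.update b 0 (g * b 0)) q = _
    have h2 := pp_update ht b g m (by omega)
    rwa [← hm] at h2
  have h2 : (Nat.card G : ℤ) * ∑ b : ZMod q → G, ψ (pp t b q) =
      ∑ g : G, ∑ b : ZMod q → G, ψ (g * pp t b q) := by
    rw [← Finset.sum_congr rfl fun g _ => h1 g, Finset.sum_const, Finset.card_univ, nsmul_eq_mul,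
      Nat.card_eq_fintype_card]
  rw [h2, Finset.sum_comm]
  have h3 : ∀ b : ZMod q → G, ∑ g : G, ψ (g * pp t b q) = ∑ c : G, ψ c := fun b =>
    Equiv.sum_comp (Equiv.mulRight (pp t b q)) ψ
  rw [Finset.sum_congr rfl fun b _ => h3 b, Finset.sum_const, Finset.card_univ, nsmul_eq_mul,
    ← mul_assoc, ← pow_succ', Nat.sub_add_cancel hq.out.one_lt.le]
  congr 1
  rw [Fintype.card_fun, ZMod.card, Nat.card_eq_fintype_card]
  push_cast
  rfl

/-- pairs in normal form -/
theorem F_nf [hq : Fact q.Prime] [hp : Fact p.Prime] (hpq : q ≠ p) {t : ZMod q} (ht : t ≠ 0)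
    (c : G) : ∑ x : ZMod q → G, F p (inc x) (⟨nf t c, t⟩ : WrC q G) = ∑ x : G, F p x c := by
  have h1 : ∀ x : ZMod q → G, (inc x) * (⟨nf t c, t⟩ : WrC q G) = ⟨nf t c, t⟩ * inc x ↔
      (∀ i, x i * nf t c i = nf t c i * x (i + t)) := by
    intro x
    rw [WrC.ext_iff]
    constructor
    · rintro ⟨h, -⟩ i
      have h2 := congrFun h i
      change x i * nf t c (i + 0) = nf t c i * x (i + t) at h2
      rwa [add_zero] at h2
    · intro h
      refine ⟨funext fun i => ?_, ?_⟩
      · change x i * nf t c (i + 0) = nf t c i * x (i + t)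
        rw [add_zero]
        exact h i
      · change 0 + t = t + 0
        rw [add_zero, zero_add]
  have h2 : ∀ x : ZMod q → G, (∀ i, x i * nf t c i = nf t c i * x (i + t)) ↔
      (x = fun _ => x 0) ∧ x 0 * c = c * x 0 := by
    intro x
    constructor
    · intro h
      have h3 : ∀ i, x i = x 0 := by
        apply all_eq ht
        intro i hi
        have h4 := h i
        rw [show nf t c i = 1 from if_neg hi, mul_one, one_mul] at h4
        exact h4
      refine ⟨funext h3, ?_⟩
      have h4 := h (-t)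
      rw [show nf t c (-t) = c from if_pos rfl, neg_add_cancel, h3 (-t)] at h4
      exact h4
    · rintro ⟨h3, h4⟩ i
      rw [h3]
      by_cases hi : i = -t
      · rw [show nf t c i = c from if_pos hi]
        exact h4
      · rw [show nf t c i = 1 from if_neg hi, mul_one, one_mul]
  have h3 : ∀ x : ZMod q → G, F p (inc x) (⟨nf t c, t⟩ : WrC q G) =
      if (x = fun _ => x 0) then F p (x 0) c else 0 := by
    intro x
    unfold F
    by_cases h4 : x = fun _ => x 0
    · rw [if_pos h4]
      by_cases h5 : x 0 * c = c * x 0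
      · rw [if_pos h5, if_pos ((h1 x).mpr ((h2 x).mpr ⟨h4, h5⟩))]
        conv_lhs => rw [h4]
        exact W_tw hpq ht (x 0) c
      · rw [if_neg h5, if_neg]
        exact fun h6 => h5 ((h2 x).mp ((h1 x).mp h6)).2
    · rw [if_neg h4, if_neg]
      exact fun h6 => h4 ((h2 x).mp ((h1 x).mp h6)).1
  rw [Finset.sum_congr rfl fun x _ => h3 x, ← Finset.sum_filter]
  refine Finset.sum_bij' (fun x _ => x 0) (fun g _ => fun _ => g) ?_ ?_ ?_ ?_ ?_
  · intro x _
    exact Finset.mem_univ _
  · intro g _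
    rw [Finset.mem_filter]
    exact ⟨Finset.mem_univ _, rfl⟩
  · intro x hx
    exact (Finset.mem_filter.mp hx).2.symm
  · intro g _
    rfl
  · intro x _
    rfl

/-- the pairs with the first element in the base group and the second one in a given coset -/
theorem sum_zero_t [hq : Fact q.Prime] [hp : Fact p.Prime] (hpq : q ≠ p) {t : ZMod q}
    (ht : t ≠ 0) : ∑ b : ZMod q → G, ∑ x : ZMod q → G, F p (inc x) (⟨b, t⟩ : WrC q G) =
      (Nat.card G : ℤ) ^ (q - 1) * kap p G := by
  have h1 : ∀ b : ZMod q → G, ∑ x : ZMod q → G, F p (inc x) (⟨b, t⟩ : WrC q G) =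
      ∑ x : G, F p x (pp t b q) := by
    intro b
    rw [← F_nf hpq ht, ← Equiv.sum_comp (MulAut.conj (cje t b)).toEquiv
      (fun x => F p (inc x) (⟨nf t (pp t b q), t⟩ : WrC q G))]
    refine Finset.sum_congr rfl fun x _ => ?_
    rw [← F_conj (inc (cje t b))]
    congr 1
    · change _ = inc (cje t b * x * (cje t b)⁻¹)
      rw [map_mul, map_mul, map_inv]
    · ext i
      · change cje t b i * b (i + 0) * (cje t b (i + (0 + t) - 0))⁻¹ = _
        rw [add_zero, zero_add, sub_zero, cje_spec ht]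
      · change 0 + t + -0 = t
        simp
  rw [Finset.sum_congr rfl fun b _ => h1 b, sum_pp ht (fun c => ∑ x : G, F p x c), Finset.sum_comm]
  rfl

/-- summation over the wreath product -/
theorem sum_wr [NeZero q] (f : WrC q G → ℤ) :
    ∑ x : WrC q G, f x = ∑ s : ZMod q, ∑ v : ZMod q → G, f ⟨v, s⟩ := by
  rw [← Equiv.sum_comp (WrC.eqv (q := q) (G := G)).symm, Fintype.sum_prod_type, Finset.sum_comm]
  rfl

/-- translation by a power of the second element -/
theorem sum_shift [hq : Fact q.Prime] {t : ZMod q} (ht : t ≠ 0) (b : ZMod q → G) (s : ZMod q) :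
    ∑ v : ZMod q → G, F p (⟨v, s⟩ : WrC q G) (⟨b, t⟩ : WrC q G) =
      ∑ x : ZMod q → G, F p (inc x) (⟨b, t⟩ : WrC q G) := by
  set Y : WrC q G := ⟨b, t⟩ with hY
  set m : ℕ := (-s * t⁻¹).val with hm
  have hs : ∀ k : ℕ, (Y ^ k).s = (k : ZMod q) * t := by
    intro k
    induction k with
    | zero => simp
    | succ k ih =>
      rw [pow_succ, WrC.mul_s, ih]
      push_cast
      rw [add_mul, one_mul]
  have h1 : s + (Y ^ m).s = 0 := by
    rw [hs, hm, ZMod.natCast_zmod_val, mul_assoc, inv_mul_cancel₀ ht, mul_one, add_neg_cancel]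
  rw [← Equiv.sum_comp (Equiv.mulRight (fun i : ZMod q => (Y ^ m).v (i + s)))
    (fun x => F p (inc x) Y)]
  refine Finset.sum_congr rfl fun v _ => ?_
  rw [← F_mul_pow p _ Y m]
  congr 1
  ext i
  · rfl
  · exact h1

theorem kap_inst {Γ : Type} [Group Γ] (i j : Fintype Γ) :
    @kap p Γ _ i = @kap p Γ _ j := by
  rw [Subsingleton.elim i j]

/-- **the recursion for the wreath product** -/
theorem kap_wr [hq : Fact q.Prime] [hp : Fact p.Prime] (hpq : q ≠ p) :
    kap p (WrC q G) = kap p G ^ q +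
      ((q : ℤ) ^ 2 - 1) * ((Nat.card G : ℤ) ^ (q - 1) * kap p G) := by
  have h0 : kap p (WrC q G) = ∑ t : ZMod q, ∑ b : ZMod q → G, ∑ s : ZMod q,
      ∑ v : ZMod q → G, F p (⟨v, s⟩ : WrC q G) ⟨b, t⟩ := by
    rw [kap_F, Finset.sum_comm, sum_wr]
    refine Finset.sum_congr rfl fun t _ => Finset.sum_congr rfl fun b _ => ?_
    rw [sum_wr]
  have h1 : ∀ t : ZMod q, t ≠ 0 → ∑ b : ZMod q → G, ∑ s : ZMod q,
      ∑ v : ZMod q → G, F p (⟨v, s⟩ : WrC q G) ⟨b, t⟩ =
      q * ((Nat.card G : ℤ) ^ (q - 1) * kap p G) := by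
    intro t ht
    rw [← sum_zero_t hpq ht, Finset.mul_sum]
    refine Finset.sum_congr rfl fun b _ => ?_
    rw [Finset.sum_congr rfl fun s _ => sum_shift ht b s, Finset.sum_const, Finset.card_univ,
      ZMod.card, nsmul_eq_mul]
  have h2 : ∑ b : ZMod q → G, ∑ s : ZMod q, ∑ v : ZMod q → G,
      F p (⟨v, s⟩ : WrC q G) ⟨b, 0⟩ = kap p G ^ q +
      ((q : ℤ) - 1) * ((Nat.card G : ℤ) ^ (q - 1) * kap p G) := by
    rw [Finset.sum_comm, ← Finset.add_sum_erase _ _ (Finset.mem_univ (0 : ZMod q))]
    congr 1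
    · have h3 : kap p (ZMod q → G) = kap p G ^ q := by
        have h4 := kap_pi (p := p) (G := G) (ι := ZMod q)
        rw [ZMod.card] at h4
        exact (kap_inst _ _).trans h4
      rw [← h3, kap_F, Finset.sum_comm]
      refine Finset.sum_congr rfl fun x _ => Finset.sum_congr rfl fun y _ => ?_
      unfold F
      have hW := W_embed (p := p) (φ := inc (q := q) (G := G)) inc_inj
        (fun P hP => inc_range hpq hP) x y
      have hW' := W_embed (p := p) (φ := MonoidHom.id (ZMod q → G)) Function.injective_id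
        (fun P _ => by rw [MonoidHom.range_eq_top.mpr Function.surjective_id]; exact le_top) x y
      simp only [MonoidHom.id_apply] at hW'
      have hc : inc x * inc y = inc y * inc x ↔ x * y = y * x := by
        rw [← map_mul, ← map_mul, inc_inj.eq_iff]
      change (if inc x * inc y = inc y * inc x then W p ({inc x, inc y} : Set (WrC q G)) else 0) = _
      by_cases h : x * y = y * x
      · rw [if_pos (hc.mpr h), if_pos h, hW, hW']
      · rw [if_neg (fun h' => h (hc.mp h')), if_neg h]
    · have h3 : ∀ s ∈ Finset.univ.erase (0 : ZMod q), ∑ b : ZMod q → G, ∑ v : ZMod q → G,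
          F p (⟨v, s⟩ : WrC q G) ⟨b, 0⟩ = (Nat.card G : ℤ) ^ (q - 1) * kap p G := by
        intro s hs
        rw [← sum_zero_t hpq (Finset.ne_of_mem_erase hs), Finset.sum_comm]
        refine Finset.sum_congr rfl fun v _ => Finset.sum_congr rfl fun b _ => ?_
        exact F_comm p _ _
      rw [Finset.sum_congr rfl h3, Finset.sum_const, nsmul_eq_mul,
        Finset.card_erase_of_mem (Finset.mem_univ _), Finset.card_univ, ZMod.card,
        Nat.cast_sub hq.out.one_lt.le, Nat.cast_one]
  rw [h0, ← Finset.add_sum_erase _ _ (Finset.mem_univ (0 : ZMod q)), h2,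
    Finset.sum_congr rfl fun t ht => h1 t (Finset.ne_of_mem_erase ht), Finset.sum_const,
    nsmul_eq_mul, Finset.card_erase_of_mem (Finset.mem_univ _), Finset.card_univ, ZMod.card,
    Nat.cast_sub hq.out.one_lt.le, Nat.cast_one]
  ring

end Pool.Agent.K1H2.KR
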