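import Pool.Agent.K1H2.KR.Clq
import Pool.Agent.K1H2.KR.Cpl
import Pool.Agent.Q90.WR.Dad

/-!
# Characters of powers of a group
-/

set_option autoImplicit false
set_option linter.unusedSectionVars false

open scoped BigOperators Classical

noncomputable section

namespace Pool.Agent.K1H2.KR

open Representation Pool.Agent.Helper884.IC Pool.Agent.Y63.AWC
open Pool.Agent.Q90.WR (box box_irr box_cover box_inj)

/-- the product of functions of the coordinates -/
def boxI {ι G : Type} [Fintype ι] (θ : ι → G → ℂ) : (ι → G) → ℂ := fun v => ∏ i, θ i (v i)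

section

variable {G : Type} [Group G]

/-- transport along an isomorphism -/
theorem irr_comp_iff {H K : Type} [Group H] [Group K] (e : H ≃* K) {χ : K → ℂ} :
    IsIrrChar (fun x => χ (e x)) ↔ IsIrrChar χ := by
  constructor
  · intro h
    have h1 := irr_comp e.symm h
    have h2 : (fun x => (fun y => χ (e y)) (e.symm x)) = χ := by
      funext x
      change χ (e (e.symm x)) = χ x
      rw [e.apply_symm_apply]
    rwa [h2] at h1
  · exact irr_comp e

/-- splitting off the first coordinate -/
def consEquiv (n : ℕ) (G : Type) [Group G] : (Fin (n + 1) → G) ≃* G × (Fin n → G) where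
  toFun v := (v 0, fun i => v i.succ)
  invFun t := Fin.cons t.1 t.2
  left_inv v := by
    funext i
    refine Fin.cases ?_ (fun j => ?_) i <;> simp
  right_inv t := by simp
  map_mul' v w := rfl

theorem irr_fin [Fintype G] : ∀ (n : ℕ) (χ : (Fin n → G) → ℂ), IsIrrChar χ ↔
    ∃ θ : Fin n → G → ℂ, (∀ i, IsIrrChar (θ i)) ∧ χ = boxI θ := by
  intro n
  induction n with
  | zero =>
    have h1 : ∀ χ : (Fin 0 → G) → ℂ, IsIrrChar χ → χ = fun _ => 1 := by
      intro χ h
      obtain ⟨d, hd0, hd⟩ := deg_nat h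
      have h2 := deg_dvd h hd
      rw [Nat.card_unique, Nat.dvd_one] at h2
      funext x
      rw [Subsingleton.elim x 1, hd, h2]
      simp
    have h2 : ∃ χ : (Fin 0 → G) → ℂ, IsIrrChar χ := by
      by_contra hc
      push Not at hc
      have := class_eq_zero (G := Fin 0 → G) (fun _ => 1) (fun _ _ => rfl)
        (fun χ h => absurd h (hc χ))
      exact one_ne_zero (congrFun this 1)
    intro χ
    constructor
    · intro h
      refine ⟨fun i => i.elim0, fun i => i.elim0, ?_⟩
      rw [h1 χ h]
      funext x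
      simp [boxI]
    · rintro ⟨θ, -, rfl⟩
      obtain ⟨χ, h⟩ := h2
      have h3 : boxI θ = χ := by
        rw [h1 χ h]
        funext x
        simp [boxI]
      rw [h3]
      exact h
  | succ n ih =>
    intro χ
    constructor
    · intro h
      have h1 : IsIrrChar (fun t => χ ((consEquiv n G).symm t)) := irr_comp _ h
      obtain ⟨θ₀, ψ, h2, h3, h4⟩ := box_cover h1
      obtain ⟨θ, h5, h6⟩ := (ih ψ).mp h3
      refine ⟨Fin.cons θ₀ θ, ?_, ?_⟩
      · intro i
        refine Fin.cases ?_ (fun j => ?_) i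
        · simpa using h2
        · simpa using h5 j
      · funext v
        have h7 := congrFun h4 (consEquiv n G v)
        simp only [MulEquiv.symm_apply_apply] at h7
        rw [h7]
        unfold boxI
        rw [Fin.prod_univ_succ]
        change θ₀ (v 0) * ψ (fun i => v i.succ) = _
        rw [h6]
        simp [boxI]
    · rintro ⟨θ, h1, rfl⟩
      have h2 : IsIrrChar (boxI fun i : Fin n => θ i.succ) := (ih _).mpr ⟨_, fun i => h1 i.succ, rfl⟩
      have h3 := irr_comp (consEquiv n G) (box_irr (h1 0) h2)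
      have h4 : (fun x => box (θ 0) (boxI fun i : Fin n => θ i.succ) (consEquiv n G x)) =
          boxI θ := by
        funext v
        unfold boxI
        rw [Fin.prod_univ_succ]
        rfl
      rwa [h4] at h3

/-- reindexing -/
def reEquiv {ι κ : Type} (e : ι ≃ κ) (G : Type) [Group G] : (ι → G) ≃* (κ → G) where
  toFun v := fun k => v (e.symm k)
  invFun v := fun i => v (e i)
  left_inv v := by funext i; simp
  right_inv v := by funext i; simp
  map_mul' v w := rfl

theorem irr_pi [Fintype G] {ι : Type} [Fintype ι] (χ : (ι → G) → ℂ) : IsIrrChar χ ↔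
    ∃ θ : ι → G → ℂ, (∀ i, IsIrrChar (θ i)) ∧ χ = boxI θ := by
  set e := Fintype.equivFin ι
  have h0 : IsIrrChar (fun v => χ ((reEquiv e G).symm v)) ↔ IsIrrChar χ := irr_comp_iff _
  rw [← h0, irr_fin]
  constructor
  · rintro ⟨θ, h1, h2⟩
    refine ⟨fun i => θ (e i), fun i => h1 _, ?_⟩
    funext v
    have h3 := congrFun h2 (reEquiv e G v)
    simp only [MulEquiv.symm_apply_apply] at h3
    rw [h3]
    unfold boxI
    rw [← Equiv.prod_comp e]
    refine Finset.prod_congr rfl fun i _ => ?_
    change θ (e i) (v (e.symm (e i))) = _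
    rw [Equiv.symm_apply_apply]
  · rintro ⟨θ, h1, rfl⟩
    refine ⟨fun k => θ (e.symm k), fun k => h1 _, ?_⟩
    funext v
    unfold boxI
    rw [← Equiv.prod_comp e]
    refine Finset.prod_congr rfl fun i _ => ?_
    change θ i (v (e i)) = θ (e.symm (e i)) (v (e i))
    rw [Equiv.symm_apply_apply]

theorem B_boxI [Fintype G] {ι : Type} [Fintype ι] (θ ψ : ι → G → ℂ) :
    B (boxI θ) (boxI ψ) = ∏ i, B (θ i) (ψ i) := by
  unfold B boxI
  rw [Finset.prod_mul_distrib, Finset.prod_univ_sum, Fintype.piFinset_univ, Nat.card_fun,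
    Finset.prod_const, Finset.card_univ, ← Nat.card_eq_fintype_card (α := ι)]
  push_cast
  rw [inv_pow]
  congr 1
  refine Finset.sum_congr rfl fun v _ => ?_
  rw [← Finset.prod_mul_distrib]
  rfl

theorem boxI_inj [Fintype G] {ι : Type} [Fintype ι] {θ ψ : ι → G → ℂ}
    (h1 : ∀ i, IsIrrChar (θ i)) (h2 : ∀ i, IsIrrChar (ψ i)) (h : boxI θ = boxI ψ) : θ = ψ := by
  have e1 := B_boxI θ θ
  have e2 := B_boxI θ ψ
  rw [← h, e1] at e2
  rw [Finset.prod_eq_one fun i _ => by rw [B_irr (h1 i) (h1 i), if_pos rfl]] at e2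
  funext i
  by_contra hc
  have : B (θ i) (ψ i) = 0 := by rw [B_irr (h1 i) (h2 i), if_neg hc]
  rw [Finset.prod_eq_zero (Finset.mem_univ i) this] at e2
  exact one_ne_zero e2

variable {p : ℕ} [hp : Fact p.Prime]

theorem dz_boxI [Fintype G] {ι : Type} [Fintype ι] {θ : ι → G → ℂ}
    (h : ∀ i, IsIrrChar (θ i)) : DZ p (boxI θ) ↔ ∀ i, DZ p (θ i) := by
  choose d hd0 hd using fun i => deg_nat (h i)
  have hle : ∀ i, (d i).factorization p ≤ (Nat.card G).factorization p := fun i =>
    (Nat.factorization_le_iff_dvd (hd0 i).ne' Nat.card_pos.ne').2 (deg_dvd (h i) (hd i)) p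
  have h1 : boxI θ 1 = ((∏ i, d i : ℕ) : ℂ) := by
    unfold boxI
    push_cast
    exact Finset.prod_congr rfl fun i _ => hd i
  have h2 : (∏ i, d i).factorization p = ∑ i, (d i).factorization p := by
    rw [Nat.factorization_prod fun i _ => (hd0 i).ne', Finsupp.coe_finsetSum, Finset.sum_apply]
  have h3 : (Nat.card (ι → G)).factorization p = ∑ _i : ι, (Nat.card G).factorization p := by
    rw [Nat.card_fun, Nat.factorization_pow, Finsupp.smul_apply, Finset.sum_const,
      Finset.card_univ, Nat.card_eq_fintype_card (α := ι)]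
  have h4 : DZ p (boxI θ) ↔ ∑ i, (d i).factorization p = ∑ _i : ι, (Nat.card G).factorization p := by
    rw [← h2, ← h3]
    constructor
    · rintro ⟨n, hn, hf⟩
      rw [h1] at hn
      have : n = ∏ i, d i := by exact_mod_cast hn.symm
      rw [← this]
      exact hf
    · intro hf
      exact ⟨_, h1, hf⟩
  have h5 : ∀ i, DZ p (θ i) ↔ (d i).factorization p = (Nat.card G).factorization p := by
    intro i
    constructor
    · rintro ⟨n, hn, hf⟩
      rw [hd i] at hn
      have : n = d i := by exact_mod_cast hn.symm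
      rw [← this]
      exact hf
    · intro hf
      exact ⟨_, hd i, hf⟩
  rw [h4]
  simp only [h5]
  constructor
  · intro h6 i
    by_contra hc
    have h7 : (d i).factorization p < (Nat.card G).factorization p := lt_of_le_of_ne (hle i) hc
    exact absurd h6 (Finset.sum_lt_sum (fun j _ => hle j) ⟨i, Finset.mem_univ i, h7⟩).ne
  · intro h6
    exact Finset.sum_congr rfl fun i _ => h6 i

/-- **characters of defect zero of powers** -/
theorem numDefectZero_pi [Finite G] {ι : Type} [Fintype ι] :
    numDefectZero p (ι → G) = numDefectZero p G ^ Fintype.card ι := by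
  have := Fintype.ofFinite G
  rw [← Nat.card_eq_fintype_card (α := ι)]
  unfold numDefectZero
  rw [← Nat.card_fun]
  symm
  refine Nat.card_congr (Equiv.ofBijective
    (fun f : ι → {χ : G → ℂ // IsIrreducibleCharacter χ ∧
      ∃ n : ℕ, χ 1 = (n : ℂ) ∧ n.factorization p = (Nat.card G).factorization p} =>
      (⟨boxI fun i => (f i).1, (irr_pi _).mpr ⟨_, fun i => (f i).2.1, rfl⟩,
        (dz_boxI fun i => (f i).2.1).mpr fun i => (f i).2.2⟩ :
        {χ : (ι → G) → ℂ // IsIrreducibleCharacter χ ∧
      ∃ n : ℕ, χ 1 = (n : ℂ) ∧ n.factorization p = (Nat.card (ι → G)).factorization p}))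
    ⟨?_, ?_⟩)
  · intro f g h
    have h1 := boxI_inj (fun i => (f i).2.1) (fun i => (g i).2.1) (congrArg Subtype.val h)
    funext i
    exact Subtype.ext (congrFun h1 i)
  · rintro ⟨χ, h1, h2⟩
    obtain ⟨θ, h3, rfl⟩ := (irr_pi χ).mp h1
    have h4 := (dz_boxI h3).mp h2
    exact ⟨fun i => ⟨θ i, h3 i, h4 i⟩, rfl⟩

end

end Pool.Agent.K1H2.KR
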