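import Pool.Agent.K1H2.KR.Zwr
import Pool.Agent.Y63.KR.Chi

/-!
# The two sides of the Knörr–Robinson conjecture for wreath products with cyclic groups of prime
order, and divisibility
-/

set_option autoImplicit false
set_option linter.unusedSectionVars false

open scoped BigOperators Classical

noncomputable section

namespace Pool.Agent.K1H2.KR

open Pool.Agent.Y63.KR
open Pool.Agent.Y63.AWC (numDefectZero numDefectZero_congr)
open Pool.Agent.Q90.WR (kap altK card_mul_altK krc_altK)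
open Pool.Agent.R674.Ce (AK DK AK_formula AK_congr krDiff)

variable {G : Type} [Group G] {q : ℕ} [hq : Fact q.Prime] {p : ℕ} [hp : Fact p.Prime]

/-- the Knörr–Robinson sum of the wreath product, `q ≠ p` -/
theorem f_wr [Finite G] (hpq : q ≠ p) : (q : ℤ) * altK p (WrC q G) =
    altK p G ^ q + ((q : ℤ) ^ 2 - 1) * altK p G := by
  have := Fintype.ofFinite G
  have h1 := card_mul_altK (p := p) (G := WrC q G)
  rw [kap_wr hpq, ← card_mul_altK, WrC.card] at h1
  have h0 : ((Nat.card G : ℤ)) ^ q ≠ 0 :=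
    pow_ne_zero q (by exact_mod_cast Nat.card_pos.ne')
  apply mul_left_cancel₀ h0
  push_cast at h1
  have h2 : (Nat.card G : ℤ) ^ (q - 1) * Nat.card G = (Nat.card G : ℤ) ^ q := by
    rw [← pow_succ, Nat.sub_add_cancel hq.out.one_lt.le]
  rw [mul_pow] at h1
  calc (Nat.card G : ℤ) ^ q * (q * altK p (WrC q G)) =
      q * (Nat.card G : ℤ) ^ q * altK p (WrC q G) := by ring
    _ = _ := h1
    _ = (Nat.card G : ℤ) ^ q * altK p G ^ q +
        ((q : ℤ) ^ 2 - 1) * (((Nat.card G : ℤ) ^ (q - 1) * Nat.card G) * altK p G) := by ring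
    _ = _ := by rw [h2]; ring

/-- the Knörr–Robinson sum of the wreath product, `q = p` -/
theorem f_wr_p [Finite G] : (p : ℤ) * altK p (WrC p G) = altK p G ^ p - altK p G := by
  have := Fintype.ofFinite G
  have h1 := AK_formula (p := p) (WrC.index_bs (q := p) (G := G))
  rw [sum_cpl (p := p) (G := G) (fun H _ => AK p H) (fun H K _ _ _ _ e => AK_congr e),
    ← AK_congr (p := p) (WrC.bsEquiv (q := p) (G := G))] at h1
  have h2 : AK p (ZMod p → G) = ((Nat.card G : ℤ) * altK p G) ^ p := by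
    have h4 := kap_pi (p := p) (G := G) (ι := ZMod p)
    rw [ZMod.card] at h4
    rw [card_mul_altK, ← h4]
    change (Nat.card (ZMod p → G) : ℤ) * altK p (ZMod p → G) = _
    exact (card_mul_altK (p := p) (G := ZMod p → G)).trans (kap_inst _ _)
  rw [h2] at h1
  have h5 : AK p (WrC p G) = (Nat.card (WrC p G) : ℤ) * altK p (WrC p G) := rfl
  have h6 : AK p G = (Nat.card G : ℤ) * altK p G := rfl
  rw [h5, h6, WrC.card] at h1
  push_cast at h1
  have h0 : ((Nat.card G : ℤ)) ^ p ≠ 0 :=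
    pow_ne_zero p (by exact_mod_cast Nat.card_pos.ne')
  apply mul_left_cancel₀ h0
  have h7 : (Nat.card G : ℤ) ^ (p - 1) * Nat.card G = (Nat.card G : ℤ) ^ p := by
    rw [← pow_succ, Nat.sub_add_cancel hp.out.one_lt.le]
  rw [mul_pow] at h1
  calc (Nat.card G : ℤ) ^ p * (p * altK p (WrC p G)) =
      p * (Nat.card G : ℤ) ^ p * altK p (WrC p G) := by ring
    _ = _ := h1
    _ = (Nat.card G : ℤ) ^ p * altK p G ^ p -
        ((Nat.card G : ℤ) ^ (p - 1) * Nat.card G) * altK p G := by ring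
    _ = _ := by rw [h7]; ring

/-- the coefficient of the recursion -/
def cf (q p : ℕ) : ℤ := if q = p then -1 else (q : ℤ) ^ 2 - 1

omit hp in
theorem cf_coprime : IsCoprime (cf q p) (q : ℤ) := by
  unfold cf
  split_ifs
  · exact isCoprime_one_left.neg_left
  · exact ⟨-1, q, by ring⟩

theorem rec_f [Finite G] : (q : ℤ) * altK p (WrC q G) = altK p G ^ q + cf q p * altK p G := by
  unfold cf
  by_cases h : q = p
  · subst h
    rw [if_pos rfl, f_wr_p]
    ring
  · rw [if_neg h, f_wr h]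

theorem rec_z [Finite G] : (q : ℤ) * numDefectZero p (WrC q G) =
    (numDefectZero p G : ℤ) ^ q + cf q p * numDefectZero p G := by
  unfold cf
  by_cases h : q = p
  · subst h
    rw [if_pos rfl, z_wr_p]
    ring
  · rw [if_neg h, z_wr h]

/-- the arithmetic step -/
theorem step {a : ℕ} {x y x' y' c : ℤ} (hc : IsCoprime c (q : ℤ))
    (hx : (q : ℤ) * x' = x ^ q + c * x) (hy : (q : ℤ) * y' = y ^ q + c * y)
    (h1 : (q : ℤ) ^ (a + 1) ∣ x - y) (h2 : (q : ℤ) ^ (a + 1) ∣ x' - y') :
    (q : ℤ) ^ (a + 2) ∣ x - y := by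
  have h3 : (q : ℤ) ^ (a + 2) ∣ x ^ q - y ^ q := by
    have h4 : (q : ℤ) ∣ x - y := (dvd_pow_self _ (Nat.succ_ne_zero a)).trans h1
    have h5 : (q : ℤ) ∣ ∑ i ∈ Finset.range q, x ^ i * y ^ (q - 1 - i) := dvd_geom_sum₂_self h4
    rw [← geom_sum₂_mul, pow_succ']
    exact mul_dvd_mul h5 h1
  have h4 : (q : ℤ) ^ (a + 2) ∣ (q : ℤ) * (x' - y') := by
    rw [pow_succ']
    exact mul_dvd_mul_left _ h2
  have h5 : c * (x - y) = (q : ℤ) * (x' - y') - (x ^ q - y ^ q) := by
    rw [mul_sub, mul_sub, hx, hy]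
    ring
  have h6 : (q : ℤ) ^ (a + 2) ∣ c * (x - y) := by
    rw [h5]
    exact dvd_sub h4 h3
  exact (hc.symm.pow_left).dvd_of_dvd_mul_left h6

/-- the difference of the two sides -/
theorem krDiff_int [Finite G] : krDiff p G = ((altK p G - numDefectZero p G : ℤ) : ℚ) := by
  have h := altSum_classes (p := p) (G := G)
  unfold krDiff altK
  rw [← h]
  push_cast
  ring

/-! ### Iterated wreath products -/

/-- The iterated wreath product `(⋯(G ≀ C_q) ≀ ⋯) ≀ C_q`, with `n` factors `C_q`. -/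
def It (q : ℕ) : ℕ → Type → Type
  | 0, G => G
  | n + 1, G => It q n (WrC q G)

/-- The group structure of the iterated wreath product. -/
@[reducible] def groupIt (q : ℕ) : (n : ℕ) → (G : Type) → Group G → Group (It q n G)
  | 0, _, i => i
  | n + 1, G, i => groupIt q n (WrC q G) (@WrC.instGroup q G i)

instance instGroupIt (q n : ℕ) (G : Type) [i : Group G] : Group (It q n G) := groupIt q n G i

theorem finite_It (q : ℕ) [NeZero q] : ∀ (n : ℕ) (G : Type) [Finite G], Finite (It q n G)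
  | 0, _, i => i
  | n + 1, G, _ => finite_It q n (WrC q G)

instance (q : ℕ) [NeZero q] (n : ℕ) (G : Type) [Finite G] : Finite (It q n G) := finite_It q n G

theorem it_dvd (q : ℕ) [Fact q.Prime] (p : ℕ) [Fact p.Prime] : ∀ (a : ℕ) (G : Type) [Group G]
    [Finite G], (∀ j ≤ a, (q : ℤ) ∣ altK p (It q j G) - numDefectZero p (It q j G)) →
    (q : ℤ) ^ (a + 1) ∣ altK p G - numDefectZero p G := by
  intro a
  induction a with
  | zero =>
    intro G _ _ H
    rw [zero_add, pow_one]
    exact H 0 le_rfl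
  | succ a ih =>
    intro G _ _ H
    exact step cf_coprime (rec_f (q := q)) (rec_z (q := q)) (ih G fun j hj => H j (by omega))
      (ih (WrC q G) fun j hj => H (j + 1) (by omega))

theorem it_levels (q : ℕ) [hq : Fact q.Prime] (p : ℕ) [Fact p.Prime] : ∀ (a : ℕ) (G : Type)
    [Group G] [Finite G], altK p G = numDefectZero p G →
      altK p (It q a G) = numDefectZero p (It q a G) := by
  intro a
  induction a with
  | zero => exact fun G _ _ h => h
  | succ a ih =>
    intro G _ _ h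
    refine ih (WrC q G) ?_
    have h1 := rec_f (G := G) (q := q) (p := p)
    have h2 := rec_z (G := G) (q := q) (p := p)
    rw [h, ← h2] at h1
    exact mul_left_cancel₀ (by exact_mod_cast hq.out.ne_zero) h1

theorem zero_of_all {d : ℤ} (h : ∀ a : ℕ, (q : ℤ) ^ (a + 1) ∣ d) : d = 0 := by
  by_contra hne
  have h1 := h d.natAbs
  have h2 : (q : ℤ) ^ (d.natAbs + 1) ≤ |d| := Int.le_of_dvd (abs_pos.mpr hne) ((dvd_abs _ _).mpr h1)
  have h3 : d.natAbs + 1 < q ^ (d.natAbs + 1) := Nat.lt_pow_self hq.out.one_lt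
  rw [Int.abs_eq_natAbs] at h2
  have h4 : q ^ (d.natAbs + 1) ≤ d.natAbs := by exact_mod_cast h2
  omega

/-- **one group** -/
theorem krc_it (q : ℕ) [Fact q.Prime] (p : ℕ) [Fact p.Prime] (G : Type) [Group G] [Finite G] :
    KRC p G ↔ ∀ j : ℕ, ∃ c : ℤ, krDiff p (It q j G) = q * c := by
  rw [krc_altK]
  have key : ∀ j, (∃ c : ℤ, krDiff p (It q j G) = q * c) ↔
      (q : ℤ) ∣ altK p (It q j G) - numDefectZero p (It q j G) := by
    intro j
    rw [krDiff_int]
    constructor
    · rintro ⟨c, hc⟩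
      exact ⟨c, by exact_mod_cast hc⟩
    · rintro ⟨c, hc⟩
      exact ⟨c, by rw [hc]; push_cast; ring⟩
  simp only [key]
  constructor
  · intro h j
    rw [it_levels q p j G h, sub_self]
    exact dvd_zero _
  · intro h
    exact sub_eq_zero.mp (zero_of_all (q := q) fun a => it_dvd q p a G fun j _ => h j)

/-- **all groups** -/
theorem krc_mod (N : ℕ) (hN : 2 ≤ N) (p : ℕ) [Fact p.Prime] :
    (∀ (G : Type) [Group G] [Finite G], KRC p G) ↔
    ∀ (G : Type) [Group G] [Finite G], ∃ c : ℤ, krDiff p G = N * c := by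
  constructor
  · intro h G _ _
    refine ⟨0, ?_⟩
    rw [krDiff_int, (krc_altK G).mp (h G)]
    simp
  · intro h G _ _
    obtain ⟨q, hq, hqN⟩ := Nat.exists_prime_and_dvd (show N ≠ 1 by omega)
    have : Fact q.Prime := ⟨hq⟩
    rw [krc_it q p G]
    intro j
    obtain ⟨c, hc⟩ := h (It q j G)
    obtain ⟨m, hm⟩ := hqN
    refine ⟨m * c, ?_⟩
    rw [hc, hm]
    push_cast
    ring

end Pool.Agent.K1H2.KR
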