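import Pool.Agent.Y63.KR.Basic

/-!
# Sylow subgroups of centralisers of tuples in the stabilisers of chains
-/

set_option autoImplicit false
set_option linter.unusedSectionVars false

open scoped BigOperators Classical

noncomputable section

namespace Pool.Agent.K1H2.KR

open Pool.Agent.Y63.KR

variable {p : ℕ} {G : Type} [Group G]

/-- `T` is a Sylow `p`-subgroup of `C` -/
def IsSyl (p : ℕ) (T C : Subgroup G) : Prop :=
  T ≤ C ∧ IsPGroup p T ∧ ∀ T' : Subgroup G, T ≤ T' → T' ≤ C → IsPGroup p T' → T' ≤ T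

theorem isPGroup_subgroupOf {T C : Subgroup G} (h : IsPGroup p T) : IsPGroup p (T.subgroupOf C) :=
  h.comap_subtype

theorem exists_sylow {T C : Subgroup G} (h : IsSyl p T C) :
    ∃ P : Sylow p C, (P : Subgroup C) = T.subgroupOf C := by
  refine ⟨⟨T.subgroupOf C, isPGroup_subgroupOf h.2.1, ?_⟩, rfl⟩
  intro Q hQ hle
  apply le_antisymm _ hle
  have h1 : T ≤ Q.map C.subtype := by
    intro x hx
    exact ⟨⟨x, h.1 hx⟩, hle hx, rfl⟩
  have h2 : Q.map C.subtype ≤ C := Subgroup.map_subtype_le Q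
  have h3 := h.2.2 _ h1 h2 (hQ.map _)
  intro x hx
  exact h3 ⟨x, hx, rfl⟩

theorem isSyl_of_sylow {C : Subgroup G} (P : Sylow p C) :
    IsSyl p ((P : Subgroup C).map C.subtype) C := by
  refine ⟨Subgroup.map_subtype_le _, P.isPGroup'.map _, ?_⟩
  intro T' h1 h2 h3
  have h4 : (P : Subgroup C) ≤ T'.subgroupOf C := by
    intro x hx
    exact h1 ⟨x, hx, rfl⟩
  have h5 := P.is_maximal' (isPGroup_subgroupOf h3) h4
  intro x hx
  have h6 : (⟨x, h2 hx⟩ : C) ∈ T'.subgroupOf C := hx
  rw [h5] at h6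
  exact ⟨_, h6, rfl⟩

/-- the Sylow subgroups of `C` -/
def sylEquiv (C : Subgroup G) : Sylow p C ≃ {T : Subgroup G // IsSyl p T C} :=
  Equiv.ofBijective (fun P => ⟨(P : Subgroup C).map C.subtype, isSyl_of_sylow P⟩) (by
    constructor
    · intro P Q h
      have h1 : (P : Subgroup C).map C.subtype = (Q : Subgroup C).map C.subtype :=
        congrArg Subtype.val h
      exact Sylow.ext (Subgroup.map_injective C.subtype_injective h1)
    · rintro ⟨T, hT⟩
      obtain ⟨P, hP⟩ := exists_sylow hT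
      refine ⟨P, Subtype.ext ?_⟩
      change (P : Subgroup C).map C.subtype = T
      rw [hP, Subgroup.subgroupOf_map_subtype, inf_eq_left.mpr hT.1])

theorem card_nrm {C : Subgroup G} [Finite G] (P : Sylow p C) :
    Nat.card (Subgroup.normalizer ((P : Subgroup C) : Set C)) =
      Nat.card ↥(C ⊓ Subgroup.normalizer (((P : Subgroup C).map C.subtype : Subgroup G) : Set G)) := by
  have h : (Subgroup.normalizer ((P : Subgroup C) : Set C)).map C.subtype =
      C ⊓ Subgroup.normalizer (((P : Subgroup C).map C.subtype : Subgroup G) : Set G) := by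
    ext x
    constructor
    · rintro ⟨y, hy, rfl⟩
      refine ⟨y.2, conjSub_eq_iff.mp ?_⟩
      have hy' := conjSub_eq_iff.mpr hy
      change conjSub (y : G) _ = _
      ext z
      rw [mem_conjSub]
      constructor
      · rintro ⟨w, hw, hwz⟩
        refine ⟨y * w * y⁻¹, ?_, ?_⟩
        · rw [← hy']
          exact conj_mem_conjSub hw
        · have : z = (y : G) * ((y : G)⁻¹ * z * y) * (y : G)⁻¹ := by group
          rw [this, ← hwz]
          rfl
      · rintro ⟨w, hw, rfl⟩
        have hw' : w ∈ (P : Subgroup C) := hw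
        rw [← hy', mem_conjSub] at hw'
        exact ⟨_, hw', rfl⟩
    · rintro ⟨hx, hn⟩
      have hn' := conjSub_eq_iff.mpr hn
      refine ⟨⟨x, hx⟩, conjSub_eq_iff.mp ?_, rfl⟩
      ext z
      rw [mem_conjSub]
      have key : ∀ w : C, w ∈ (P : Subgroup C) ↔ (w : G) ∈ (P : Subgroup C).map C.subtype := by
        intro w
        constructor
        · intro h
          exact ⟨w, h, rfl⟩
        · rintro ⟨w', h, h'⟩
          have : w' = w := Subtype.ext h'
          rwa [← this]
      rw [key, key]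
      conv_rhs => rw [← hn', mem_conjSub]
      rfl
  rw [← h]
  exact Nat.card_congr (Subgroup.equivMapOfInjective _ _ C.subtype_injective).toEquiv

/-- counting the elements of a group by its Sylow subgroups and their normalisers -/
theorem sum_syl [Finite G] [Fact p.Prime] [Fintype (Subgroup G)] (C : Subgroup G) :
    ∑ T : Subgroup G, (if IsSyl p T C then
      Nat.card ↥(C ⊓ Subgroup.normalizer (T : Set G)) else 0) = Nat.card C := by
  have : Fintype (Sylow p C) := Fintype.ofFinite _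
  rw [← Finset.sum_filter, Finset.sum_subtype (p := fun T => IsSyl p T C) _ (by simp)]
  rw [← Equiv.sum_comp (sylEquiv (p := p) C)]
  have h1 : ∀ P : Sylow p C, Nat.card ↥(C ⊓ Subgroup.normalizer
      (((sylEquiv (p := p) C P : {T : Subgroup G // IsSyl p T C}) : Subgroup G) : Set G)) *
      Nat.card (Sylow p C) = Nat.card C := by
    intro P
    have h2 := card_nrm P
    change Nat.card ↥(C ⊓ Subgroup.normalizer
      (((P : Subgroup C).map C.subtype : Subgroup G) : Set G)) * _ = _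
    rw [← h2, Sylow.card_eq_index_normalizer P]
    exact Subgroup.card_mul_index _
  have hpos : 0 < Nat.card (Sylow p C) := Nat.card_pos
  apply Nat.eq_of_mul_eq_mul_right hpos
  rw [Finset.sum_mul, Finset.sum_congr rfl fun P _ => h1 P, Finset.sum_const, Finset.card_univ,
    smul_eq_mul, ← Nat.card_eq_fintype_card]
  ring

/-- the elements of `H` which centralise the tuple `g` -/
def cen {ι : Type} (H : Subgroup G) (g : ι → G) : Subgroup G :=
  H ⊓ Subgroup.centralizer (Set.range g)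

theorem mem_cen {ι : Type} {H : Subgroup G} {g : ι → G} {h : G} :
    h ∈ cen H g ↔ h ∈ H ∧ ∀ i, g i * h = h * g i := by
  unfold cen
  rw [Subgroup.mem_inf, Subgroup.mem_centralizer_iff]
  constructor
  · rintro ⟨h1, h2⟩
    exact ⟨h1, fun i => h2 _ ⟨i, rfl⟩⟩
  · rintro ⟨h1, h2⟩
    refine ⟨h1, ?_⟩
    rintro _ ⟨i, rfl⟩
    exact h2 i

theorem conjSub_eq_of_le {T : Subgroup G} {t : G} (ht : t ∈ T) : conjSub t T = T :=
  conjSub_eq_iff.mpr (Subgroup.le_normalizer ht)

/-- the normaliser of a proper subgroup of a `p`-group is larger -/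
theorem exists_nrm [Fact p.Prime] [Finite G] {T T' : Subgroup G} (h : T ≤ T') (hp : IsPGroup p T')
    (hn : ∀ x ∈ T', x ∈ Subgroup.normalizer (T : Set G) → x ∈ T) : T' ≤ T := by
  by_contra hc
  have hnil : Group.IsNilpotent T' := hp.isNilpotent
  have hne : T.subgroupOf T' ≠ ⊤ := by
    intro h1
    rw [Subgroup.subgroupOf_eq_top] at h1
    exact hc h1
  have h2 := Group.normalizerCondition_of_isNilpotent (T.subgroupOf T') (lt_top_iff_ne_top.mpr hne)
  obtain ⟨x, hx1, hx2⟩ := Set.exists_of_ssubset h2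
  apply hx2
  have h3 := conjSub_eq_iff.mpr hx1
  refine hn x x.2 (conjSub_eq_iff.mp ?_)
  ext z
  rw [mem_conjSub]
  constructor
  · intro hz
    have h4 : (⟨(x : G)⁻¹ * z * x, h hz⟩ : T') ∈ T.subgroupOf T' := hz
    have h5 := conj_mem_conjSub (g := x) h4
    rw [h3] at h5
    have h6 : (x : G) * ((x : G)⁻¹ * z * x) * (x : G)⁻¹ ∈ T := h5
    have e : (x : G) * ((x : G)⁻¹ * z * x) * (x : G)⁻¹ = z := by group
    rwa [e] at h6
  · intro hz
    have h4 : (⟨z, h hz⟩ : T') ∈ T.subgroupOf T' := hz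
    rw [← h3, mem_conjSub] at h4
    exact h4

theorem fix_iff {σ : Set (Subgroup G)} {x : G} :
    x ∈ chainStabilizer σ ↔ ∀ P ∈ σ, conjSub x P = P := mem_chainStabilizer

/-- toggling preserves the stabiliser in the normaliser of `U` -/
theorem toggle_stab [Fact p.Prime] [Finite G] {U : Subgroup G} (hU : IsPGroup p U) (hU1 : U ≠ ⊥)
    {σ : Set (Subgroup G)} (hσ : IsPChain p σ) (hUσ : U ≤ chainStabilizer σ) :
    IsPChain p (toggle U σ) ∧ U ≤ chainStabilizer (toggle U σ) ∧
      ∀ x ∈ Subgroup.normalizer (U : Set G), x ∈ chainStabilizer σ →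
        x ∈ chainStabilizer (toggle U σ) := by
  have key : ∀ x ∈ Subgroup.normalizer (U : Set G), x ∈ chainStabilizer σ →
      IsPChain p (toggle U σ) ∧ ∀ P ∈ toggle U σ, ∀ y ∈ insert x (U : Set G), conjSub y P = P := by
    intro x hx hxσ
    refine toggle_mem hU hU1 ?_ ?_ hσ ?_
    · intro u hu
      exact Subgroup.subset_closure (Or.inr hu)
    · rintro y (rfl | hy)
      · exact conjSub_eq_iff.mpr hx
      · exact conjSub_eq_of_le hy
    · rintro P hP y (rfl | hy)
      · exact fix_iff.mp hxσ P hP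
      · exact fix_iff.mp (hUσ hy) P hP
  have h1 := key 1 (one_mem _) (one_mem _)
  refine ⟨h1.1, ?_, ?_⟩
  · intro u hu
    exact fix_iff.mpr fun P hP => h1.2 P hP u (Or.inr hu)
  · intro x hx hxσ
    exact fix_iff.mpr fun P hP => (key x hx hxσ).2 P hP x (Or.inl rfl)

/-- the condition that `U` is a Sylow subgroup of the centraliser of `g` in the stabiliser is
preserved by toggling -/
theorem toggle_syl {ι : Type} [Fact p.Prime] [Finite G] {U : Subgroup G} {g : ι → G} (hU1 : U ≠ ⊥)
    {σ : Set (Subgroup G)} (hσ : IsPChain p σ) (hg : ∀ i, g i ∈ chainStabilizer σ)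
    (h : IsSyl p U (cen (chainStabilizer σ) g)) :
    IsPChain p (toggle U σ) ∧ (∀ i, g i ∈ chainStabilizer (toggle U σ)) ∧
      IsSyl p U (cen (chainStabilizer (toggle U σ)) g) := by
  have hUσ : U ≤ chainStabilizer σ := h.1.trans inf_le_left
  obtain ⟨h1, h2, h3⟩ := toggle_stab h.2.1 hU1 hσ hUσ
  have hcg : ∀ u ∈ U, ∀ i, g i * u = u * g i := fun u hu => (mem_cen.mp (h.1 hu)).2
  refine ⟨h1, ?_, ?_, h.2.1, ?_⟩
  · intro i
    refine h3 _ ?_ (hg i)
    rw [Subgroup.mem_normalizer_iff]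
    intro u
    constructor
    · intro hu
      have : g i * u * (g i)⁻¹ = u := by rw [hcg u hu i]; group
      rwa [this]
    · intro hu
      have h4 := hcg _ hu i
      have : u = g i * u * (g i)⁻¹ := by
        have h5 : (g i)⁻¹ * (g i * (g i * u * (g i)⁻¹)) = (g i)⁻¹ * (g i * u * (g i)⁻¹ * g i) := by
          rw [h4]
        have e1 : (g i)⁻¹ * (g i * (g i * u * (g i)⁻¹)) = g i * u * (g i)⁻¹ := by group
        have e2 : (g i)⁻¹ * (g i * u * (g i)⁻¹ * g i) = u := by group
        rw [e1, e2] at h5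
        exact h5.symm
      rw [this]
      exact hu
  · intro u hu
    exact mem_cen.mpr ⟨h2 hu, hcg u hu⟩
  · intro T' hT1 hT2 hT3
    refine exists_nrm hT1 hT3 ?_
    intro x hx hn
    -- `x` fixes the toggled chain and normalises `U`, hence fixes `σ`
    have h4 := toggle_stab h.2.1 hU1 h1 h2
    rw [toggle_toggle] at h4
    have hx1 := mem_cen.mp (hT2 hx)
    have h5 : x ∈ chainStabilizer σ := h4.2.2 x hn hx1.1
    -- the subgroup generated by `U` and `x`
    have h6 : U ⊔ Subgroup.zpowers x ≤ T' := sup_le hT1 (by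
      rw [Subgroup.zpowers_le]; exact hx)
    have h7 : IsPGroup p ↥(U ⊔ Subgroup.zpowers x) := hT3.to_le h6
    have h8 : U ⊔ Subgroup.zpowers x ≤ cen (chainStabilizer σ) g := sup_le h.1 (by
      rw [Subgroup.zpowers_le]; exact mem_cen.mpr ⟨h5, hx1.2⟩)
    exact h.2.2 _ le_sup_left h8 h7 (Subgroup.mem_sup_right (Subgroup.mem_zpowers x))

/-- **Cancellation for the tuples whose centraliser has a given Sylow subgroup.** -/
theorem sum_toggle {ι : Type} [Fact p.Prime] [Finite G] {U : Subgroup G} (hU1 : U ≠ ⊥)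
    (g : ι → G) [Fintype {σ : Set (Subgroup G) // IsPChain p σ}] :
    ∑ σ : {σ : Set (Subgroup G) // IsPChain p σ},
      (if (∀ i, g i ∈ chainStabilizer σ.1) ∧ IsSyl p U (cen (chainStabilizer σ.1) g) then
        (-1 : ℤ) ^ σ.1.ncard * (Nat.card ↥(cen (chainStabilizer σ.1) g ⊓
          Subgroup.normalizer (U : Set G)) : ℤ) else 0) = 0 := by
  rw [← Finset.sum_filter]
  have hm : ∀ σ : {σ : Set (Subgroup G) // IsPChain p σ},
      (∀ i, g i ∈ chainStabilizer σ.1) ∧ IsSyl p U (cen (chainStabilizer σ.1) g) →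
      cen (chainStabilizer (toggle U σ.1)) g ⊓ Subgroup.normalizer (U : Set G) =
      cen (chainStabilizer σ.1) g ⊓ Subgroup.normalizer (U : Set G) := by
    intro σ hσ
    have hUσ : U ≤ chainStabilizer σ.1 := hσ.2.1.trans inf_le_left
    have h1 := toggle_stab hσ.2.2.1 hU1 σ.2 hUσ
    have h2 := toggle_stab hσ.2.2.1 hU1 h1.1 h1.2.1
    rw [toggle_toggle] at h2
    ext x
    rw [Subgroup.mem_inf, Subgroup.mem_inf, mem_cen, mem_cen]
    constructor
    · rintro ⟨⟨a1, a2⟩, a3⟩
      exact ⟨⟨h2.2.2 x a3 a1, a2⟩, a3⟩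
    · rintro ⟨⟨a1, a2⟩, a3⟩
      exact ⟨⟨h1.2.2 x a3 a1, a2⟩, a3⟩
  refine Finset.sum_involution
    (fun σ hσ => ⟨toggle U σ.1, (toggle_syl hU1 σ.2 (Finset.mem_filter.mp hσ).2.1
      (Finset.mem_filter.mp hσ).2.2).1⟩) ?_ ?_ ?_ ?_
  · intro σ hσ
    change (-1 : ℤ) ^ σ.1.ncard * _ + (-1) ^ (toggle U σ.1).ncard * _ = 0
    rw [ncard_toggle, hm σ (Finset.mem_filter.mp hσ).2]
    ring
  · intro σ hσ _ h
    have h1 : toggle U σ.1 = σ.1 := congrArg Subtype.val h
    have h2 := ncard_toggle U σ.1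
    rw [h1] at h2
    have h3 : ((-1 : ℤ)) ^ σ.1.ncard ≠ 0 := pow_ne_zero _ (by norm_num)
    omega
  · intro σ hσ
    have h1 := toggle_syl hU1 σ.2 (Finset.mem_filter.mp hσ).2.1 (Finset.mem_filter.mp hσ).2.2
    rw [Finset.mem_filter]
    exact ⟨Finset.mem_univ _, h1.2⟩
  · intro σ hσ
    apply Subtype.ext
    exact toggle_toggle U σ.1

end Pool.Agent.K1H2.KR
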