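import Pool.Agent.K1H2.KR.Gal

/-!
# Pairs of commuting elements of the wreath product outside the base group
-/

set_option autoImplicit false
set_option linter.unusedSectionVars false

open scoped BigOperators Classical

noncomputable section

namespace Pool.Agent.K1H2.KR

open Pool.Agent.Y63.KR
open Pool.Agent.Q90.WR (inv mem_inv W_of_weight exists_weight conjSub_bot bot_mem W_congr kap)

/-- the term of a pair in the sum over the commuting pairs -/
def F (p : ℕ) {Γ : Type} [Group Γ] (X Y : Γ) : ℤ :=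
  if X * Y = Y * X then W p ({X, Y} : Set Γ) else 0

theorem kap_F (p : ℕ) (Γ : Type) [Group Γ] [Fintype Γ] : kap p Γ = ∑ X : Γ, ∑ Y : Γ, F p X Y := rfl

theorem F_comm (p : ℕ) {Γ : Type} [Group Γ] (X Y : Γ) : F p X Y = F p Y X := by
  unfold F
  rw [Set.pair_comm]
  by_cases h : X * Y = Y * X
  · rw [if_pos h, if_pos h.symm]
  · rw [if_neg h, if_neg (fun h' => h h'.symm)]

theorem F_mul (p : ℕ) {Γ : Type} [Group Γ] (X Y : Γ) : F p (X * Y) Y = F p X Y := by
  unfold F
  have h1 : X * Y * Y = Y * (X * Y) ↔ X * Y = Y * X := by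
    rw [← mul_assoc Y X Y, mul_left_inj]
  have hW : W p ({X * Y, Y} : Set Γ) = W p ({X, Y} : Set Γ) := by
    apply W_congr
    intro P
    constructor
    · intro h z hz
      rcases hz with hz | hz
      · have h1 := h (X * Y) (by simp)
        rw [conjSub_mul, h Y (by simp)] at h1
        rw [hz]
        exact h1
      · exact h _ (Or.inr hz)
    · rintro h z (rfl | rfl)
      · rw [conjSub_mul, h Y (by simp), h X (by simp)]
      · exact h _ (by simp)
  by_cases h : X * Y = Y * X
  · rw [if_pos h, if_pos (h1.mpr h), hW]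
  · rw [if_neg h, if_neg (fun h' => h (h1.mp h'))]

theorem F_mul_pow (p : ℕ) {Γ : Type} [Group Γ] (X Y : Γ) (m : ℕ) : F p (X * Y ^ m) Y = F p X Y := by
  induction m with
  | zero => rw [pow_zero, mul_one]
  | succ m ih => rw [pow_succ, ← mul_assoc, F_mul, ih]

theorem W_conj {p : ℕ} {Γ : Type} [Group Γ] [Finite Γ] (g X Y : Γ) :
    W p ({g * X * g⁻¹, g * Y * g⁻¹} : Set Γ) = W p ({X, Y} : Set Γ) := by
  have key : ∀ (z : Γ) (P : Subgroup Γ), conjSub (g * z * g⁻¹) P = P ↔
      conjSub z (conjSub g⁻¹ P) = conjSub g⁻¹ P := by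
    intro z P
    constructor
    · intro h
      rw [conjSub_mul, conjSub_mul] at h
      have h1 := congrArg (conjSub g⁻¹) h
      rwa [conjSub_inv_conjSub] at h1
    · intro h
      rw [conjSub_mul, conjSub_mul, h, conjSub_conjSub_inv]
  have h := W_galois (p := p) (ι := Unit) ({g * X * g⁻¹, g * Y * g⁻¹} : Set Γ)
    (fun _ => ({X, Y} : Set Γ)) (fun P _ => conjSub g⁻¹ P) (fun Q => conjSub g (Q ()))
    ?_ ?_ ?_ ?_ (conjSub_bot g)
  · rw [h]
    simp
  · intro P hP _
    rw [mem_inv] at hP ⊢
    refine ⟨hP.1.map _, ?_⟩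
    rintro z (rfl | rfl)
    · exact (key z P).mp (hP.2 _ (by simp))
    · exact (key z P).mp (hP.2 _ (by simp))
  · intro Q hQ
    have hQ := mem_inv.mp (hQ ())
    rw [mem_inv]
    refine ⟨hQ.1.map _, ?_⟩
    rintro z (rfl | rfl)
    · rw [key, conjSub_inv_conjSub]
      exact hQ.2 _ (by simp)
    · rw [key, conjSub_inv_conjSub]
      exact hQ.2 _ (by simp)
  · intro Q _
    funext i
    exact conjSub_inv_conjSub g _
  · intro P _ Q _
    constructor
    · intro h i
      have := conjSub_le (g := g⁻¹) h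
      rwa [conjSub_inv_conjSub] at this
    · intro h
      have := conjSub_le (g := g) (h ())
      rwa [conjSub_conjSub_inv] at this

theorem F_conj {p : ℕ} {Γ : Type} [Group Γ] [Finite Γ] (g X Y : Γ) :
    F p (g * X * g⁻¹) (g * Y * g⁻¹) = F p X Y := by
  unfold F
  have h : g * X * g⁻¹ * (g * Y * g⁻¹) = g * Y * g⁻¹ * (g * X * g⁻¹) ↔ X * Y = Y * X := by
    have e1 : g * X * g⁻¹ * (g * Y * g⁻¹) = g * (X * Y) * g⁻¹ := by group
    have e2 : g * Y * g⁻¹ * (g * X * g⁻¹) = g * (Y * X) * g⁻¹ := by group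
    rw [e1, e2, mul_left_inj, mul_right_inj]
  rw [W_conj]
  by_cases hc : X * Y = Y * X
  · rw [if_pos hc, if_pos (h.mpr hc)]
  · rw [if_neg hc, if_neg (fun h' => hc (h.mp h'))]

section wreath

variable {q p : ℕ} {G : Type} [Group G]

/-- the inclusion of the base group -/
def inc : (ZMod q → G) →* WrC q G where
  toFun w := ⟨w, 0⟩
  map_one' := rfl
  map_mul' w w' := by
    ext i
    · change w i * w' i = w i * w' (i + 0)
      rw [add_zero]
    · change (0 : ZMod q) = 0 + 0
      rw [add_zero]

theorem inc_inj : Function.Injective (inc (q := q) (G := G)) := fun _ _ h => congrArg WrC.v h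

theorem inc_range [hq : Fact q.Prime] [hp : Fact p.Prime] (hpq : q ≠ p)
    {P : Subgroup (WrC q G)} (h : IsPGroup p P) : P ≤ (inc (q := q) (G := G)).range := by
  intro x hx
  exact ⟨x.v, by
    ext i
    · rfl
    · exact (WrC.s_eq hpq h hx).symm⟩

/-- conjugation with an element outside the base group -/
theorem conj_inc (n : ZMod q → G) (t : ZMod q) (w : ZMod q → G) :
    (⟨n, t⟩ : WrC q G)⁻¹ * inc w * ⟨n, t⟩ =
      inc (fun j => (n (j - t))⁻¹ * w (j - t) * n (j - t)) := by
  ext i
  · change (n (i - t))⁻¹ * w (i + -t) * n (i + (-t + 0)) = _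
    rw [add_zero, ← sub_eq_add_neg]
    rfl
  · change -t + 0 + t = (0 : ZMod q)
    rw [add_zero, neg_add_cancel]

theorem pr_conj_tw (n : ZMod q → G) (t : ZMod q) (P : Subgroup (WrC q G)) (i : ZMod q) :
    pr inc (conjSub ⟨n, t⟩ P) i = conjSub (n i) (pr inc P (i + t)) := by
  ext g
  rw [mem_pr, mem_conjSub, mem_pr]
  constructor
  · rintro ⟨w, h1, rfl⟩
    rw [mem_conjSub, conj_inc] at h1
    exact ⟨_, h1, by simp⟩
  · rintro ⟨w, h1, h2⟩
    refine ⟨fun j => n j * w (j + t) * (n j)⁻¹, ?_, ?_⟩
    · rw [mem_conjSub, conj_inc]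
      convert h1 using 2
      funext j
      simp [mul_assoc]
    · change n i * w (i + t) * (n i)⁻¹ = g
      rw [h2]
      group

theorem prd_conj_tw (n : ZMod q → G) (t : ZMod q) (R : ZMod q → Subgroup G) :
    conjSub ⟨n, t⟩ (prd inc R) = prd inc (fun i => conjSub (n i) (R (i + t))) := by
  ext X
  rw [mem_conjSub]
  constructor
  · intro h
    obtain ⟨w, h1, h2⟩ := mem_prd.mp h
    refine mem_prd.mpr ⟨fun j => n j * w (j + t) * (n j)⁻¹, fun i => ?_, ?_⟩
    · rw [mem_conjSub]
      have := h1 (i + t)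
      have e : (n i)⁻¹ * (n i * w (i + t) * (n i)⁻¹) * n i = w (i + t) := by group
      rwa [e]
    · have h3 : X = ⟨n, t⟩ * inc w * (⟨n, t⟩ : WrC q G)⁻¹ := by
        rw [h2]; group
      have h4 := conj_inc n t (fun j => n j * w (j + t) * (n j)⁻¹)
      have h5 : (fun j => (n (j - t))⁻¹ * (n (j - t) * w (j - t + t) * (n (j - t))⁻¹) * n (j - t))
          = w := by
        funext j
        rw [sub_add_cancel]
        group
      rw [h5] at h4
      rw [h3, ← h4]
      group
  · intro h
    obtain ⟨w, h1, rfl⟩ := mem_prd.mp h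
    rw [conj_inc, prd_mem inc_inj]
    intro i
    have := mem_conjSub.mp (h1 (i - t))
    rwa [sub_add_cancel] at this

/-- the normal form of the elements outside the base group -/
def nf (t : ZMod q) (c : G) : ZMod q → G := fun i => if i = -t then c else 1

/-- the coordinates are permuted transitively -/
theorem all_eq [hq : Fact q.Prime] {T : Type} {t : ZMod q} (ht : t ≠ 0) (f : ZMod q → T)
    (hf : ∀ i, i ≠ -t → f i = f (i + t)) : ∀ i, f i = f 0 := by
  have h1 : ∀ k : ℕ, k < q → f ((k : ZMod q) * t) = f 0 := by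
    intro k
    induction k with
    | zero => intro _; simp
    | succ k ih =>
      intro hk
      have h2 := ih (by omega)
      rw [← h2, hf ((k : ZMod q) * t)]
      · congr 1
        push_cast
        ring
      · intro h3
        have h4 : ((k + 1 : ℕ) : ZMod q) * t = 0 := by
          push_cast
          rw [add_mul, h3]
          ring
        have h5 := (mul_eq_zero.mp h4).resolve_right ht
        rw [ZMod.natCast_eq_zero_iff] at h5
        exact absurd (Nat.le_of_dvd (Nat.succ_pos k) h5) (by omega)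
  intro i
  have h2 := h1 (i * t⁻¹).val (ZMod.val_lt _)
  rw [ZMod.natCast_zmod_val, mul_assoc, inv_mul_cancel₀ ht, mul_one] at h2
  exact h2

variable [Finite G]

/-- pairs in normal form -/
theorem W_tw [hq : Fact q.Prime] [hp : Fact p.Prime] (hpq : q ≠ p) {t : ZMod q} (ht : t ≠ 0)
    (x c : G) : W p ({inc (fun _ => x), ⟨nf t c, t⟩} : Set (WrC q G)) = W p ({x, c} : Set G) := by
  have h := W_galois (p := p) (ι := Unit) ({inc (fun _ => x), ⟨nf t c, t⟩} : Set (WrC q G))
    (fun _ => ({x, c} : Set G)) (fun P _ => pr inc P 0) (fun Q => prd inc (fun _ => Q ()))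
    ?_ ?_ ?_ ?_ prd_bot
  · rw [h]
    simp
  · intro P hP _
    rw [mem_inv] at hP ⊢
    have e1 := hP.2 (inc (fun _ => x)) (by simp)
    have e2 := hP.2 (⟨nf t c, t⟩ : WrC q G) (by simp)
    have e3 : ∀ i, pr inc P i = conjSub (nf t c i) (pr inc P (i + t)) := by
      intro i
      rw [← pr_conj_tw, e2]
    have e4 : ∀ i, pr inc P i = pr inc P 0 := by
      apply all_eq ht
      intro i hi
      have h5 := e3 i
      rw [show nf t c i = 1 from if_neg hi, conjSub_one] at h5
      exact h5
    refine ⟨isPGroup_pr inc_inj hP.1 0, ?_⟩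
    rintro z (rfl | rfl)
    · rw [← pr_conj (φ := inc) (fun _ => z) P 0, e1]
    · have h5 := e3 (-t)
      rw [show nf t z (-t) = z from if_pos rfl, neg_add_cancel, e4 (-t)] at h5
      exact h5.symm
  · intro Q hQ
    have hQ := mem_inv.mp (hQ ())
    rw [mem_inv]
    refine ⟨isPGroup_prd fun _ => hQ.1, ?_⟩
    rintro z (rfl | rfl)
    · rw [prd_conj]
      congr 1
      funext i
      exact hQ.2 _ (by simp)
    · rw [prd_conj_tw]
      congr 1
      funext i
      by_cases hi : i = -t
      · rw [show nf t c i = c from if_pos hi]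
        exact hQ.2 _ (by simp)
      · rw [show nf t c i = 1 from if_neg hi, conjSub_one]
  · intro Q _
    funext i
    exact pr_prd inc_inj _ _
  · intro P hP Q _
    rw [mem_inv] at hP
    have e2 := hP.2 (⟨nf t c, t⟩ : WrC q G) (by simp)
    have e4 : ∀ i, pr inc P i = pr inc P 0 := by
      apply all_eq ht
      intro i hi
      have h5 : pr inc P i = conjSub (nf t c i) (pr inc P (i + t)) := by
        rw [← pr_conj_tw, e2]
      rw [show nf t c i = 1 from if_neg hi, conjSub_one] at h5
      exact h5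
    rw [le_prd inc_inj (inc_range hpq hP.1)]
    constructor
    · intro h i
      exact h 0
    · intro h i
      rw [e4 i]
      exact h ()

end wreath

end Pool.Agent.K1H2.KR
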