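import Pool.Agent.K1H2.KR.Pi

/-!
# Characters of defect zero of the wreath product
-/

set_option autoImplicit false
set_option linter.unusedSectionVars false

open scoped BigOperators Classical

noncomputable section

namespace Pool.Agent.K1H2.KR

open Representation Pool.Agent.Helper884.IC Pool.Agent.Y63.AWC
open Pool.Agent.Y63.NV (numInvDz)
open Pool.Agent.Y564.NV (iv_iff Iv)

variable {G : Type} [Group G] {q : ℕ} [hq : Fact q.Prime] {p : ℕ} [hp : Fact p.Prime]

/-- the characters of the base group -/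
theorem irr_bs [Fintype G] (χ : WrC.bs q G → ℂ) : IsIrrChar χ ↔
    ∃ θ : ZMod q → G → ℂ, (∀ i, IsIrrChar (θ i)) ∧ χ = fun x => boxI θ x.1.v := by
  rw [← irr_comp_iff (WrC.bsEquiv (q := q) (G := G)), irr_pi]
  constructor
  · rintro ⟨θ, h1, h2⟩
    refine ⟨θ, h1, ?_⟩
    funext x
    have h3 := congrFun h2 (WrC.bsEquiv.symm x)
    rw [MulEquiv.apply_symm_apply] at h3
    exact h3
  · rintro ⟨θ, h1, rfl⟩
    exact ⟨θ, h1, rfl⟩

/-- the degrees -/
theorem dz_bs [Fintype G] (θ : ZMod q → G → ℂ) :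
    DZ p (fun x : WrC.bs q G => boxI θ x.1.v) ↔ DZ p (boxI θ) := by
  unfold DZ
  rw [Nat.card_congr (WrC.bsEquiv (q := q) (G := G)).toEquiv]
  rfl

/-- invariance -/
theorem inv_bs [Fintype G] {θ : ZMod q → G → ℂ} (h : ∀ i, IsIrrChar (θ i)) :
    (∀ (y : WrC q G) (a b : WrC.bs q G), (b : WrC q G) = y * a * y⁻¹ →
      boxI θ b.1.v = boxI θ a.1.v) ↔ ∀ i, θ i = θ 0 := by
  constructor
  · intro h1
    have h2 : boxI (fun i => θ (i - 1)) = boxI θ := by
      funext w
      have h3 := h1 (⟨fun _ => 1, 1⟩ : WrC q G) ⟨⟨w, 0⟩, WrC.mem_bs.mpr rfl⟩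
        ⟨⟨fun i => w (i + 1), 0⟩, WrC.mem_bs.mpr rfl⟩ (by
          ext i
          · change w (i + 1) = 1 * w (i + 1) * (1 : G)⁻¹
            rw [one_mul, inv_one, mul_one]
          · change (0 : ZMod q) = 1 + 0 + -1
            ring)
      change boxI θ (fun i => w (i + 1)) = boxI θ w at h3
      rw [← h3]
      unfold boxI
      rw [← Equiv.prod_comp (Equiv.addRight (1 : ZMod q))]
      refine Finset.prod_congr rfl fun i _ => ?_
      change θ (i + 1 - 1) (w (i + 1)) = _
      rw [add_sub_cancel_right]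
    have h3 := boxI_inj (fun i => h (i - 1)) h h2
    apply all_eq (one_ne_zero (α := ZMod q))
    intro i _
    have h4 := congrFun h3 (i + 1)
    change θ (i + 1 - 1) = θ (i + 1) at h4
    rwa [add_sub_cancel_right] at h4
  · intro h1 y a b hab
    have hb : ∀ i, b.1.v i = y.v i * a.1.v (i + y.s) * (y.v i)⁻¹ := by
      intro i
      have h2 := congrFun (congrArg WrC.v hab) i
      have ha := WrC.mem_bs.mp a.2
      rw [h2]
      change y.v i * a.1.v (i + y.s) * (y.v (i + (y.s + a.1.s) - y.s))⁻¹ = _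
      rw [ha, add_zero, add_sub_cancel_right]
    unfold boxI
    rw [← Equiv.prod_comp (Equiv.addRight y.s) (fun i => θ i (a.1.v i))]
    refine Finset.prod_congr rfl fun i _ => ?_
    rw [hb, (h i).isClass]
    change θ i (a.1.v (i + y.s)) = θ (i + y.s) (a.1.v (i + y.s))
    rw [h1 i, h1 (i + y.s)]

/-- **the invariant characters of defect zero of the base group** -/
theorem numInvDz_bs [Finite G] : numInvDz p (WrC.bs q G) = numDefectZero p G := by
  have := Fintype.ofFinite G
  unfold numInvDz numDefectZero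
  symm
  refine Nat.card_congr (Equiv.ofBijective
    (fun f : {χ : G → ℂ // IsIrreducibleCharacter χ ∧
      ∃ n : ℕ, χ 1 = (n : ℂ) ∧ n.factorization p = (Nat.card G).factorization p} =>
      (⟨fun x => boxI (fun _ => f.1) x.1.v, (irr_bs _).mpr ⟨_, fun _ => f.2.1, rfl⟩,
        (dz_bs (p := p) (fun _ => f.1)).mpr ((dz_boxI fun _ => f.2.1).mpr fun _ => f.2.2),
        (inv_bs fun _ => f.2.1).mpr fun _ => rfl⟩ :
        {χ : WrC.bs q G → ℂ // IsIrreducibleCharacter χ ∧
      (∃ n : ℕ, χ 1 = (n : ℂ) ∧ n.factorization p = (Nat.card (WrC.bs q G)).factorization p) ∧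
      ∀ (y : WrC q G) (a b : WrC.bs q G), (b : WrC q G) = y * a * y⁻¹ → χ b = χ a}))
    ⟨?_, ?_⟩)
  · intro f g h
    have h0 := congrArg Subtype.val h
    have h1 : boxI (fun _ : ZMod q => f.1) = boxI fun _ : ZMod q => g.1 := by
      funext w
      exact congrFun h0 ⟨⟨w, 0⟩, WrC.mem_bs.mpr rfl⟩
    exact Subtype.ext (congrFun (boxI_inj (fun _ => f.2.1) (fun _ => g.2.1) h1) 0)
  · rintro ⟨χ, h1, h2, h3⟩
    obtain ⟨θ, h4, rfl⟩ := (irr_bs χ).mp h1
    have h5 := (inv_bs h4).mp h3
    have h6 := (dz_boxI h4).mp ((dz_bs (p := p) θ).mp h2)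
    refine ⟨⟨θ 0, h4 0, h6 0⟩, Subtype.ext ?_⟩
    have h7 : (fun _ : ZMod q => θ 0) = θ := funext fun i => (h5 i).symm
    change (fun x : WrC.bs q G => boxI (fun _ => θ 0) x.1.v) = _
    rw [h7]

theorem numDefectZero_bs [Finite G] :
    numDefectZero p (WrC.bs q G) = numDefectZero p G ^ q := by
  rw [← numDefectZero_congr (WrC.bsEquiv (q := q) (G := G)), numDefectZero_pi, ZMod.card]

/-- a faithful linear character of the quotient -/
def lamC (q : ℕ) [Fact q.Prime] (G : Type) [Group G] : WrC q G →* ℂ where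
  toFun x := ZMod.stdAddChar x.s
  map_one' := by
    change ZMod.stdAddChar (0 : ZMod q) = 1
    exact AddChar.map_zero_eq_one _
  map_mul' x y := by
    change ZMod.stdAddChar (x.s + y.s) = _
    exact AddChar.map_add_eq_mul _ _ _

theorem lamC_prim {x : WrC q G} (hx : x ∉ WrC.bs q G) : IsPrimitiveRoot (lamC q G x) q := by
  have h1 : (lamC q G x) ^ q = 1 := by
    change (ZMod.stdAddChar x.s) ^ q = 1
    rw [← AddChar.map_nsmul_eq_pow]
    simp
  have h2 : orderOf (lamC q G x) ∣ q := orderOf_dvd_of_pow_eq_one h1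
  rcases (Nat.dvd_prime hq.out).mp h2 with h3 | h3
  · exfalso
    rw [orderOf_eq_one_iff] at h3
    apply hx
    rw [WrC.mem_bs]
    apply ZMod.injective_stdAddChar
    rw [AddChar.map_zero_eq_one]
    exact h3
  · conv => arg 2; rw [← h3]
    exact IsPrimitiveRoot.orderOf _

/-- **the number of characters of defect zero of the wreath product**, `q ≠ p` -/
theorem z_wr [Finite G] (hpq : q ≠ p) : (q : ℤ) * numDefectZero p (WrC q G) =
    (numDefectZero p G : ℤ) ^ q + ((q : ℤ) ^ 2 - 1) * numDefectZero p G := by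
  have := Fintype.ofFinite G
  have hr := WrC.card_bs (q := q) (G := G)
  have h1 := count_q (p := p) (WrC.bs q G) hpq hr (lamC q G) (fun m hm => by
    change ZMod.stdAddChar m.s = 1
    rw [WrC.mem_bs.mp hm, AddChar.map_zero_eq_one]) (fun x hx => lamC_prim hx)
  rw [← numDefectZero_eq, ← numDefectZero_eq, numDefectZero_bs] at h1
  have h2 : ((Irr (WrC.bs q G)).filter fun θ => DZ p θ ∧
      Nat.card (St (WrC.bs q G) θ) = Nat.card (WrC q G)).card = numDefectZero p G := by
    rw [← numInvDz_bs (q := q)]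
    unfold numInvDz
    rw [← Fintype.card_coe, ← Nat.card_eq_fintype_card]
    refine Nat.card_congr (Equiv.subtypeEquivRight fun θ => ?_)
    rw [Finset.mem_filter, mem_Irr, ← iv_iff]
    rfl
  rw [h2] at h1
  rw [h1]
  push_cast
  ring

/-- the number of characters of defect zero of the wreath product, `q = p` -/
theorem z_wr_p [Finite G] : (p : ℤ) * numDefectZero p (WrC p G) =
    (numDefectZero p G : ℤ) ^ p - numDefectZero p G := by
  have h1 := Pool.Agent.Y564.NV.clif p (WrC p G) (WrC.bs p G) (by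
    have := WrC.index_bs (q := p) (G := G)
    exact this)
  rw [numInvDz_bs, numDefectZero_bs] at h1
  have h2 : (p : ℤ) * numDefectZero p (WrC p G) + numDefectZero p G =
      (numDefectZero p G : ℤ) ^ p := by exact_mod_cast h1
  linarith

end Pool.Agent.K1H2.KR
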